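import Mathlib

/-!
# Ridout's theorem for the number 1 and the primes 2, 3: definitions (helper42, MP_06c4eb_nt)

Everything is for polynomials in `n` variables, `MvPolynomial (Fin n) R`.
-/

set_option autoImplicit false

namespace Pool.Agent.Helper42.RD

open MvPolynomial Finset

/-- the sum of the absolute values of the coefficients -/
noncomputable def L1 {n : ℕ} (P : MvPolynomial (Fin n) ℤ) : ℝ :=
  ∑ j ∈ P.support, |((coeff j P : ℤ) : ℝ)|

/-- the Hasse derivative `(1 / i!) ∂^i` -/
noncomputable def hD {n : ℕ} {R : Type*} [CommRing R] (i : Fin n →₀ ℕ)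
    (P : MvPolynomial (Fin n) R) : MvPolynomial (Fin n) R :=
  ∑ j ∈ P.support, monomial (j - i) (((∏ l, (j l).choose (i l) : ℕ) : R) * coeff j P)

/-- the index of `P` at the point `β` with respect to the weights `w` is at least `t` -/
def IndGE {n : ℕ} (w : Fin n → ℝ) (β : Fin n → ℚ) (t : ℝ) (P : MvPolynomial (Fin n) ℤ) : Prop :=
  ∀ i : Fin n →₀ ℕ, ∑ l, (i l : ℝ) * w l < t → aeval β (hD i P) = 0

/-- the sum of the absolute values of the coefficients (one variable) -/
noncomputable def L1p (V : Polynomial ℤ) : ℝ := ∑ e ∈ V.support, |((V.coeff e : ℤ) : ℝ)|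

/-- the height of the rational number `x / y` (`x`, `y` coprime) -/
noncomputable def ht (x y : ℤ) : ℝ := max |(x : ℝ)| |(y : ℝ)|

/-- the box of exponents -/
def box {m : ℕ} (d : Fin m → ℕ) : Finset (Fin m → ℕ) :=
  Fintype.piFinset fun l => range (d l + 1)

/-- the integer `∏ y ^ (d - i) (D_i P) (x / y)` -/
noncomputable def NN {m : ℕ} (P : MvPolynomial (Fin m) ℤ) (d : Fin m → ℕ) (i : Fin m →₀ ℕ)
    (x y : Fin m → ℤ) : ℤ :=
  ∑ j ∈ P.support, coeff j P *
    ∏ l, ((((j l).choose (i l) : ℕ) : ℤ) * x l ^ (j l - i l) * y l ^ (d l - j l))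

end Pool.Agent.Helper42.RD
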