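import Mathlib
import Pool.Agent.Helper42.RD.Defs

/-!
# RD-2 (Hasse): the Hasse derivatives `hD`

All from `coeff_hD` (a term `j` of `P` contributes to the coefficient at `j - i`; if `i ≤ j` fails one
of the binomial coefficients is zero) and `MvPolynomial.ext`. For `hD_hD` use
`(j+i) choose i * (j+i+i') choose i' = (i+i') choose i * (j+i+i') choose (i+i')`, for `pderiv_hD`
`(j+1) (j+1+i) choose i = (i+1) (j+i+1) choose (i+1)` (coefficient of `pderiv`:
`MvPolynomial.coeff_pderiv` if it exists, or check on monomials by linearity). `L1_hD_le`: each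
coefficient is multiplied by a product of binomials `(j l).choose (i l) ≤ 2 ^ (j l) ≤ 2 ^ (d l)`
and `j ↦ j - i` is injective on the `j ≥ i`.
-/

set_option autoImplicit false

namespace Pool.Agent.Helper42.RD

open MvPolynomial Finset

variable {n : ℕ} {R : Type*} [CommRing R]

theorem coeff_hD (i j : Fin n →₀ ℕ) (P : MvPolynomial (Fin n) R) :
    coeff j (hD i P) = ((∏ l, (j l + i l).choose (i l) : ℕ) : R) * coeff (j + i) P := by
  unfold hD
  rw [coeff_sum]
  simp only [coeff_monomial]
  rw [Finset.sum_eq_single (j + i)]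
  · have h : j + i - i = j := by
      ext l
      simp
    rw [if_pos h]
    simp only [Finsupp.add_apply]
  · intro k _ hne
    split_ifs with h
    · have h0 : ∏ l, (k l).choose (i l) = 0 := by
        by_contra hcon
        apply hne
        have hle : i ≤ k := by
          intro l
          by_contra hl
          apply hcon
          exact Finset.prod_eq_zero (Finset.mem_univ l) (Nat.choose_eq_zero_of_lt (not_le.mp hl))
        rw [← h]
        exact (tsub_add_cancel_of_le hle).symm
      rw [h0]
      simp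
    · rfl
  · intro h
    have h0 : coeff (j + i) P = 0 := by
      simpa [mem_support_iff] using h
    rw [h0]
    simp

theorem hD_index_zero (P : MvPolynomial (Fin n) R) : hD 0 P = P := by
  ext j
  rw [coeff_hD]
  simp

theorem hD_zero (i : Fin n →₀ ℕ) : hD i (0 : MvPolynomial (Fin n) R) = 0 := by
  ext j
  rw [coeff_hD]
  simp

theorem hD_add (i : Fin n →₀ ℕ) (P Q : MvPolynomial (Fin n) R) :
    hD i (P + Q) = hD i P + hD i Q := by
  ext j
  rw [coeff_add, coeff_hD, coeff_hD, coeff_hD, coeff_add, mul_add]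

theorem hD_sum {ι : Type*} (i : Fin n →₀ ℕ) (s : Finset ι) (f : ι → MvPolynomial (Fin n) R) :
    hD i (∑ q ∈ s, f q) = ∑ q ∈ s, hD i (f q) := by
  ext j
  rw [coeff_sum, coeff_hD, coeff_sum, Finset.mul_sum]
  exact Finset.sum_congr rfl fun q _ => (coeff_hD i j (f q)).symm

theorem hD_C_mul (i : Fin n →₀ ℕ) (c : R) (P : MvPolynomial (Fin n) R) :
    hD i (C c * P) = C c * hD i P := by
  ext j
  rw [coeff_C_mul, coeff_hD, coeff_hD, coeff_C_mul]
  ring

theorem hD_monomial (i j : Fin n →₀ ℕ) (c : R) :
    hD i (monomial j c) = monomial (j - i) (((∏ l, (j l).choose (i l) : ℕ) : R) * c) := by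
  ext k
  rw [coeff_hD, coeff_monomial, coeff_monomial]
  by_cases hj : j = k + i
  · subst hj
    have h : k + i - i = k := by
      ext l
      simp
    rw [if_pos rfl, if_pos h]
    simp only [Finsupp.add_apply]
  · rw [if_neg hj, mul_zero]
    split_ifs with h
    · have h0 : ∏ l, (j l).choose (i l) = 0 := by
        by_contra hcon
        apply hj
        have hle : i ≤ j := by
          intro l
          by_contra hl
          apply hcon
          exact Finset.prod_eq_zero (Finset.mem_univ l) (Nat.choose_eq_zero_of_lt (not_le.mp hl))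
        rw [← h]
        exact (tsub_add_cancel_of_le hle).symm
      rw [h0]
      simp
    · rfl

theorem hD_map {S : Type*} [CommRing S] (f : R →+* S) (i : Fin n →₀ ℕ)
    (P : MvPolynomial (Fin n) R) : hD i (map f P) = map f (hD i P) := by
  ext j
  rw [coeff_hD, coeff_map, coeff_map, coeff_hD, map_mul, map_natCast]

theorem hD_hD (i i' : Fin n →₀ ℕ) (P : MvPolynomial (Fin n) R) :
    hD i (hD i' P) = C ((∏ l, (i l + i' l).choose (i l) : ℕ) : R) * hD (i + i') P := by
  ext j
  rw [coeff_C_mul, coeff_hD, coeff_hD, coeff_hD, ← mul_assoc, ← mul_assoc, ← Nat.cast_mul,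
    ← Nat.cast_mul, ← Finset.prod_mul_distrib, ← Finset.prod_mul_distrib, add_assoc]
  congr 2
  refine Finset.prod_congr rfl fun l _ => ?_
  simp only [Finsupp.add_apply]
  have h1 := Nat.choose_mul (n := j l + i l + i' l) (k := i l + i' l) (s := i' l)
    (by omega)
  have h2 : j l + i l + i' l - i' l = j l + i l := by omega
  have h3 : i l + i' l - i' l = i l := by omega
  rw [h2, h3] at h1
  have h4 : (i l + i' l).choose (i' l) = (i l + i' l).choose (i l) := by
    have := Nat.choose_symm_add (a := i l) (b := i' l)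
    exact this.symm
  rw [h4] at h1
  rw [show j l + (i l + i' l) = j l + i l + i' l by omega]
  linarith

theorem pderiv_hD (l : Fin n) (i : Fin n →₀ ℕ) (P : MvPolynomial (Fin n) R) :
    pderiv l (hD i P) = C ((i l + 1 : ℕ) : R) * hD (i + Finsupp.single l 1) P := by
  ext j
  rw [coeff_pderiv, coeff_C_mul, coeff_hD, coeff_hD]
  obtain ⟨e, he⟩ : ∃ e : Fin n →₀ ℕ, e = Finsupp.single l 1 := ⟨_, rfl⟩
  rw [← he]
  have hel : e l = 1 := by rw [he]; simp
  have hek : ∀ k, k ≠ l → e k = 0 := by
    intro k hk
    rw [he]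
    simp [hk.symm]
  have hidx : j + e + i = j + (i + e) := by
    rw [add_assoc, add_comm e i]
  rw [hidx]
  have hprod : (∏ k, ((j + e) k + i k).choose (i k)) * (j l + 1)
      = (i l + 1) * ∏ k, (j k + (i + e) k).choose ((i + e) k) := by
    rw [← Finset.mul_prod_erase Finset.univ _ (Finset.mem_univ l),
      ← Finset.mul_prod_erase Finset.univ (fun k => (j k + (i + e) k).choose ((i + e) k))
        (Finset.mem_univ l)]
    have hrest : ∏ k ∈ Finset.univ.erase l, ((j + e) k + i k).choose (i k)
        = ∏ k ∈ Finset.univ.erase l, (j k + (i + e) k).choose ((i + e) k) := by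
      refine Finset.prod_congr rfl fun k hk => ?_
      simp only [Finsupp.add_apply, hek k (Finset.ne_of_mem_erase hk), add_zero]
    rw [hrest]
    simp only [Finsupp.add_apply, hel]
    have h1 := Nat.add_one_mul_choose_eq (j l + i l) (i l)
    have h2 := Nat.choose_mul_succ_eq (j l + i l) (i l)
    have h3 : j l + i l + 1 - i l = j l + 1 := by omega
    rw [h3] at h2
    have h4 : j l + 1 + i l = j l + i l + 1 := by omega
    have h5 : j l + (i l + 1) = j l + i l + 1 := by omega
    rw [h4, h5]
    have h6 : (j l + i l + 1).choose (i l) * (j l + 1)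
        = (i l + 1) * (j l + i l + 1).choose (i l + 1) := by
      rw [← h2, mul_comm (i l + 1), ← h1, mul_comm]
    calc _ = (j l + i l + 1).choose (i l) * (j l + 1) *
          ∏ k ∈ Finset.univ.erase l, (j k + (i k + e k)).choose (i k + e k) := by ring
      _ = _ := by rw [h6]; ring
  have hcast : (((∏ k, ((j + e) k + i k).choose (i k) : ℕ) : R)) * ((j l : R) + 1)
      = ((i l + 1 : ℕ) : R) * ((∏ k, (j k + (i + e) k).choose ((i + e) k) : ℕ) : R) := by
    have := congrArg (Nat.cast (R := R)) hprod
    rw [Nat.cast_mul, Nat.cast_mul] at this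
    rw [← this]
    push_cast
    ring
  calc _ = (((∏ k, ((j + e) k + i k).choose (i k) : ℕ) : R)) * ((j l : R) + 1)
        * coeff (j + (i + e)) P := by ring
    _ = _ := by rw [hcast]; ring

theorem degreeOf_hD_le (l : Fin n) (i : Fin n →₀ ℕ) (P : MvPolynomial (Fin n) R) :
    degreeOf l (hD i P) ≤ degreeOf l P - i l := by
  rw [degreeOf_le_iff]
  intro m hm
  rw [mem_support_iff, coeff_hD] at hm
  have h1 : coeff (m + i) P ≠ 0 := right_ne_zero_of_mul hm
  have h2 := monomial_le_degreeOf l (mem_support_iff.mpr h1)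
  rw [Finsupp.add_apply] at h2
  omega

theorem hD_eq_zero (l : Fin n) (i : Fin n →₀ ℕ) (P : MvPolynomial (Fin n) R)
    (h : degreeOf l P < i l) : hD i P = 0 := by
  ext j
  rw [coeff_hD, coeff_zero]
  have h0 : coeff (j + i) P = 0 := by
    by_contra h1
    have h2 := monomial_le_degreeOf l (mem_support_iff.mpr h1)
    rw [Finsupp.add_apply] at h2
    omega
  rw [h0, mul_zero]

theorem L1_hD_le (i : Fin n →₀ ℕ) (P : MvPolynomial (Fin n) ℤ) (d : Fin n → ℕ)
    (hd : ∀ l, degreeOf l P ≤ d l) : L1 (hD i P) ≤ 2 ^ (∑ l, d l) * L1 P := by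
  unfold L1
  have step : ∀ j ∈ (hD i P).support, |((coeff j (hD i P) : ℤ) : ℝ)|
      ≤ 2 ^ (∑ l, d l) * |((coeff (j + i) P : ℤ) : ℝ)| := by
    intro j hj
    rw [mem_support_iff, coeff_hD] at hj
    have h1 : coeff (j + i) P ≠ 0 := right_ne_zero_of_mul hj
    rw [coeff_hD]
    push_cast
    rw [abs_mul]
    refine mul_le_mul_of_nonneg_right ?_ (abs_nonneg _)
    have hb : (∏ l, (j l + i l).choose (i l) : ℕ) ≤ 2 ^ (∑ l, d l) := by
      rw [← Finset.prod_pow_eq_pow_sum]
      refine Finset.prod_le_prod' fun l _ => ?_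
      have h2 := monomial_le_degreeOf l (mem_support_iff.mpr h1)
      rw [Finsupp.add_apply] at h2
      calc (j l + i l).choose (i l) ≤ 2 ^ (j l + i l) := Nat.choose_le_two_pow _ _
        _ ≤ 2 ^ d l := Nat.pow_le_pow_right (by norm_num) (h2.trans (hd l))
    rw [abs_of_nonneg (by positivity)]
    exact_mod_cast hb
  refine (Finset.sum_le_sum step).trans ?_
  rw [← Finset.mul_sum]
  refine mul_le_mul_of_nonneg_left ?_ (by positivity)
  have hinj : Set.InjOn (fun j : Fin n →₀ ℕ => j + i) ((hD i P).support : Set (Fin n →₀ ℕ)) :=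
    fun a _ b _ hab => add_right_cancel hab
  rw [← Finset.sum_image (f := fun k => |((coeff k P : ℤ) : ℝ)|) hinj]
  refine Finset.sum_le_sum_of_subset_of_nonneg ?_ (fun _ _ _ => abs_nonneg _)
  intro k hk
  rw [Finset.mem_image] at hk
  obtain ⟨j, hj, rfl⟩ := hk
  rw [mem_support_iff, coeff_hD] at hj
  exact mem_support_iff.mpr (right_ne_zero_of_mul hj)

end Pool.Agent.Helper42.RD
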