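import Mathlib
import Pool.Agent.Helper42.RD.Defs
import Pool.Agent.Helper42.RD.Hasse

/-!
# RD-3 (Index): Taylor expansion and calculus of the index

`coeff_taylor`: both sides are linear in `P`; for a monomial expand `∏ (X l + C (β l)) ^ (j l)`
(binomial theorem in each variable; or induction on `P` with `MvPolynomial.induction_on`).
`indGE_iff` is a reformulation of the definition with `coeff_taylor` over `ℚ` applied to the image of `P`
(`hD_map`). `IndGE.mul`: the substitution is a ring homomorphism and
`support (P * Q) ⊆ support P + support Q` (`MvPolynomial.support_mul`). `IndGE.det`: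
`Matrix.det_apply`, every product `∏ s, M (σ s) s` has index at least `∑ s, T s`.
`IndGE.hD`: `hD_hD`.
-/

set_option autoImplicit false

namespace Pool.Agent.Helper42.RD

open MvPolynomial Finset

variable {n : ℕ}

theorem coeff_taylor {R : Type*} [CommRing R] (β : Fin n → R) (i : Fin n →₀ ℕ)
    (P : MvPolynomial (Fin n) R) :
    coeff i (aeval (fun l => (X l : MvPolynomial (Fin n) R) + C (β l)) P) = eval β (hD i P) := by
  classical
  conv_lhs => rw [P.as_sum]
  rw [map_sum, coeff_sum]
  unfold hD
  rw [map_sum]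
  refine Finset.sum_congr rfl fun j _ => ?_
  rw [aeval_monomial, eval_monomial, Finsupp.prod_fintype _ _ (fun l => pow_zero _),
    Finsupp.prod_fintype _ _ (fun l => pow_zero _), algebraMap_eq, coeff_C_mul]
  have h1 : ∀ l : Fin n, ((X l : MvPolynomial (Fin n) R) + C (β l)) ^ (j l) =
      ∑ a ∈ range (j l + 1),
        (monomial (Finsupp.single l a) (((j l).choose a : R) * β l ^ (j l - a)) :
          MvPolynomial (Fin n) R) := by
    intro l
    rw [add_pow]
    refine Finset.sum_congr rfl fun a _ => ?_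
    rw [X_pow_eq_monomial, ← C_pow, mul_assoc, ← map_natCast (C : R →+* MvPolynomial (Fin n) R),
      ← C_mul, mul_comm, C_mul_monomial, mul_one, mul_comm (β l ^ (j l - a))]
  rw [Finset.prod_congr rfl fun l _ => h1 l, Finset.prod_univ_sum, coeff_sum]
  have h2 : ∀ p : Fin n → ℕ, coeff i (∏ l, (monomial (Finsupp.single l (p l))
      (((j l).choose (p l) : R) * β l ^ (j l - p l)) : MvPolynomial (Fin n) R)) =
      if Finsupp.equivFunOnFinite.symm p = i then
        ∏ l, (((j l).choose (p l) : R) * β l ^ (j l - p l)) else 0 := by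
    intro p
    have h3 : ∏ l, (monomial (Finsupp.single l (p l))
        (((j l).choose (p l) : R) * β l ^ (j l - p l)) : MvPolynomial (Fin n) R) =
        monomial (∑ l, Finsupp.single l (p l))
          (∏ l, (((j l).choose (p l) : R) * β l ^ (j l - p l))) := by
      induction (Finset.univ : Finset (Fin n)) using Finset.induction_on with
      | empty => simp
      | insert a s ha ih =>
        rw [Finset.prod_insert ha, Finset.sum_insert ha, Finset.prod_insert ha, ih,
          monomial_mul]
    rw [h3, coeff_monomial]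
    have h4 : ∑ l, Finsupp.single l (p l) = Finsupp.equivFunOnFinite.symm p := by
      ext l
      rw [Finsupp.finsetSum_apply]
      simp [Finsupp.single_apply]
    rw [h4]
  rw [Finset.sum_congr rfl fun p _ => h2 p]
  by_cases hi : ∀ l, i l ≤ j l
  · rw [Finset.sum_eq_single (i : Fin n → ℕ)]
    · have h5 : Finsupp.equivFunOnFinite.symm (i : Fin n → ℕ) = i := by
        ext l
        rfl
      rw [if_pos h5, Finset.prod_mul_distrib]
      push_cast
      simp only [Pi.sub_apply]
      ring
    · intro p _ hp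
      refine if_neg fun h => hp ?_
      rw [← h]
      rfl
    · intro h
      exfalso
      apply h
      rw [Fintype.mem_piFinset]
      intro l
      rw [Finset.mem_range]
      have := hi l
      omega
  · push Not at hi
    obtain ⟨l, hl⟩ := hi
    rw [Finset.sum_eq_zero, mul_zero]
    · have h6 : ∏ l, (j l).choose (i l) = 0 :=
        Finset.prod_eq_zero (Finset.mem_univ l) (Nat.choose_eq_zero_of_lt hl)
      rw [h6]
      simp
    · intro p hp
      refine if_neg fun h => ?_
      rw [Fintype.mem_piFinset] at hp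
      have h7 := hp l
      rw [Finset.mem_range] at h7
      have h8 : i l = p l := by rw [← h]; rfl
      omega

/-- the Taylor expansion at `β` -/
noncomputable def shift (β : Fin n → ℚ) (P : MvPolynomial (Fin n) ℤ) : MvPolynomial (Fin n) ℚ :=
  aeval (fun l => (X l : MvPolynomial (Fin n) ℚ) + C (β l)) P

theorem coeff_shift (β : Fin n → ℚ) (i : Fin n →₀ ℕ) (P : MvPolynomial (Fin n) ℤ) :
    coeff i (shift β P) = aeval β (hD i P) := by
  have h1 : shift β P = aeval (fun l => (X l : MvPolynomial (Fin n) ℚ) + C (β l))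
      (map (algebraMap ℤ ℚ) P) := by
    unfold shift
    rw [aeval_map_algebraMap]
  rw [h1, coeff_taylor, hD_map, eval_map, aeval_def]

theorem indGE_iff (w : Fin n → ℝ) (β : Fin n → ℚ) (t : ℝ) (P : MvPolynomial (Fin n) ℤ) :
    IndGE w β t P ↔ ∀ i ∈ (shift β P).support, t ≤ ∑ l, (i l : ℝ) * w l := by
  constructor
  · intro h i hi
    by_contra hlt
    rw [mem_support_iff, coeff_shift] at hi
    exact hi (h i (not_le.1 hlt))
  · intro h i hi
    by_contra h0
    rw [← coeff_shift, ← Ne, ← mem_support_iff] at h0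
    exact absurd (h i h0) (not_le.2 hi)

variable {w : Fin n → ℝ} {β : Fin n → ℚ} {t t' : ℝ} {P Q : MvPolynomial (Fin n) ℤ}

theorem IndGE.mono (h : IndGE w β t P) (ht : t' ≤ t) : IndGE w β t' P := fun i hi => h i (hi.trans_le ht)

theorem IndGE.of_nonpos (hw : ∀ l, 0 ≤ w l) (ht : t ≤ 0) : IndGE w β t P := by
  intro i hi
  have h0 : 0 ≤ ∑ l, (i l : ℝ) * w l :=
    Finset.sum_nonneg fun l _ => mul_nonneg (Nat.cast_nonneg _) (hw l)
  linarith

theorem IndGE.zero : IndGE w β t (0 : MvPolynomial (Fin n) ℤ) := by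
  intro i _
  rw [hD_zero, map_zero]

theorem IndGE.add (h : IndGE w β t P) (h' : IndGE w β t Q) : IndGE w β t (P + Q) := by
  intro i hi
  rw [hD_add, map_add, h i hi, h' i hi, add_zero]

theorem IndGE.neg (h : IndGE w β t P) : IndGE w β t (-P) := by
  intro i hi
  have h1 : -P = C (-1) * P := by
    rw [C_neg, C_1]
    ring
  rw [h1, hD_C_mul, map_mul, h i hi, mul_zero]

theorem IndGE.sum {ι : Type*} (s : Finset ι) (f : ι → MvPolynomial (Fin n) ℤ)
    (h : ∀ q ∈ s, IndGE w β t (f q)) : IndGE w β t (∑ q ∈ s, f q) := by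
  intro i hi
  rw [hD_sum, map_sum]
  exact Finset.sum_eq_zero fun q hq => h q hq i hi

theorem IndGE.mul (h : IndGE w β t P) (h' : IndGE w β t' Q) : IndGE w β (t + t') (P * Q) := by
  classical
  rw [indGE_iff] at h h' ⊢
  intro i hi
  have h1 : shift β (P * Q) = shift β P * shift β Q := by
    unfold shift
    rw [map_mul]
  rw [h1] at hi
  have h2 := support_mul _ _ hi
  rw [Finset.mem_add] at h2
  obtain ⟨a, ha, b, hb, rfl⟩ := h2
  have h3 : ∑ l, (((a + b) l : ℕ) : ℝ) * w l = ∑ l, (a l : ℝ) * w l + ∑ l, (b l : ℝ) * w l := by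
    rw [← Finset.sum_add_distrib]
    refine Finset.sum_congr rfl fun l _ => ?_
    rw [Finsupp.add_apply]
    push_cast
    ring
  rw [h3]
  exact add_le_add (h a ha) (h' b hb)

theorem IndGE.prod {ι : Type*} (s : Finset ι) (f : ι → MvPolynomial (Fin n) ℤ) (T : ι → ℝ)
    (h : ∀ q ∈ s, IndGE w β (T q) (f q)) : IndGE w β (∑ q ∈ s, T q) (∏ q ∈ s, f q) := by
  classical
  induction s using Finset.induction_on with
  | empty =>
    rw [Finset.sum_empty, Finset.prod_empty, indGE_iff]
    intro i hi
    have h1 : shift β (1 : MvPolynomial (Fin n) ℤ) = 1 := by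
      unfold shift
      rw [map_one]
    rw [h1, mem_support_iff, coeff_one] at hi
    have h2 : 0 = i := by
      by_contra h3
      exact hi (if_neg h3)
    rw [← h2]
    simp
  | insert a s ha ih =>
    rw [Finset.sum_insert ha, Finset.prod_insert ha]
    exact (h a (Finset.mem_insert_self a s)).mul (ih fun q hq => h q (Finset.mem_insert_of_mem hq))

theorem IndGE.det {k : ℕ} (M : Matrix (Fin k) (Fin k) (MvPolynomial (Fin n) ℤ)) (T : Fin k → ℝ)
    (h : ∀ r s, IndGE w β (T s) (M r s)) : IndGE w β (∑ s, T s) M.det := by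
  rw [Matrix.det_apply]
  refine IndGE.sum _ _ fun σ _ => ?_
  have h1 : IndGE w β (∑ s, T s) (∏ s, M (σ s) s) := IndGE.prod _ _ _ fun s _ => h (σ s) s
  rcases Int.units_eq_one_or (Equiv.Perm.sign σ) with h2 | h2
  · rw [h2, one_smul]
    exact h1
  · rw [h2, Units.neg_smul, one_smul]
    exact h1.neg

theorem IndGE.hD (h : IndGE w β t P) (i : Fin n →₀ ℕ) :
    IndGE w β (t - ∑ l, (i l : ℝ) * w l) (hD i P) := by
  intro i' hi'
  rw [hD_hD, map_mul, h (i' + i), mul_zero]
  have h3 : ∑ l, (((i' + i) l : ℕ) : ℝ) * w l =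
      ∑ l, (i' l : ℝ) * w l + ∑ l, (i l : ℝ) * w l := by
    rw [← Finset.sum_add_distrib]
    refine Finset.sum_congr rfl fun l _ => ?_
    rw [Finsupp.add_apply]
    push_cast
    ring
  rw [h3]
  linarith

end Pool.Agent.Helper42.RD
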