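import Mathlib
import Pool.Agent.Helper42.RD.Defs

/-!
# RD-17 (Lower): divisibility of `NN`

A term `j` of `NN` is zero unless `i0 ≤ j` (binomials); then it is divisible by
`3 ^ (∑ l, a l * (j l - i0 l))` and by `2 ^ (∑ l, b l * (d l - j l))`. With `A`, `B` the minima of the
two exponents over these `j ∈ P.support` (there is one, since `NN ≠ 0`), `3 ^ A * 2 ^ B` divides `NN`
(coprime), so `3 ^ A * 2 ^ B ≤ |NN|`. Finally
`(∑ l, a l * (j l - i0 l)) * log 3 ≥ ∑ α log (q l) (j l - i0 l) ≥ α D ∑ (j l - i0 l) / d l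
 ≥ α D (lo - ∑ i0 l / d l)` and `(∑ l, b l * (d l - j l)) * log 2 ≥ β D (m - ∑ j l / d l) ≥ β D (m - hi)`.
-/

set_option autoImplicit false

namespace Pool.Agent.Helper42.RD

open MvPolynomial Finset

private theorem term_dvd3 {m : ℕ} (i0 j : Fin m →₀ ℕ) (d : Fin m → ℕ)
    (x y : Fin m → ℤ) (c : ℤ) (a : Fin m → ℕ) (ha : ∀ l, (3 : ℤ) ^ a l ∣ x l) :
    (3 : ℤ) ^ (∑ l, a l * (j l - i0 l)) ∣
      c * ∏ l, ((((j l).choose (i0 l) : ℕ) : ℤ) * x l ^ (j l - i0 l) * y l ^ (d l - j l)) := by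
  refine Dvd.dvd.mul_left ?_ c
  rw [← Finset.prod_pow_eq_pow_sum]
  refine Finset.prod_dvd_prod_of_dvd _ _ fun l _ => ?_
  rw [pow_mul]
  exact Dvd.dvd.mul_right (Dvd.dvd.mul_left (pow_dvd_pow_of_dvd (ha l) _) _) _

private theorem term_dvd2 {m : ℕ} (i0 j : Fin m →₀ ℕ) (d : Fin m → ℕ)
    (x y : Fin m → ℤ) (c : ℤ) (b : Fin m → ℕ) (hb : ∀ l, (2 : ℤ) ^ b l ∣ y l) :
    (2 : ℤ) ^ (∑ l, b l * (d l - j l)) ∣
      c * ∏ l, ((((j l).choose (i0 l) : ℕ) : ℤ) * x l ^ (j l - i0 l) * y l ^ (d l - j l)) := by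
  refine Dvd.dvd.mul_left ?_ c
  rw [← Finset.prod_pow_eq_pow_sum]
  refine Finset.prod_dvd_prod_of_dvd _ _ fun l _ => ?_
  rw [pow_mul]
  exact Dvd.dvd.mul_left (pow_dvd_pow_of_dvd (hb l) _) _

private theorem term_zero {m : ℕ} (i0 j : Fin m →₀ ℕ) (d : Fin m → ℕ)
    (x y : Fin m → ℤ) (c : ℤ) (h : ¬ ∀ l, i0 l ≤ j l) :
    c * ∏ l, ((((j l).choose (i0 l) : ℕ) : ℤ) * x l ^ (j l - i0 l) * y l ^ (d l - j l)) = 0 := by
  push Not at h
  obtain ⟨l, hl⟩ := h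
  rw [Finset.prod_eq_zero (Finset.mem_univ l), mul_zero]
  rw [Nat.choose_eq_zero_of_lt hl, Nat.cast_zero, zero_mul, zero_mul]

theorem NN_lower {m : ℕ} (P : MvPolynomial (Fin m) ℤ) (d : Fin m → ℕ) (i0 : Fin m →₀ ℕ)
    (x y : Fin m → ℤ) (hP : ∀ l, degreeOf l P ≤ d l) (hd : ∀ l, 1 ≤ d l)
    (a b : Fin m → ℕ) (α β D lo hi : ℝ) (hα : 0 ≤ α) (hβ : 0 ≤ β) (hD0 : 0 ≤ D)
    (hsupp : ∀ j ∈ P.support, lo ≤ ∑ l, (j l : ℝ) / d l ∧ ∑ l, (j l : ℝ) / d l ≤ hi)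
    (ha : ∀ l, (3 : ℤ) ^ a l ∣ x l) (hb : ∀ l, (2 : ℤ) ^ b l ∣ y l)
    (haα : ∀ l, α * Real.log (ht (x l) (y l)) ≤ a l * Real.log 3)
    (hbβ : ∀ l, β * Real.log (ht (x l) (y l)) ≤ b l * Real.log 2)
    (hDl : ∀ l, D ≤ d l * Real.log (ht (x l) (y l))) (hN : NN P d i0 x y ≠ 0) :
    Real.exp (α * D * (lo - ∑ l, (i0 l : ℝ) / d l) + β * D * (m - hi)) ≤
      |((NN P d i0 x y : ℤ) : ℝ)| := by
  classical
  -- the terms which are not zero
  set S : Finset (Fin m →₀ ℕ) := P.support.filter (fun j => ∀ l, i0 l ≤ j l) with hS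
  have hNS : NN P d i0 x y = ∑ j ∈ S, coeff j P *
      ∏ l, ((((j l).choose (i0 l) : ℕ) : ℤ) * x l ^ (j l - i0 l) * y l ^ (d l - j l)) := by
    unfold NN
    rw [hS, Finset.sum_filter]
    refine Finset.sum_congr rfl fun j _ => ?_
    split_ifs with h
    · rfl
    · exact term_zero i0 j d x y (coeff j P) h
  have hSne : S.Nonempty := by
    rw [Finset.nonempty_iff_ne_empty]
    intro h
    rw [h, Finset.sum_empty] at hNS
    exact hN hNS
  obtain ⟨j1, hj1, hmin1⟩ := Finset.exists_min_image S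
    (fun j => ∑ l, a l * (j l - i0 l)) hSne
  obtain ⟨j2, hj2, hmin2⟩ := Finset.exists_min_image S
    (fun j => ∑ l, b l * (d l - j l)) hSne
  set A : ℕ := ∑ l, a l * (j1 l - i0 l) with hA
  set B : ℕ := ∑ l, b l * (d l - j2 l) with hB
  have h3 : (3 : ℤ) ^ A ∣ NN P d i0 x y := by
    rw [hNS]
    refine Finset.dvd_sum fun j hj => ?_
    exact (pow_dvd_pow 3 (hmin1 j hj)).trans (term_dvd3 i0 j d x y (coeff j P) a ha)
  have h2 : (2 : ℤ) ^ B ∣ NN P d i0 x y := by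
    rw [hNS]
    refine Finset.dvd_sum fun j hj => ?_
    exact (pow_dvd_pow 2 (hmin2 j hj)).trans (term_dvd2 i0 j d x y (coeff j P) b hb)
  have hcop : IsCoprime ((3 : ℤ) ^ A) ((2 : ℤ) ^ B) := by
    refine IsCoprime.pow ?_
    exact ⟨1, -1, by norm_num⟩
  have hdvd : (3 : ℤ) ^ A * 2 ^ B ∣ NN P d i0 x y := hcop.mul_dvd h3 h2
  have hle : ((3 : ℝ) ^ A * 2 ^ B) ≤ |((NN P d i0 x y : ℤ) : ℝ)| := by
    have h4 : ((3 : ℤ) ^ A * 2 ^ B) ≤ |NN P d i0 x y| :=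
      Int.le_of_dvd (abs_pos.2 hN) ((dvd_abs _ _).2 hdvd)
    have h5 : (((3 : ℤ) ^ A * 2 ^ B : ℤ) : ℝ) ≤ ((|NN P d i0 x y| : ℤ) : ℝ) := by
      exact_mod_cast h4
    push_cast at h5
    exact h5
  refine le_trans ?_ hle
  have hexp : (3 : ℝ) ^ A * 2 ^ B = Real.exp (A * Real.log 3 + B * Real.log 2) := by
    rw [Real.exp_add, Real.exp_nat_mul, Real.exp_nat_mul, Real.exp_log (by norm_num),
      Real.exp_log (by norm_num)]
  rw [hexp]
  refine Real.exp_le_exp.2 (add_le_add ?_ ?_)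
  · -- the part of 3
    have hjS := Finset.mem_filter.1 hj1
    have hsum : α * D * (lo - ∑ l, (i0 l : ℝ) / d l) ≤
        α * D * (∑ l, (j1 l : ℝ) / d l - ∑ l, (i0 l : ℝ) / d l) := by
      refine mul_le_mul_of_nonneg_left ?_ (mul_nonneg hα hD0)
      have := (hsupp j1 hjS.1).1
      linarith
    refine hsum.trans ?_
    rw [← Finset.sum_sub_distrib, Finset.mul_sum, hA, Nat.cast_sum, Finset.sum_mul]
    refine Finset.sum_le_sum fun l _ => ?_
    have hdl : (0 : ℝ) < d l := by exact_mod_cast hd l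
    have hnn : (0 : ℝ) ≤ (j1 l : ℝ) - i0 l := by
      have : (i0 l : ℝ) ≤ j1 l := by exact_mod_cast hjS.2 l
      linarith
    rw [Nat.cast_mul, Nat.cast_sub (hjS.2 l)]
    calc α * D * ((j1 l : ℝ) / d l - (i0 l : ℝ) / d l)
        = α * (D / d l) * ((j1 l : ℝ) - i0 l) := by ring
      _ ≤ α * Real.log (ht (x l) (y l)) * ((j1 l : ℝ) - i0 l) := by
          refine mul_le_mul_of_nonneg_right (mul_le_mul_of_nonneg_left ?_ hα) hnn
          rw [div_le_iff₀ hdl]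
          have := hDl l
          linarith
      _ ≤ (a l * Real.log 3) * ((j1 l : ℝ) - i0 l) :=
          mul_le_mul_of_nonneg_right (haα l) hnn
      _ = (a l : ℝ) * ((j1 l : ℝ) - i0 l) * Real.log 3 := by ring
  · -- the part of 2
    have hjS := Finset.mem_filter.1 hj2
    have hjd : ∀ l, j2 l ≤ d l := fun l =>
      (monomial_le_degreeOf l hjS.1).trans (hP l)
    have hm : (m : ℝ) = ∑ l : Fin m, (1 : ℝ) := by simp
    have hsum : β * D * (m - hi) ≤ β * D * (∑ l : Fin m, (1 : ℝ) - ∑ l, (j2 l : ℝ) / d l) := by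
      refine mul_le_mul_of_nonneg_left ?_ (mul_nonneg hβ hD0)
      have := (hsupp j2 hjS.1).2
      rw [← hm]
      linarith
    refine hsum.trans ?_
    rw [← Finset.sum_sub_distrib, Finset.mul_sum, hB, Nat.cast_sum, Finset.sum_mul]
    refine Finset.sum_le_sum fun l _ => ?_
    have hdl : (0 : ℝ) < d l := by exact_mod_cast hd l
    have hnn : (0 : ℝ) ≤ (d l : ℝ) - j2 l := by
      have : (j2 l : ℝ) ≤ d l := by exact_mod_cast hjd l
      linarith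
    rw [Nat.cast_mul, Nat.cast_sub (hjd l)]
    calc β * D * (1 - (j2 l : ℝ) / d l)
        = β * (D / d l) * ((d l : ℝ) - j2 l) := by
          field_simp
      _ ≤ β * Real.log (ht (x l) (y l)) * ((d l : ℝ) - j2 l) := by
          refine mul_le_mul_of_nonneg_right (mul_le_mul_of_nonneg_left ?_ hβ) hnn
          rw [div_le_iff₀ hdl]
          have := hDl l
          linarith
      _ ≤ (b l * Real.log 2) * ((d l : ℝ) - j2 l) :=
          mul_le_mul_of_nonneg_right (hbβ l) hnn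
      _ = (b l : ℝ) * ((d l : ℝ) - j2 l) * Real.log 2 := by ring

end Pool.Agent.Helper42.RD
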