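import Mathlib
import Pool.Agent.Helper42.RD.Defs

/-!
# RD-1 (Norm): the l^1 norm `L1` of polynomials with integer coefficients

`L1_eq_of_subset` first (sum over any finite set containing the support: coefficients outside are 0).
`L1_add_le`: sum over the union of the supports. `L1_mul_le`: `coeff_mul` is a sum over the
antidiagonal, `|coeff|` is at most the sum of the products of absolute values; sum over
`P.support + Q.support` (or write `P Q = sum_j monomial j c_j * Q` and use `L1_sum_le`,
`L1 (monomial j c * Q) = |c| L1 Q`, `coeff_monomial_mul`). `L1_det_le`: `Matrix.det_apply`, each of the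
`k!` products has norm at most `B ^ k`, the sign does not change the norm. `one_le_L1`: a nonzero
coefficient is an integer of absolute value at least one. `L1_eval_one`: `eval_eq`.
-/

set_option autoImplicit false

namespace Pool.Agent.Helper42.RD

open MvPolynomial Finset

variable {n : ℕ}

theorem L1_eq_of_subset (P : MvPolynomial (Fin n) ℤ) (s : Finset (Fin n →₀ ℕ))
    (hs : P.support ⊆ s) : L1 P = ∑ j ∈ s, |((coeff j P : ℤ) : ℝ)| := by
  unfold L1
  apply Finset.sum_subset hs
  intro j _ hj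
  rw [MvPolynomial.notMem_support_iff] at hj
  rw [hj]
  simp

theorem L1_nonneg (P : MvPolynomial (Fin n) ℤ) : 0 ≤ L1 P := by
  unfold L1
  exact Finset.sum_nonneg fun j _ => abs_nonneg _

theorem L1_neg (P : MvPolynomial (Fin n) ℤ) : L1 (-P) = L1 P := by
  rw [L1_eq_of_subset (-P) P.support (by rw [MvPolynomial.support_neg])]
  unfold L1
  apply Finset.sum_congr rfl
  intro j _
  rw [MvPolynomial.coeff_neg]
  push_cast
  rw [abs_neg]

theorem L1_add_le (P Q : MvPolynomial (Fin n) ℤ) : L1 (P + Q) ≤ L1 P + L1 Q := by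
  classical
  rw [L1_eq_of_subset (P + Q) (P.support ∪ Q.support) MvPolynomial.support_add,
    L1_eq_of_subset P (P.support ∪ Q.support) Finset.subset_union_left,
    L1_eq_of_subset Q (P.support ∪ Q.support) Finset.subset_union_right,
    ← Finset.sum_add_distrib]
  apply Finset.sum_le_sum
  intro j _
  rw [MvPolynomial.coeff_add]
  push_cast
  exact abs_add_le _ _

private lemma L1_zero : L1 (0 : MvPolynomial (Fin n) ℤ) = 0 := by
  unfold L1
  simp

theorem L1_sum_le {ι : Type*} (s : Finset ι) (f : ι → MvPolynomial (Fin n) ℤ) :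
    L1 (∑ i ∈ s, f i) ≤ ∑ i ∈ s, L1 (f i) := by
  classical
  induction s using Finset.induction_on with
  | empty => simp [L1_zero]
  | insert a s ha ih =>
    rw [Finset.sum_insert ha, Finset.sum_insert ha]
    exact (L1_add_le _ _).trans (by linarith)

private lemma L1_monomial_mul (j : Fin n →₀ ℕ) (c : ℤ) (Q : MvPolynomial (Fin n) ℤ) :
    L1 (monomial j c * Q) ≤ |(c : ℝ)| * L1 Q := by
  classical
  have hsub : (monomial j c * Q).support ⊆ Q.support.image (fun i => j + i) := by
    intro m hm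
    rw [MvPolynomial.mem_support_iff, MvPolynomial.coeff_monomial_mul'] at hm
    rw [Finset.mem_image]
    by_cases h : j ≤ m
    · rw [if_pos h] at hm
      refine ⟨m - j, ?_, add_tsub_cancel_of_le h⟩
      rw [MvPolynomial.mem_support_iff]
      intro h0
      rw [h0] at hm
      simp at hm
    · rw [if_neg h] at hm
      exact absurd rfl hm
  rw [L1_eq_of_subset _ _ hsub, Finset.sum_image (fun a _ b _ hab => add_left_cancel hab)]
  unfold L1
  rw [Finset.mul_sum]
  apply le_of_eq
  apply Finset.sum_congr rfl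
  intro i _
  rw [MvPolynomial.coeff_monomial_mul]
  push_cast
  rw [abs_mul]

theorem L1_mul_le (P Q : MvPolynomial (Fin n) ℤ) : L1 (P * Q) ≤ L1 P * L1 Q := by
  have h1 : P * Q = ∑ j ∈ P.support, monomial j (coeff j P) * Q := by
    rw [← Finset.sum_mul, ← MvPolynomial.as_sum]
  rw [h1]
  refine (L1_sum_le _ _).trans ?_
  unfold L1
  rw [Finset.sum_mul]
  apply Finset.sum_le_sum
  intro j _
  exact L1_monomial_mul j (coeff j P) Q

private lemma L1_C (c : ℤ) : L1 (C c : MvPolynomial (Fin n) ℤ) = |(c : ℝ)| := by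
  classical
  have hsub : (C c : MvPolynomial (Fin n) ℤ).support ⊆ {0} := by
    intro m hm
    rw [MvPolynomial.mem_support_iff, MvPolynomial.coeff_C] at hm
    rw [Finset.mem_singleton]
    by_contra h
    rw [if_neg (fun h' => h h'.symm)] at hm
    exact hm rfl
  rw [L1_eq_of_subset _ _ hsub, Finset.sum_singleton, MvPolynomial.coeff_C, if_pos rfl]

private lemma L1_one : L1 (1 : MvPolynomial (Fin n) ℤ) = 1 := by
  have h := L1_C (n := n) 1
  rw [MvPolynomial.C_1] at h
  rw [h]
  simp

theorem L1_prod_le {ι : Type*} (s : Finset ι) (f : ι → MvPolynomial (Fin n) ℤ) :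
    L1 (∏ i ∈ s, f i) ≤ ∏ i ∈ s, L1 (f i) := by
  classical
  induction s using Finset.induction_on with
  | empty => simp [L1_one]
  | insert a s ha ih =>
    rw [Finset.prod_insert ha, Finset.prod_insert ha]
    exact (L1_mul_le _ _).trans (mul_le_mul_of_nonneg_left ih (L1_nonneg _))

theorem abs_coeff_le (P : MvPolynomial (Fin n) ℤ) (j : Fin n →₀ ℕ) :
    |((coeff j P : ℤ) : ℝ)| ≤ L1 P := by
  classical
  by_cases hj : j ∈ P.support
  · unfold L1
    exact Finset.single_le_sum (f := fun j => |((coeff j P : ℤ) : ℝ)|)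
      (fun i _ => abs_nonneg _) hj
  · rw [MvPolynomial.notMem_support_iff] at hj
    rw [hj]
    simpa using L1_nonneg P

theorem one_le_L1 {P : MvPolynomial (Fin n) ℤ} (hP : P ≠ 0) : 1 ≤ L1 P := by
  obtain ⟨j, hj⟩ := MvPolynomial.exists_coeff_ne_zero hP
  refine le_trans ?_ (abs_coeff_le P j)
  have h1 : (1 : ℤ) ≤ |coeff j P| := Int.one_le_abs hj
  have h2 : ((1 : ℤ) : ℝ) ≤ ((|coeff j P| : ℤ) : ℝ) := by exact_mod_cast h1
  rw [Int.cast_abs] at h2
  simpa using h2

theorem L1_eval_one (P : MvPolynomial (Fin n) ℤ) :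
    |((eval (fun _ => (1 : ℤ)) P : ℤ) : ℝ)| ≤ L1 P := by
  have h1 : eval (fun _ => (1 : ℤ)) P = ∑ j ∈ P.support, coeff j P := by
    rw [MvPolynomial.eval_eq]
    apply Finset.sum_congr rfl
    intro j _
    simp
  rw [h1]
  unfold L1
  push_cast
  exact Finset.abs_sum_le_sum_abs _ _

theorem L1_det_le {k : ℕ} (M : Matrix (Fin k) (Fin k) (MvPolynomial (Fin n) ℤ)) (B : ℝ)
    (hM : ∀ r s, L1 (M r s) ≤ B) : L1 M.det ≤ (k.factorial : ℝ) * B ^ k := by
  rw [Matrix.det_apply]
  refine (L1_sum_le _ _).trans ?_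
  have h1 : ∀ σ ∈ (Finset.univ : Finset (Equiv.Perm (Fin k))),
      L1 (Equiv.Perm.sign σ • ∏ i, M (σ i) i) ≤ B ^ k := by
    intro σ _
    have h2 : L1 (Equiv.Perm.sign σ • ∏ i, M (σ i) i) = L1 (∏ i, M (σ i) i) := by
      rcases Int.units_eq_one_or (Equiv.Perm.sign σ) with h | h
      · rw [h, one_smul]
      · rw [h]
        have : ((-1 : ℤˣ) • ∏ i, M (σ i) i) = -∏ i, M (σ i) i := by
          rw [Units.smul_def]
          simp
        rw [this, L1_neg]
    rw [h2]
    refine (L1_prod_le _ _).trans ?_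
    have h3 : ∏ i : Fin k, L1 (M (σ i) i) ≤ ∏ _i : Fin k, B :=
      Finset.prod_le_prod (fun i _ => L1_nonneg _) (fun i _ => hM _ _)
    simpa using h3
  refine (Finset.sum_le_sum h1).trans ?_
  rw [Finset.sum_const, Finset.card_univ, Fintype.card_perm, Fintype.card_fin, nsmul_eq_mul]

theorem degreeOf_det_le {k : ℕ} (M : Matrix (Fin k) (Fin k) (MvPolynomial (Fin n) ℤ)) (D : ℕ)
    (l : Fin n) (hM : ∀ r s, degreeOf l (M r s) ≤ D) : degreeOf l M.det ≤ k * D := by
  rw [Matrix.det_apply]
  refine (MvPolynomial.degreeOf_sum_le l _ _).trans ?_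
  apply Finset.sup_le
  intro σ _
  have h2 : degreeOf l (Equiv.Perm.sign σ • ∏ i, M (σ i) i) = degreeOf l (∏ i, M (σ i) i) := by
    rcases Int.units_eq_one_or (Equiv.Perm.sign σ) with h | h
    · rw [h, one_smul]
    · rw [h]
      have : ((-1 : ℤˣ) • ∏ i, M (σ i) i) = -∏ i, M (σ i) i := by
        rw [Units.smul_def]
        simp
      rw [this, MvPolynomial.degreeOf_neg]
  rw [h2]
  refine (MvPolynomial.degreeOf_prod_le l _ _).trans ?_
  refine (Finset.sum_le_sum (fun i _ => hM (σ i) i)).trans ?_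
  simp

end Pool.Agent.Helper42.RD
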