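import Mathlib
import Pool.Agent.Helper42.RD.Defs

/-!
# RD-12 (Comb): a sum of truncated linear terms

If `(k - 1) / d ≤ Θ` all terms are nonnegative without truncation and the sum is at least
`k Θ - k (k - 1) / (2 d) ≥ k Θ / 2`. If `Θ < (k - 1) / d` (so `k ≥ 2`) let `N = ⌊Θ d⌋ + 1 ≤ k - 1` be
the number of `j` with `j ≤ Θ d`; these terms give `N Θ - N (N - 1) / (2 d) ≥ N Θ / 2 ≥ Θ ^ 2 d / 2`
and `d ≥ k - 1 ≥ k / 2`.
-/

set_option autoImplicit false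

namespace Pool.Agent.Helper42.RD

open MvPolynomial Finset

private theorem sum_lin_ge (N d : ℕ) (hN : 1 ≤ N) (hd : 1 ≤ d) (Θ : ℝ)
    (h : ((N : ℝ) - 1) / d ≤ Θ) :
    (N : ℝ) * Θ / 2 ≤ ∑ j ∈ range N, (Θ - (j : ℝ) / d) := by
  have hd0 : (0 : ℝ) < d := by exact_mod_cast hd
  have hN0 : (1 : ℝ) ≤ N := by exact_mod_cast hN
  have h1 : ∑ j ∈ range N, (Θ - (j : ℝ) / d) = N * Θ - N * ((N - 1) / d) / 2 := by
    have h2 : ∀ M : ℕ, ∑ j ∈ range M, (Θ - (j : ℝ) / d) = M * Θ - M * ((M - 1) / d) / 2 := by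
      intro M
      induction M with
      | zero => simp
      | succ M ih =>
        rw [Finset.sum_range_succ, ih]
        push_cast
        field_simp
        ring
    exact h2 N
  rw [h1]
  have h3 : (N : ℝ) * ((N - 1) / d) ≤ N * Θ := mul_le_mul_of_nonneg_left h (by linarith)
  linarith

theorem sum_max_ge (k d : ℕ) (hk : 1 ≤ k) (hd : 1 ≤ d) (hkd : k ≤ d + 1) (Θ : ℝ) (hΘ : 0 ≤ Θ) :
    (k : ℝ) * min (Θ / 2) (Θ ^ 2 / 4) ≤ ∑ j : Fin k, max 0 (Θ - ((j : ℕ) : ℝ) / d) := by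
  have hd0 : (0 : ℝ) < d := by exact_mod_cast hd
  have hk0 : (1 : ℝ) ≤ k := by exact_mod_cast hk
  rw [Fin.sum_univ_eq_sum_range (fun j : ℕ => max 0 (Θ - (j : ℝ) / d)) k]
  rcases le_or_gt (((k : ℝ) - 1) / d) Θ with h | h
  · have h1 := sum_lin_ge k d hk hd Θ h
    have h2 : ∑ j ∈ range k, (Θ - (j : ℝ) / d) ≤ ∑ j ∈ range k, max 0 (Θ - (j : ℝ) / d) :=
      Finset.sum_le_sum fun j _ => le_max_right _ _
    have h3 : (k : ℝ) * min (Θ / 2) (Θ ^ 2 / 4) ≤ k * (Θ / 2) :=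
      mul_le_mul_of_nonneg_left (min_le_left _ _) (by linarith)
    linarith
  · have hN1 : (⌊Θ * d⌋₊ : ℝ) ≤ Θ * d := Nat.floor_le (by positivity)
    have hN2 : Θ * d < (⌊Θ * d⌋₊ : ℝ) + 1 := Nat.lt_floor_add_one _
    have h4 : Θ * d < (k : ℝ) - 1 := by rwa [lt_div_iff₀ hd0] at h
    have h5 : ⌊Θ * d⌋₊ + 1 < k := by
      have h6 : (⌊Θ * d⌋₊ : ℝ) + 1 < k := by linarith
      exact_mod_cast h6
    have h7 := sum_lin_ge (⌊Θ * d⌋₊ + 1) d (by omega) hd Θ (by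
      rw [div_le_iff₀ hd0]
      push_cast
      linarith)
    have h8 : ∑ j ∈ range (⌊Θ * d⌋₊ + 1), (Θ - (j : ℝ) / d) ≤
        ∑ j ∈ range k, max 0 (Θ - (j : ℝ) / d) := by
      calc ∑ j ∈ range (⌊Θ * d⌋₊ + 1), (Θ - (j : ℝ) / d)
          ≤ ∑ j ∈ range (⌊Θ * d⌋₊ + 1), max 0 (Θ - (j : ℝ) / d) :=
            Finset.sum_le_sum fun j _ => le_max_right _ _
        _ ≤ _ := Finset.sum_le_sum_of_subset_of_nonneg
            (Finset.range_subset_range.2 (by omega)) fun j _ _ => le_max_left _ _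
    push_cast at h7
    have h9 : Θ * d * Θ ≤ ((⌊Θ * d⌋₊ : ℝ) + 1) * Θ :=
      mul_le_mul_of_nonneg_right hN2.le hΘ
    have h10 : (k : ℝ) / 2 ≤ d := by
      have h11 : (2 : ℝ) ≤ k := by
        have : 2 ≤ k := by omega
        exact_mod_cast this
      have h12 : (k : ℝ) ≤ d + 1 := by exact_mod_cast hkd
      linarith
    have h13 : (k : ℝ) * min (Θ / 2) (Θ ^ 2 / 4) ≤ k * (Θ ^ 2 / 4) :=
      mul_le_mul_of_nonneg_left (min_le_right _ _) (by linarith)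
    have h14 : (k : ℝ) / 2 * Θ ^ 2 ≤ d * Θ ^ 2 := mul_le_mul_of_nonneg_right h10 (sq_nonneg _)
    nlinarith

end Pool.Agent.Helper42.RD
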