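import Mathlib
import Pool.Agent.Helper42.RD.Defs
import Pool.Agent.Helper42.RD.Hasse

/-!
# RD-5 (Kron): Kronecker substitution and the chain rule

`kronecker`: let `N` be larger than all exponents occurring in the `φ s`, and
`κ = aeval (fun l => X ^ (N ^ l))`. Then `κ (monomial j c) = c X ^ (∑ l, j l * N ^ l)` and
`j ↦ ∑ l, j l * N ^ l` is injective on the exponents `< N` (digits in base `N`:
`Nat.ofDigits_inj_of_len_eq`, or induction on `n`), so `κ` is injective on the polynomials with
all exponents `< N`, in particular on the span of the `φ s`.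

`chain`: `derivative (κ Q) = ∑ l, κ (pderiv l Q) * derivative (κ (X l))` for every `ℚ`-algebra
homomorphism `κ` to `ℚ[X]` (both sides are derivations in `Q` along `κ`; `MvPolynomial.induction_on`).
Then induction on `r`: `(r + 1) • hasseDeriv (r + 1) f = derivative (hasseDeriv r f)`
(`Polynomial.hasseDeriv_comp`, `Polynomial.hasseDeriv_one`) and
`pderiv l (hD i φ) = (i l + 1) * hD (i + single l 1) φ` (`pderiv_hD`), so if
`hasseDeriv r (κ φ) = ∑ c i * κ (hD i φ)` then
`(r+1) hasseDeriv (r+1) (κ φ) = ∑ c i' * κ (hD i φ) + ∑ c i * ∑ l, (i l + 1) κ (hD (i + e_l) φ) (κ X_l)'`.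
It may be convenient to carry `c` as a finitely supported function, or to prove the statement
`∃ (ι : Type) (_ : Fintype ι) (e : ι → Fin n →₀ ℕ) (c : ι → ℚ[X])` first.
-/

set_option autoImplicit false

namespace Pool.Agent.Helper42.RD

open MvPolynomial Finset

private theorem digits_inj (N : ℕ) : ∀ (n : ℕ) (j j' : Fin n → ℕ), (∀ l, j l < N) →
    (∀ l, j' l < N) → ∑ l, j l * N ^ (l : ℕ) = ∑ l, j' l * N ^ (l : ℕ) → j = j' := by
  intro n
  induction n with
  | zero => intro j j' _ _ _; exact Subsingleton.elim _ _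
  | succ n ih =>
    intro j j' hj hj' h
    have key : ∀ i : Fin (n + 1) → ℕ, ∑ l, i l * N ^ (l : ℕ) =
        i 0 + N * ∑ l : Fin n, i l.succ * N ^ (l : ℕ) := by
      intro i
      rw [Fin.sum_univ_succ, Finset.mul_sum]
      congr 1
      · simp
      · refine Finset.sum_congr rfl fun l _ => ?_
        rw [Fin.val_succ, pow_succ]
        ring
    rw [key j, key j'] at h
    have h0 : j 0 = j' 0 := by
      have h1 : (j 0 + N * ∑ l : Fin n, j l.succ * N ^ (l : ℕ)) % N =
          (j' 0 + N * ∑ l : Fin n, j' l.succ * N ^ (l : ℕ)) % N := by rw [h]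
      rwa [Nat.add_mul_mod_self_left, Nat.add_mul_mod_self_left, Nat.mod_eq_of_lt (hj 0),
        Nat.mod_eq_of_lt (hj' 0)] at h1
    have hN : 0 < N := lt_of_le_of_lt (Nat.zero_le _) (hj 0)
    rw [h0] at h
    have h2 := Nat.eq_of_mul_eq_mul_left hN (Nat.add_left_cancel h)
    have h3 := ih (fun l => j l.succ) (fun l => j' l.succ) (fun l => hj _) (fun l => hj' _) h2
    funext l
    refine Fin.cases h0 (fun l => ?_) l
    exact congrFun h3 l

private noncomputable def kap (n N : ℕ) : MvPolynomial (Fin n) ℚ →ₐ[ℚ] Polynomial ℚ :=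
  aeval fun l => (Polynomial.X : Polynomial ℚ) ^ (N ^ (l : ℕ))

private theorem kap_apply (n N : ℕ) (P : MvPolynomial (Fin n) ℚ) :
    kap n N P = ∑ j ∈ P.support, Polynomial.monomial (∑ l, j l * N ^ (l : ℕ)) (coeff j P) := by
  rw [kap, aeval_def, eval₂_eq']
  refine Finset.sum_congr rfl fun j _ => ?_
  rw [← Polynomial.C_mul_X_pow_eq_monomial, ← Finset.prod_pow_eq_pow_sum]
  congr 1
  refine Finset.prod_congr rfl fun l _ => ?_
  rw [← pow_mul, mul_comm]

theorem kronecker {n k : ℕ} (φ : Fin k → MvPolynomial (Fin n) ℚ) (h : LinearIndependent ℚ φ) :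
    ∃ κ : MvPolynomial (Fin n) ℚ →ₐ[ℚ] Polynomial ℚ, LinearIndependent ℚ (fun s => κ (φ s)) := by
  classical
  set M : ℕ := Finset.univ.sup fun s => (φ s).totalDegree with hM
  refine ⟨kap n (M + 1), ?_⟩
  have hinj : Set.InjOn (kap n (M + 1)).toLinearMap
      (Submodule.span ℚ (Set.range φ) : Set (MvPolynomial (Fin n) ℚ)) := by
    have hsub : Submodule.span ℚ (Set.range φ) ≤ restrictDegree (Fin n) ℚ M := by
      rw [Submodule.span_le]
      rintro _ ⟨s, rfl⟩
      rw [SetLike.mem_coe, mem_restrictDegree]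
      intro j hj i
      calc j i ≤ j.degree := Finsupp.le_degree i j
        _ ≤ (φ s).totalDegree := le_totalDegree hj
        _ ≤ M := Finset.le_sup (f := fun s => (φ s).totalDegree) (Finset.mem_univ s)
    have hz : ∀ P ∈ Submodule.span ℚ (Set.range φ), (kap n (M + 1)).toLinearMap P = 0 → P = 0 := by
      intro P hP h0
      have hP' := (mem_restrictDegree (Fin n) P M).1 (hsub hP)
      by_contra hne
      obtain ⟨j, hj⟩ := support_nonempty.2 hne
      have hc : coeff j P = (kap n (M + 1) P).coeff (∑ l, j l * (M + 1) ^ (l : ℕ)) := by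
        rw [kap_apply, Polynomial.finsetSum_coeff, Finset.sum_eq_single j]
        · rw [Polynomial.coeff_monomial, if_pos rfl]
        · intro j' hj' hne'
          rw [Polynomial.coeff_monomial, if_neg]
          intro he
          apply hne'
          have := digits_inj (M + 1) n (fun l => j' l) (fun l => j l)
            (fun l => Nat.lt_succ_of_le (hP' j' hj' l)) (fun l => Nat.lt_succ_of_le (hP' j hj l)) he
          ext l
          exact congrFun this l
        · intro hn
          exact absurd hj hn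
      have h0' : kap n (M + 1) P = 0 := h0
      rw [h0', Polynomial.coeff_zero] at hc
      exact (mem_support_iff.1 hj) hc
    intro P hP Q hQ hPQ
    have h1 : P - Q ∈ Submodule.span ℚ (Set.range φ) := Submodule.sub_mem _ hP hQ
    have h2 := hz _ h1 (by rw [map_sub, hPQ, sub_self])
    exact sub_eq_zero.1 h2
  have hfin := h.map_injOn (kap n (M + 1)).toLinearMap hinj
  have heq : (fun s => kap n (M + 1) (φ s)) = (kap n (M + 1)).toLinearMap ∘ φ := rfl
  rw [heq]
  exact hfin

private theorem derivative_kap {n : ℕ} (κ : MvPolynomial (Fin n) ℚ →ₐ[ℚ] Polynomial ℚ)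
    (Q : MvPolynomial (Fin n) ℚ) : Polynomial.derivative (κ Q) =
      ∑ l, κ (pderiv l Q) * Polynomial.derivative (κ (X l)) := by
  induction Q using MvPolynomial.induction_on with
  | C a =>
    rw [← algebraMap_eq, AlgHom.commutes, algebraMap_eq]
    simp
  | add p q hp hq =>
    rw [map_add, Polynomial.derivative_add, hp, hq, ← Finset.sum_add_distrib]
    refine Finset.sum_congr rfl fun l _ => ?_
    rw [map_add, map_add]
    ring
  | mul_X p i hp =>
    rw [map_mul, Polynomial.derivative_mul, hp]
    have h1 : ∀ l, κ (pderiv l (p * X i)) * Polynomial.derivative (κ (X l)) =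
        κ (pderiv l p) * Polynomial.derivative (κ (X l)) * κ (X i) +
          κ p * (if l = i then Polynomial.derivative (κ (X l)) else 0) := by
      intro l
      rw [pderiv_mul, pderiv_X, map_add, map_mul, map_mul]
      by_cases hli : l = i
      · subst hli
        rw [Pi.single_eq_same, map_one, if_pos rfl]
        ring
      · rw [Pi.single_eq_of_ne (fun h => hli h.symm), map_zero, if_neg hli]
        ring
    rw [Finset.sum_congr rfl fun l _ => h1 l, Finset.sum_add_distrib, Finset.sum_mul,
      ← Finset.mul_sum, Finset.sum_ite_eq' Finset.univ i, if_pos (Finset.mem_univ i)]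

private theorem chain_aux {n : ℕ} (κ : MvPolynomial (Fin n) ℚ →ₐ[ℚ] Polynomial ℚ) (r : ℕ) :
    ∃ (ι : Type) (_ : Fintype ι) (e : ι → Fin n →₀ ℕ) (c : ι → Polynomial ℚ),
      (∀ x, ∑ l, e x l ≤ r) ∧ ∀ φ : MvPolynomial (Fin n) ℚ,
        Polynomial.hasseDeriv r (κ φ) = ∑ x, c x * κ (hD (e x) φ) := by
  induction r with
  | zero =>
    refine ⟨Unit, inferInstance, fun _ => 0, fun _ => 1, ?_, ?_⟩
    · intro x
      simp
    · intro φ
      rw [Polynomial.hasseDeriv_zero']
      simp [hD_index_zero]
  | succ r ih =>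
    obtain ⟨ι, hι, e, c, he, hc⟩ := ih
    refine ⟨ι ⊕ (ι × Fin n), inferInstance,
      Sum.elim e (fun z => e z.1 + Finsupp.single z.2 1),
      Sum.elim (fun x => Polynomial.C ((r + 1 : ℚ)⁻¹) * Polynomial.derivative (c x))
        (fun z => Polynomial.C ((r + 1 : ℚ)⁻¹) * (c z.1 * (κ (C ((e z.1 z.2 + 1 : ℕ) : ℚ)) *
          Polynomial.derivative (κ (X z.2))))), ?_, ?_⟩
    · rintro (x | ⟨x, l⟩)
      · exact (he x).trans (Nat.le_succ r)
      · have h1 : ∑ l', (Finsupp.single l 1 : Fin n →₀ ℕ) l' = 1 := by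
          rw [Finset.sum_eq_single l]
          · rw [Finsupp.single_eq_same]
          · intro b _ hb
            rw [Finsupp.single_eq_of_ne hb]
          · intro h
            exact absurd (Finset.mem_univ l) h
        simp only [Sum.elim_inr, Finsupp.add_apply, Finset.sum_add_distrib, h1]
        exact Nat.add_le_add_right (he x) 1
    · intro φ
      have hr : ((r : ℚ) + 1) ≠ 0 := by positivity
      have h0 : Polynomial.derivative (Polynomial.hasseDeriv r (κ φ)) =
          Polynomial.C ((r : ℚ) + 1) * Polynomial.hasseDeriv (r + 1) (κ φ) := by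
        have := congrArg (fun g => g (κ φ)) (Polynomial.hasseDeriv_comp (R := ℚ) 1 r)
        simp only [LinearMap.comp_apply, LinearMap.smul_apply, Polynomial.hasseDeriv_one,
          Nat.choose_one_right] at this
        rw [this, Nat.add_comm 1 r, nsmul_eq_mul]
        simp
      have h1 : Polynomial.hasseDeriv (r + 1) (κ φ) = Polynomial.C ((r + 1 : ℚ)⁻¹) *
          Polynomial.derivative (Polynomial.hasseDeriv r (κ φ)) := by
        rw [h0, ← mul_assoc, ← Polynomial.C_mul, inv_mul_cancel₀ hr, Polynomial.C_1, one_mul]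
      rw [h1, hc φ, Polynomial.derivative_sum, Fintype.sum_sum_type, Fintype.sum_prod_type,
        Finset.mul_sum, ← Finset.sum_add_distrib]
      refine Finset.sum_congr rfl fun x _ => ?_
      simp only [Sum.elim_inl, Sum.elim_inr]
      rw [Polynomial.derivative_mul, derivative_kap κ (hD (e x) φ), mul_add, Finset.mul_sum,
        Finset.mul_sum, mul_assoc]
      congr 1
      refine Finset.sum_congr rfl fun l _ => ?_
      rw [pderiv_hD, map_mul]
      ring

theorem chain {n : ℕ} (κ : MvPolynomial (Fin n) ℚ →ₐ[ℚ] Polynomial ℚ) (r : ℕ) :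
    ∃ (S : Finset (Fin n →₀ ℕ)) (c : (Fin n →₀ ℕ) → Polynomial ℚ), (∀ i ∈ S, ∑ l, i l ≤ r) ∧
      ∀ φ : MvPolynomial (Fin n) ℚ,
        Polynomial.hasseDeriv r (κ φ) = ∑ i ∈ S, c i * κ (hD i φ) := by
  classical
  obtain ⟨ι, hι, e, c, he, hc⟩ := chain_aux κ r
  refine ⟨Finset.univ.image e, fun i => ∑ x ∈ Finset.univ.filter (fun x => e x = i), c x, ?_, ?_⟩
  · intro i hi
    obtain ⟨x, _, rfl⟩ := Finset.mem_image.1 hi
    exact he x
  · intro φ
    rw [hc φ, ← Finset.sum_fiberwise_of_maps_to
      (fun x (_ : x ∈ (Finset.univ : Finset ι)) => Finset.mem_image_of_mem e (Finset.mem_univ x))]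
    refine Finset.sum_congr rfl fun i _ => ?_
    rw [Finset.sum_mul]
    refine Finset.sum_congr rfl fun x hx => ?_
    rw [(Finset.mem_filter.1 hx).2]

end Pool.Agent.Helper42.RD
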