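import Mathlib
import Pool.Agent.Helper42.RD.Defs

/-!
# RD-4 (Wron): the Wronskian of linearly independent polynomials in one variable

Proof. (1) A `k`-dimensional space of polynomials has a basis `g` with distinct degrees (induction on
`k`: take an element of the span of largest degree and subtract multiples of it from the others; or:
choose for every degree occurring in the span an element, the degrees occurring are exactly `k` many).
The matrix of `f` is the matrix of `g` times an invertible constant matrix, so it is enough to
treat `g`, with leading coefficients 1 and degrees `n 0 < n 1 < ...`.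
(2) The coefficient of `X ^ (n 0 + ... + n (k-1) - k (k-1) / 2)` in
`det (hasseDeriv r (g s))` is `det ((n s).choose r)` (each entry has degree at most `n s - r` with
this coefficient; where `n s < r` the entry is zero and so is the binomial), and
`det ((n s).choose r) = (∏_{s < t} (n t - n s)) / ∏ r!` is not zero (Vandermonde:
`Matrix.det_vandermonde`, `Matrix.det_eval_matrixOfPolynomials_eq_det_vandermonde` with the
polynomials `descPochhammer`, `Polynomial.ascPochhammer`, or column operations).
Another way: expansions at `0` with distinct orders. Any proof is welcome.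
-/

set_option autoImplicit false

namespace Pool.Agent.Helper42.RD

open MvPolynomial Finset

private theorem h45_coeff_prod {ι : Type*} (s : Finset ι) (g : ι → Polynomial ℚ) (n : ι → ℕ)
    (h : ∀ i, (g i).natDegree ≤ n i) :
    (∏ i ∈ s, g i).coeff (∑ i ∈ s, n i) = ∏ i ∈ s, (g i).coeff (n i) ∧
      (∏ i ∈ s, g i).natDegree ≤ ∑ i ∈ s, n i := by
  classical
  induction s using Finset.induction_on with
  | empty => simp
  | insert a s ha ih =>
    rw [Finset.prod_insert ha, Finset.sum_insert ha, Finset.prod_insert ha]
    refine ⟨?_, Polynomial.natDegree_mul_le.trans (add_le_add (h a) ih.2)⟩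
    rw [Polynomial.coeff_mul_add_eq_of_natDegree_le (h a) ih.2, ih.1]

private theorem h45_coeff_det {k : ℕ} (M : Matrix (Fin k) (Fin k) (Polynomial ℚ)) (n : Fin k → ℕ)
    (h : ∀ r s, (M r s).natDegree ≤ n s) :
    M.det.coeff (∑ s, n s) = (Matrix.of fun r s => (M r s).coeff (n s)).det := by
  rw [Matrix.det_apply, Matrix.det_apply, Polynomial.finsetSum_coeff]
  refine Finset.sum_congr rfl fun σ _ => ?_
  have h1 := (h45_coeff_prod Finset.univ (fun s => M (σ s) s) n fun s => h (σ s) s).1
  rcases Int.units_eq_one_or (Equiv.Perm.sign σ) with h2 | h2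
  · rw [h2, one_smul, one_smul, h1]
    rfl
  · rw [h2, Units.neg_smul, Units.neg_smul, one_smul, one_smul, Polynomial.coeff_neg, h1]
    rfl

/-- the determinant of binomial coefficients -/
private theorem h45_choose {k : ℕ} (n : Fin k → ℕ) (hn : Function.Injective n) :
    (Matrix.of fun r s : Fin k => (((n s).choose (r : ℕ) : ℕ) : ℚ)).det ≠ 0 := by
  intro h0
  have h1 := Matrix.det_eval_matrixOfPolynomials_eq_det_vandermonde (fun s : Fin k => (n s : ℚ))
    (fun r : Fin k => descPochhammer ℚ (r : ℕ)) (fun r => descPochhammer_natDegree ℚ (r : ℕ))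
    (fun r => monic_descPochhammer ℚ (r : ℕ))
  have h2 : (Matrix.vandermonde fun s : Fin k => (n s : ℚ)).det ≠ 0 := by
    rw [Matrix.det_vandermonde_ne_zero_iff]
    intro a b hab
    have hab' : (n a : ℚ) = (n b : ℚ) := hab
    exact hn (by exact_mod_cast hab')
  apply h2
  rw [h1, ← Matrix.det_transpose]
  have h3 : (Matrix.of fun i j : Fin k =>
      (descPochhammer ℚ (j : ℕ)).eval ((n i : ℕ) : ℚ)).transpose =
      Matrix.of fun r s : Fin k => ((r : ℕ).factorial : ℚ) *
        (Matrix.of fun r s : Fin k => (((n s).choose (r : ℕ) : ℕ) : ℚ)) r s := by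
    ext r s
    rw [Matrix.transpose_apply, Matrix.of_apply, Matrix.of_apply, Matrix.of_apply,
      descPochhammer_eval_eq_descFactorial, Nat.descFactorial_eq_factorial_mul_choose]
    push_cast
    rfl
  rw [h3, Matrix.det_mul_column, h0, mul_zero]

private theorem h45_distinct {k : ℕ} (f : Fin k → Polynomial ℚ) (h0 : ∀ s, f s ≠ 0)
    (hinj : Function.Injective fun s => (f s).natDegree) :
    (Matrix.of fun r s : Fin k => Polynomial.hasseDeriv (r : ℕ) (f s)).det ≠ 0 := by
  intro hdet
  set M : Matrix (Fin k) (Fin k) (Polynomial ℚ) :=
    Matrix.of fun r s : Fin k => Polynomial.hasseDeriv (r : ℕ) (f s) with hM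
  have h1 : (Matrix.of fun r s : Fin k => (Polynomial.X : Polynomial ℚ) ^ (r : ℕ) * M r s).det =
      0 := by
    rw [Matrix.det_mul_column (fun r : Fin k => (Polynomial.X : Polynomial ℚ) ^ (r : ℕ)) M, hdet,
      mul_zero]
  have h2 := h45_coeff_det
    (Matrix.of fun r s : Fin k => (Polynomial.X : Polynomial ℚ) ^ (r : ℕ) * M r s)
    (fun s => (f s).natDegree) ?_
  · rw [h1, Polynomial.coeff_zero] at h2
    have h3 : (Matrix.of fun r s : Fin k => ((Matrix.of fun r s : Fin k =>
        (Polynomial.X : Polynomial ℚ) ^ (r : ℕ) * M r s) r s).coeff (f s).natDegree) =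
        Matrix.of fun r s : Fin k => (f s).leadingCoeff *
          (Matrix.of fun r s : Fin k => ((((f s).natDegree).choose (r : ℕ) : ℕ) : ℚ)) r s := by
      ext r s
      rw [Matrix.of_apply, Matrix.of_apply, Matrix.of_apply, Matrix.of_apply,
        Polynomial.coeff_X_pow_mul']
      by_cases hr : (r : ℕ) ≤ (f s).natDegree
      · rw [if_pos hr, hM, Matrix.of_apply, Polynomial.hasseDeriv_coeff, Nat.sub_add_cancel hr,
          mul_comm]
        rfl
      · rw [if_neg hr, Nat.choose_eq_zero_of_lt (not_le.1 hr)]
        simp
    rw [h3, Matrix.det_mul_row] at h2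
    have h4 := h45_choose (fun s => (f s).natDegree) hinj
    rcases mul_eq_zero.1 h2.symm with h5 | h5
    · rw [Finset.prod_eq_zero_iff] at h5
      obtain ⟨s, -, hs⟩ := h5
      exact h0 s (Polynomial.leadingCoeff_eq_zero.1 hs)
    · exact h4 h5
  · intro r s
    rw [Matrix.of_apply, hM, Matrix.of_apply]
    by_cases hr : (f s).natDegree < (r : ℕ)
    · rw [Polynomial.hasseDeriv_eq_zero_of_lt_natDegree _ _ hr, mul_zero]
      simp
    · refine Polynomial.natDegree_mul_le.trans ?_
      have h5 := Polynomial.natDegree_hasseDeriv_le (f s) (r : ℕ)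
      rw [Polynomial.natDegree_X_pow]
      omega

theorem wronskian_ne_zero {k : ℕ} (f : Fin k → Polynomial ℚ) (h : LinearIndependent ℚ f) :
    (Matrix.of fun r s : Fin k => Polynomial.hasseDeriv (r : ℕ) (f s)).det ≠ 0 := by
  classical
  induction hN : ∑ s, (f s).natDegree using Nat.strong_induction_on generalizing f with
  | _ N ih =>
    by_cases hinj : Function.Injective fun s => (f s).natDegree
    · exact h45_distinct f (fun s => h.ne_zero s) hinj
    · unfold Function.Injective at hinj
      push Not at hinj
      obtain ⟨s, t, hst, hne⟩ := hinj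
      have hs0 := h.ne_zero s
      have ht0 := h.ne_zero t
      have hlt : (f t).leadingCoeff ≠ 0 := Polynomial.leadingCoeff_ne_zero.2 ht0
      set c : ℚ := (f s).leadingCoeff / (f t).leadingCoeff with hc
      have hc0 : c ≠ 0 := div_ne_zero (Polynomial.leadingCoeff_ne_zero.2 hs0) hlt
      let cc : Fin k → ℚ := fun i => if i = s then -c else 0
      let g : Fin k → Polynomial ℚ := f + (cc · • f t)
      have hg : ∀ i, g i = if i = s then f s - Polynomial.C c * f t else f i := by
        intro i
        change f i + (if i = s then -c else 0) • f t = _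
        by_cases hi : i = s
        · rw [if_pos hi, if_pos hi, hi, neg_smul, Polynomial.smul_eq_C_mul, sub_eq_add_neg]
        · rw [if_neg hi, if_neg hi, zero_smul, add_zero]
      have hlin : LinearIndependent ℚ g :=
        (linearIndependent_add_smul_iff (by
          change (if t = s then -c else 0) = 0
          exact if_neg (fun h => hne h.symm))).2 h
      have hdet : (Matrix.of fun r s : Fin k => Polynomial.hasseDeriv (r : ℕ) (g s)).det =
          (Matrix.of fun r s : Fin k => Polynomial.hasseDeriv (r : ℕ) (f s)).det := by
        rw [← Matrix.det_updateCol_add_smul_self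
          (Matrix.of fun r s : Fin k => Polynomial.hasseDeriv (r : ℕ) (f s)) hne
          (-Polynomial.C c)]
        congr 1
        ext1 r i
        rw [Matrix.of_apply, hg, Matrix.updateCol_apply]
        by_cases hi : i = s
        · rw [if_pos hi, if_pos hi, Matrix.of_apply, Matrix.of_apply, map_sub,
            ← Polynomial.smul_eq_C_mul, map_smul, Polynomial.smul_eq_C_mul, smul_eq_mul]
          ring
        · rw [if_neg hi, if_neg hi, Matrix.of_apply]
      have hdeg : (g s).natDegree < (f s).natDegree := by
        apply Polynomial.natDegree_lt_natDegree (hlin.ne_zero s)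
        rw [hg, if_pos rfl]
        apply Polynomial.degree_sub_lt_left
        · rw [Polynomial.degree_C_mul hc0, Polynomial.degree_eq_natDegree hs0,
            Polynomial.degree_eq_natDegree ht0]
          exact congrArg _ hst
        · exact hs0
        · rw [Polynomial.leadingCoeff_mul, Polynomial.leadingCoeff_C, hc, div_mul_cancel₀ _ hlt]
      have hsum : ∑ i, (g i).natDegree < N := by
        rw [← hN]
        refine Finset.sum_lt_sum (fun i _ => ?_) ⟨s, Finset.mem_univ s, hdeg⟩
        by_cases hi : i = s
        · rw [hi]
          exact hdeg.le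
        · rw [hg, if_neg hi]
      rw [← hdet]
      exact ih _ hsum g hlin rfl

end Pool.Agent.Helper42.RD
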