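import Mathlib
import Pool.Agent.Helper42.RD.Defs
import Pool.Agent.Helper42.RD.Hasse
import Pool.Agent.Helper42.RD.Wron
import Pool.Agent.Helper42.RD.Kron

/-!
# RD-6 (GenWron): generalized Wronskians

Take `κ` from `kronecker`. By `wronskian_ne_zero` the determinant of
`hasseDeriv r (κ (φ s))` is not zero. By `chain` (with `S r`, `c r`) its row `r` is
`∑ i ∈ S r, c r i • (κ (hD i (φ s)))_s`, and the determinant is multilinear in the rows
(`MultilinearMap.map_sum_finset` for `Matrix.detRowAlternating`, then `map_smul_univ`), so it is a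
sum over the choices `i : Fin k → (Fin n →₀ ℕ)`, `i r ∈ S r`, of
`(∏ c r (i r)) * det (κ (hD (i r) (φ s)))`. Hence for one choice
`κ (det (hD (i r) (φ s))) = det (κ (hD (i r) (φ s))) ≠ 0` (`RingHom.map_det`).
-/

set_option autoImplicit false

namespace Pool.Agent.Helper42.RD

open MvPolynomial Finset

theorem gen_wronskian {n k : ℕ} (φ : Fin k → MvPolynomial (Fin n) ℚ)
    (h : LinearIndependent ℚ φ) :
    ∃ i : Fin k → (Fin n →₀ ℕ), (∀ r, ∑ l, i r l ≤ (r : ℕ)) ∧
      (Matrix.of fun r s : Fin k => hD (i r) (φ s)).det ≠ 0 := by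
  obtain ⟨κ, hκ⟩ := kronecker φ h
  have hdet := wronskian_ne_zero _ hκ
  choose S c hS hc using fun r : Fin k => chain κ (r : ℕ)
  have hrow : (Matrix.of fun r s : Fin k => Polynomial.hasseDeriv (r : ℕ) (κ (φ s))) =
      (fun r : Fin k => ∑ i ∈ S r, (c r i) • (fun s : Fin k => κ (hD i (φ s)))) := by
    funext r s
    rw [Matrix.of_apply, hc r (φ s)]
    simp [Finset.sum_apply]
  have hexp : (Matrix.of fun r s : Fin k => Polynomial.hasseDeriv (r : ℕ) (κ (φ s))).det =
      ∑ i ∈ Fintype.piFinset S, (∏ r, c r (i r)) •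
        (Matrix.of fun r s : Fin k => κ (hD (i r) (φ s))).det := by
    rw [hrow]
    have := MultilinearMap.map_sum_finset
      (Matrix.detRowAlternating (R := Polynomial ℚ) (n := Fin k)).toMultilinearMap
      (fun (r : Fin k) (i : Fin n →₀ ℕ) => (c r i) • (fun s : Fin k => κ (hD i (φ s)))) S
    refine this.trans ?_
    refine Finset.sum_congr rfl fun i _ => ?_
    exact (Matrix.detRowAlternating (R := Polynomial ℚ) (n := Fin k)).toMultilinearMap.map_smul_univ
      (fun r => c r (i r)) (fun r s => κ (hD (i r) (φ s)))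
  rw [hexp] at hdet
  obtain ⟨i, hi, hne⟩ := Finset.exists_ne_zero_of_sum_ne_zero hdet
  refine ⟨i, fun r => hS r _ (Fintype.mem_piFinset.1 hi r), fun h0 => hne ?_⟩
  have hmap : (Matrix.of fun r s : Fin k => κ (hD (i r) (φ s))) =
      κ.toRingHom.mapMatrix (Matrix.of fun r s : Fin k => hD (i r) (φ s)) := by
    ext1 r s
    rfl
  rw [hmap, ← RingHom.map_det, h0, map_zero, smul_zero]

end Pool.Agent.Helper42.RD
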