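import Mathlib
import Pool.Agent.Helper42.RD.Defs

/-!
# RD-7 (Rank): minimal decomposition with separated variable `0`

Let `a e = (finSuccEquiv ℚ n P).coeff e` for `e ≤ d0` (the coefficient of `X 0 ^ e`), so
`P = ∑ e ≤ d0, rename Fin.succ (a e) * X 0 ^ e`. Let `k` be the dimension of the span of the
`a e` (`1 ≤ k` as `P ≠ 0`, `k ≤ d0 + 1` as the span is generated by `d0 + 1` elements:
`finrank_span_le_card`, `finrank_range_le_card`), `φ` a basis of the span, `a e = ∑ s, c e s • φ s`,
`ψ s = ∑ e, c e s X ^ e`. The `ψ s` are linearly independent: if `∑ s, λ s • ψ s = 0` then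
`∑ s, c e s * λ s = 0` for all `e`, so the linear functional with values `λ s` at `φ s`
vanishes at all `a e`, hence on the span, and `λ = 0`.
-/

set_option autoImplicit false

namespace Pool.Agent.Helper42.RD

open MvPolynomial Finset

private theorem finSuccEquiv_rename_succ {n : ℕ} (p : MvPolynomial (Fin n) ℚ) :
    finSuccEquiv ℚ n (rename Fin.succ p) = Polynomial.C p := by
  induction p using MvPolynomial.induction_on with
  | C a =>
    rw [rename_C]
    have h := DFunLike.congr_fun (finSuccEquiv_comp_C_eq_C (R := ℚ) n) a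
    exact ((finSuccEquiv ℚ n).symm_apply_eq.1 h).symm
  | add p q hp hq => rw [map_add, map_add, map_add, hp, hq]
  | mul_X p i hp => rw [map_mul, map_mul, map_mul, hp, rename_X, finSuccEquiv_X_succ]

theorem rank_decomp {n : ℕ} (P : MvPolynomial (Fin (n + 1)) ℚ) (hP : P ≠ 0) (d0 : ℕ)
    (hd : degreeOf 0 P ≤ d0) :
    ∃ k : ℕ, 1 ≤ k ∧ k ≤ d0 + 1 ∧
      ∃ (φ : Fin k → MvPolynomial (Fin n) ℚ) (ψ : Fin k → Polynomial ℚ),
        LinearIndependent ℚ φ ∧ LinearIndependent ℚ ψ ∧
        P = ∑ s, rename Fin.succ (φ s) *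
          Polynomial.aeval (X 0 : MvPolynomial (Fin (n + 1)) ℚ) (ψ s) := by
  classical
  set f := finSuccEquiv ℚ n P with hf
  have hf0 : f ≠ 0 := by
    rw [hf]
    exact (map_ne_zero_iff _ (finSuccEquiv ℚ n).injective).2 hP
  have hdeg : f.natDegree ≤ d0 := by rw [hf, natDegree_finSuccEquiv]; exact hd
  let a : Fin (d0 + 1) → MvPolynomial (Fin n) ℚ := fun e => f.coeff e
  let W := Submodule.span ℚ (Set.range a)
  have hfd : FiniteDimensional ℚ W := FiniteDimensional.span_of_finite ℚ (Set.finite_range a)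
  have hfa : f = ∑ e : Fin (d0 + 1), Polynomial.C (a e) * Polynomial.X ^ (e : ℕ) := by
    conv_lhs => rw [f.as_sum_range_C_mul_X_pow' (Nat.lt_succ_of_le hdeg)]
    rw [Finset.sum_range]
  let b := Module.finBasis ℚ W
  let aw : Fin (d0 + 1) → W := fun e => ⟨a e, Submodule.subset_span ⟨e, rfl⟩⟩
  let c : Fin (d0 + 1) → Fin (Module.finrank ℚ W) → ℚ := fun e s => b.repr (aw e) s
  have hac : ∀ e, a e = ∑ s, c e s • (b s : MvPolynomial (Fin n) ℚ) := by
    intro e
    have h1 := congrArg (fun w : W => (w : MvPolynomial (Fin n) ℚ)) (b.sum_repr (aw e))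
    simp only [Submodule.coe_sum, Submodule.coe_smul] at h1
    exact h1.symm
  refine ⟨Module.finrank ℚ W, ?_, ?_, fun s => (b s : MvPolynomial (Fin n) ℚ),
    fun s => ∑ e : Fin (d0 + 1), Polynomial.C (c e s) * Polynomial.X ^ (e : ℕ), ?_, ?_, ?_⟩
  · rw [Nat.one_le_iff_ne_zero]
    intro h0
    have hW : W = ⊥ := Submodule.finrank_eq_zero.1 h0
    apply hf0
    rw [hfa]
    refine Finset.sum_eq_zero fun e _ => ?_
    have h1 : a e ∈ W := Submodule.subset_span ⟨e, rfl⟩
    rw [hW, Submodule.mem_bot] at h1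
    rw [h1]
    simp
  · have h1 := finrank_range_le_card (R := ℚ) a
    rw [Fintype.card_fin] at h1
    exact h1
  · exact b.linearIndependent.map' W.subtype W.ker_subtype
  · rw [Fintype.linearIndependent_iff]
    intro g hg
    have hcoef : ∀ e : Fin (d0 + 1), ∑ s, g s * c e s = 0 := by
      intro e
      have h1 := congrArg (fun p : Polynomial ℚ => p.coeff e) hg
      simp only [Polynomial.finsetSum_coeff, Polynomial.coeff_smul, Polynomial.coeff_C_mul,
        Polynomial.coeff_X_pow, Polynomial.coeff_zero, smul_eq_mul] at h1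
      rw [← h1]
      refine Finset.sum_congr rfl fun s _ => ?_
      congr 1
      rw [Finset.sum_eq_single e]
      · simp
      · intro e' _ hne
        rw [if_neg (fun h => hne (Fin.ext h.symm)), mul_zero]
      · intro h
        exact absurd (Finset.mem_univ e) h
    let L : W →ₗ[ℚ] ℚ := b.constr ℚ g
    have hL : ∀ w : W, L w = ∑ s, b.repr w s * g s := by
      intro w
      simp only [L, Module.Basis.constr_apply_fintype, smul_eq_mul, Module.Basis.equivFun_apply]
    have hLa : ∀ e, L (aw e) = 0 := by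
      intro e
      rw [hL, ← hcoef e]
      exact Finset.sum_congr rfl fun s _ => mul_comm _ _
    have hL0 : ∀ (w : MvPolynomial (Fin n) ℚ) (hw : w ∈ W), L ⟨w, hw⟩ = 0 := by
      intro w hw
      induction hw using Submodule.span_induction with
      | mem x hx =>
        obtain ⟨e, rfl⟩ := hx
        exact hLa e
      | zero => exact L.map_zero
      | add x y hx hy h1 h2 =>
        have h3 := L.map_add ⟨x, hx⟩ ⟨y, hy⟩
        rw [h1, h2, add_zero] at h3
        exact h3
      | smul r x hx h1 =>
        have h3 := L.map_smul r ⟨x, hx⟩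
        rw [h1, smul_zero] at h3
        exact h3
    intro s
    have h1 : L (b s) = g s := b.constr_basis ℚ g s
    rw [← h1]
    exact hL0 _ (b s).2
  · apply (finSuccEquiv ℚ n).injective
    rw [← hf, hfa, map_sum]
    simp only [map_mul, finSuccEquiv_rename_succ, map_sum, map_pow, Polynomial.aeval_X,
      Polynomial.aeval_C, AlgEquiv.commutes, finSuccEquiv_X_zero]
    simp only [hac, map_sum, Finset.sum_mul, Finset.mul_sum]
    rw [Finset.sum_comm]
    refine Finset.sum_congr rfl fun s _ => Finset.sum_congr rfl fun e _ => ?_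
    rw [Algebra.smul_def, map_mul]
    rw [IsScalarTower.algebraMap_apply ℚ (MvPolynomial (Fin n) ℚ)
      (Polynomial (MvPolynomial (Fin n) ℚ)), Polynomial.algebraMap_eq]
    ring

end Pool.Agent.Helper42.RD
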