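import Mathlib
import Pool.Agent.Helper42.RD.Defs
import Pool.Agent.Helper42.RD.Hasse

/-!
# RD-8 (Split): Hasse derivatives of a product in disjoint variables

`hD_split`: both sides are additive in `φ` and in `ψ`, so take `φ = monomial a c`,
`ψ = Polynomial.monomial b c'`; the product is `monomial (Finsupp.cons b a) (c * c')`,
`hD_monomial`, `Polynomial.hasseDeriv_monomial`, and
`∏ l : Fin (n+1), ((cons b a) l).choose ((cons j i) l) = b.choose j * ∏ l, (a l).choose (i l)`
(`Fin.prod_univ_succ`, `Finsupp.cons_zero`, `Finsupp.cons_succ`).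
`coeff_split` is the same computation (no derivative).
`aeval_split`: apply `aeval β` to `hD_split`.
-/

set_option autoImplicit false

namespace Pool.Agent.Helper42.RD

open MvPolynomial Finset

variable {n : ℕ}

private theorem cons_eq (b : ℕ) (a : Fin n →₀ ℕ) :
    Finsupp.cons b a = a.mapDomain Fin.succ + Finsupp.single 0 b := by
  ext l
  refine Fin.cases ?_ (fun l => ?_) l
  · rw [Finsupp.cons_zero, Finsupp.add_apply, Finsupp.single_eq_same,
      Finsupp.mapDomain_of_notMem_range _ _ (by rintro ⟨x, hx⟩; exact Fin.succ_ne_zero x hx), zero_add]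
  · rw [Finsupp.cons_succ, Finsupp.add_apply, Finsupp.mapDomain_apply (Fin.succ_injective n),
      Finsupp.single_eq_of_ne (Fin.succ_ne_zero l), add_zero]

private theorem mono_split {R : Type*} [CommRing R] (a : Fin n →₀ ℕ) (b : ℕ) (c c' : R) :
    rename Fin.succ (monomial a c) *
      Polynomial.aeval (X 0 : MvPolynomial (Fin (n + 1)) R) (Polynomial.monomial b c') =
      monomial (Finsupp.cons b a) (c * c') := by
  rw [rename_monomial, Polynomial.aeval_monomial, MvPolynomial.algebraMap_eq, C_mul_X_pow_eq_monomial,
    monomial_mul, cons_eq]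

private theorem choose_split (a i : Fin n →₀ ℕ) (b j : ℕ) :
    ∏ l, ((Finsupp.cons b a) l).choose ((Finsupp.cons j i) l) =
      b.choose j * ∏ l, (a l).choose (i l) := by
  rw [Fin.prod_univ_succ, Finsupp.cons_zero, Finsupp.cons_zero]
  simp only [Finsupp.cons_succ]

private theorem cons_sub (a i : Fin n →₀ ℕ) (b j : ℕ) :
    (Finsupp.cons b a - Finsupp.cons j i : Fin (n + 1) →₀ ℕ) = Finsupp.cons (b - j) (a - i) := by
  ext l
  refine Fin.cases ?_ (fun l => ?_) l
  · rw [Finsupp.tsub_apply, Finsupp.cons_zero, Finsupp.cons_zero, Finsupp.cons_zero]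
  · rw [Finsupp.tsub_apply, Finsupp.cons_succ, Finsupp.cons_succ, Finsupp.cons_succ,
      Finsupp.tsub_apply]

theorem hD_split {R : Type*} [CommRing R] (i : Fin n →₀ ℕ) (j : ℕ)
    (φ : MvPolynomial (Fin n) R) (ψ : Polynomial R) :
    hD (Finsupp.cons j i) (rename Fin.succ φ *
        Polynomial.aeval (X 0 : MvPolynomial (Fin (n + 1)) R) ψ) =
      rename Fin.succ (hD i φ) *
        Polynomial.aeval (X 0 : MvPolynomial (Fin (n + 1)) R) (Polynomial.hasseDeriv j ψ) := by
  induction φ using MvPolynomial.induction_on' with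
  | add p q hp hq => rw [map_add, add_mul, hD_add, hp, hq, hD_add, map_add, add_mul]
  | monomial a c =>
    induction ψ using Polynomial.induction_on' with
    | add p q hp hq => rw [map_add, mul_add, hD_add, hp, hq, map_add, map_add, mul_add]
    | monomial b c' =>
      rw [mono_split, hD_monomial, hD_monomial, Polynomial.hasseDeriv_monomial, mono_split,
        cons_sub, choose_split]
      congr 1
      push_cast
      ring

theorem coeff_split {R : Type*} [CommRing R] (i : Fin n →₀ ℕ) (j : ℕ)
    (φ : MvPolynomial (Fin n) R) (ψ : Polynomial R) :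
    coeff (Finsupp.cons j i) (rename Fin.succ φ *
        Polynomial.aeval (X 0 : MvPolynomial (Fin (n + 1)) R) ψ) = coeff i φ * ψ.coeff j := by
  classical
  induction φ using MvPolynomial.induction_on' with
  | add p q hp hq => rw [map_add, add_mul, coeff_add, hp, hq, coeff_add, add_mul]
  | monomial a c =>
    induction ψ using Polynomial.induction_on' with
    | add p q hp hq => rw [map_add, mul_add, coeff_add, hp, hq, Polynomial.coeff_add, mul_add]
    | monomial b c' =>
      rw [mono_split, coeff_monomial, coeff_monomial, Polynomial.coeff_monomial]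
      have h : (Finsupp.cons b a : Fin (n + 1) →₀ ℕ) = Finsupp.cons j i ↔ a = i ∧ b = j := by
        constructor
        · intro h
          constructor
          · ext l
            have h1 := DFunLike.congr_fun h l.succ
            rwa [Finsupp.cons_succ, Finsupp.cons_succ] at h1
          · have h1 := DFunLike.congr_fun h 0
            rwa [Finsupp.cons_zero, Finsupp.cons_zero] at h1
        · rintro ⟨rfl, rfl⟩
          rfl
      by_cases h1 : a = i
      · by_cases h2 : b = j
        · rw [if_pos (h.2 ⟨h1, h2⟩), if_pos h1, if_pos h2]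
        · rw [if_neg fun h3 => h2 (h.1 h3).2, if_neg h2, mul_zero]
      · rw [if_neg fun h3 => h1 (h.1 h3).1, if_neg h1, zero_mul]

theorem aeval_split (β : Fin (n + 1) → ℚ) (i : Fin n →₀ ℕ) (j : ℕ)
    (φ : MvPolynomial (Fin n) ℤ) (ψ : Polynomial ℤ) :
    aeval β (hD (Finsupp.cons j i) (rename Fin.succ φ *
        Polynomial.aeval (X 0 : MvPolynomial (Fin (n + 1)) ℤ) ψ)) =
      aeval (fun l => β l.succ) (hD i φ) *
        Polynomial.aeval (β 0) (Polynomial.hasseDeriv j ψ) := by
  rw [hD_split, _root_.map_mul, aeval_rename, ← Polynomial.aeval_algHom_apply, aeval_X]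
  rfl

end Pool.Agent.Helper42.RD
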