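import Mathlib
import Pool.Agent.Helper42.RD.Defs
import Pool.Agent.Helper42.RD.Hasse
import Pool.Agent.Helper42.RD.Wron
import Pool.Agent.Helper42.RD.GenWron
import Pool.Agent.Helper42.RD.Rank
import Pool.Agent.Helper42.RD.Split

/-!
# RD-9 (Factor): the Wronskian of `P` is a product in disjoint variables

Apply `rank_decomp` to `map (Int.castRingHom ℚ) P` (not zero, same degree), `gen_wronskian` to `φ`
and `wronskian_ne_zero` to `ψ`. By `hD_map`, `hD_sum` and `hD_split` the image over `ℚ` of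
the matrix is `A * B` with `A r q = rename Fin.succ (hD (i r) (φ q))` and
`B q s = aeval (X 0) (hasseDeriv s (ψ q))`; `Matrix.det_mul`, `RingHom.map_det`,
`Matrix.det_transpose`.
-/

set_option autoImplicit false

namespace Pool.Agent.Helper42.RD

open MvPolynomial Finset

theorem wronskian_factor {n : ℕ} (P : MvPolynomial (Fin (n + 1)) ℤ) (hP : P ≠ 0) (d0 : ℕ)
    (hd : degreeOf 0 P ≤ d0) :
    ∃ k : ℕ, 1 ≤ k ∧ k ≤ d0 + 1 ∧ ∃ i : Fin k → (Fin n →₀ ℕ), (∀ r, ∑ l, i r l ≤ (r : ℕ)) ∧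
      ∃ (U : MvPolynomial (Fin n) ℚ) (V : Polynomial ℚ), U ≠ 0 ∧ V ≠ 0 ∧
        map (Int.castRingHom ℚ)
            (Matrix.of fun r s : Fin k => hD (Finsupp.cons (s : ℕ) (i r)) P).det =
          rename Fin.succ U * Polynomial.aeval (X 0 : MvPolynomial (Fin (n + 1)) ℚ) V := by
  have hinj : Function.Injective (Int.castRingHom ℚ) := RingHom.injective_int _
  have hP' : map (Int.castRingHom ℚ) P ≠ 0 := by
    intro h
    exact hP (MvPolynomial.map_injective _ hinj (by rw [h, map_zero]))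
  have hd' : degreeOf 0 (map (Int.castRingHom ℚ) P) ≤ d0 := by
    rw [degreeOf_le_iff]
    intro m hm
    exact (degreeOf_le_iff.1 hd) m (MvPolynomial.support_map_subset _ _ hm)
  obtain ⟨k, hk1, hk2, φ, ψ, hφ, hψ, hdec⟩ := rank_decomp (map (Int.castRingHom ℚ) P) hP' d0 hd'
  obtain ⟨i, hi, hdet⟩ := gen_wronskian φ hφ
  refine ⟨k, hk1, hk2, i, hi, (Matrix.of fun r s : Fin k => hD (i r) (φ s)).det,
    (Matrix.of fun r s : Fin k => Polynomial.hasseDeriv (r : ℕ) (ψ s)).det, hdet,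
    wronskian_ne_zero ψ hψ, ?_⟩
  have h1 : (Matrix.of fun r s : Fin k => hD (Finsupp.cons (s : ℕ) (i r)) P).map
      (map (Int.castRingHom ℚ)) =
      ((Matrix.of fun r s : Fin k => hD (i r) (φ s)).map
        (rename (R := ℚ) (Fin.succ : Fin n → Fin (n + 1)))) *
      ((Matrix.of fun r s : Fin k => Polynomial.hasseDeriv (r : ℕ) (ψ s)).map
        (Polynomial.aeval (X 0 : MvPolynomial (Fin (n + 1)) ℚ))).transpose := by
    ext1 r s
    rw [Matrix.map_apply, Matrix.of_apply, ← hD_map, hdec, hD_sum, Matrix.mul_apply]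
    refine Finset.sum_congr rfl fun q _ => ?_
    rw [hD_split, Matrix.map_apply, Matrix.of_apply, Matrix.transpose_apply, Matrix.map_apply,
      Matrix.of_apply]
  have h2 := RingHom.map_det (map (Int.castRingHom ℚ) (σ := Fin (n + 1)))
    (Matrix.of fun r s : Fin k => hD (Finsupp.cons (s : ℕ) (i r)) P)
  have h3 := AlgHom.map_det (rename (R := ℚ) (Fin.succ : Fin n → Fin (n + 1)))
    (Matrix.of fun r s : Fin k => hD (i r) (φ s))
  have h4 := AlgHom.map_det (Polynomial.aeval (X 0 : MvPolynomial (Fin (n + 1)) ℚ))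
    (Matrix.of fun r s : Fin k => Polynomial.hasseDeriv (r : ℕ) (ψ s))
  rw [RingHom.mapMatrix_apply] at h2
  rw [AlgHom.mapMatrix_apply] at h3 h4
  rw [h2, h3, h4, h1, Matrix.det_mul, Matrix.det_transpose]

end Pool.Agent.Helper42.RD
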