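import Mathlib
import Pool.Agent.Helper42.RD.Defs

/-!
# RD-11 (OneVar): one variable

Let `j` be the order of vanishing of `V` at `x / y` (`Polynomial.rootMultiplicity` of the image over
`ℚ`). Then `hasseDeriv j V` does not vanish at `x / y` (Taylor expansion, `Polynomial.taylor_coeff`).
By Gauss's lemma (`Polynomial.IsPrimitive.Int.dvd_iff_map_cast_dvd_map_cast`; `y X - x` is primitive,
hence so is its `j`-th power, `Polynomial.IsPrimitive.mul`) `V = (y X - x) ^ j * R` with `R` in `ℤ[X]`. The leading coefficient of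
`V` is `y ^ j` times the one of `R`, so `|y| ^ j ≤ L1p V`. If `x ≠ 0`, the trailing coefficient of `V`
is `(- x) ^ j` times the one of `R` (`Polynomial.trailingCoeff_mul`), so `|x| ^ j ≤ L1p V`. If `x = 0`
then `ht x y = |y|`.
-/

set_option autoImplicit false

namespace Pool.Agent.Helper42.RD

open MvPolynomial Finset

private theorem onevar_coeff_le (V : Polynomial ℤ) (e : ℕ) : |((V.coeff e : ℤ) : ℝ)| ≤ L1p V := by
  unfold L1p
  by_cases he : e ∈ V.support
  · exact Finset.single_le_sum (f := fun e => |((V.coeff e : ℤ) : ℝ)|)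
      (fun _ _ => abs_nonneg _) he
  · rw [Polynomial.notMem_support_iff] at he
    rw [he, Int.cast_zero, abs_zero]
    exact Finset.sum_nonneg fun _ _ => abs_nonneg _

private theorem onevar_primitive {x y : ℤ} (hxy : IsCoprime x y) :
    (Polynomial.C y * Polynomial.X - Polynomial.C x : Polynomial ℤ).IsPrimitive := by
  intro r hr
  rw [Polynomial.C_dvd_iff_dvd_coeff] at hr
  have h0 := hr 0
  have h1 := hr 1
  simp only [Polynomial.coeff_sub, Polynomial.coeff_C_mul, Polynomial.coeff_X_zero,
    Polynomial.coeff_C_zero, Polynomial.coeff_X_one, Polynomial.coeff_C_succ, mul_zero, mul_one,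
    zero_sub, sub_zero] at h0 h1
  rw [dvd_neg] at h0
  exact hxy.isUnit_of_dvd' h0 h1

private theorem onevar_primitive_pow {x y : ℤ} (hxy : IsCoprime x y) (j : ℕ) :
    ((Polynomial.C y * Polynomial.X - Polynomial.C x : Polynomial ℤ) ^ j).IsPrimitive := by
  induction j with
  | zero => rw [pow_zero]; exact Polynomial.isPrimitive_one
  | succ j ih => rw [pow_succ]; exact ih.mul (onevar_primitive hxy)

private theorem onevar_trailing_pow (p : Polynomial ℤ) (j : ℕ) :
    (p ^ j).trailingCoeff = p.trailingCoeff ^ j := by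
  induction j with
  | zero => rw [pow_zero, pow_zero]; simp [Polynomial.trailingCoeff]
  | succ j ih => rw [pow_succ, Polynomial.trailingCoeff_mul, ih, pow_succ]

private theorem onevar_abs_le {a b c : ℤ} {j : ℕ} (h : c = a ^ j * b) (hc : c ≠ 0) :
    |(a : ℝ)| ^ j ≤ |((c : ℤ) : ℝ)| := by
  have hb : b ≠ 0 := by
    rintro rfl
    exact hc (by rw [h, mul_zero])
  have h1 : (1 : ℝ) ≤ |(b : ℝ)| := by
    rw [← Int.cast_abs]
    exact_mod_cast Int.one_le_abs hb
  rw [h]
  push_cast
  rw [abs_mul, abs_pow]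
  exact le_mul_of_one_le_right (by positivity) h1

theorem one_var (V : Polynomial ℤ) (hV : V ≠ 0) (x y : ℤ) (hxy : IsCoprime x y) (hy : y ≠ 0) :
    ∃ j : ℕ, Polynomial.aeval ((x : ℚ) / y) (Polynomial.hasseDeriv j V) ≠ 0 ∧
      ht x y ^ j ≤ L1p V := by
  classical
  obtain ⟨Vq, hVq⟩ : ∃ Vq : Polynomial ℚ, Vq = V.map (Int.castRingHom ℚ) := ⟨_, rfl⟩
  have hinj : Function.Injective (Int.castRingHom ℚ) := Int.cast_injective
  have hVq0 : Vq ≠ 0 := by
    rw [hVq]
    exact (Polynomial.map_ne_zero_iff hinj).mpr hV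
  obtain ⟨β, hβ⟩ : ∃ β : ℚ, β = (x : ℚ) / y := ⟨_, rfl⟩
  have hyq : (y : ℚ) ≠ 0 := by exact_mod_cast hy
  refine ⟨Vq.rootMultiplicity β, ?_, ?_⟩
  · -- the Hasse derivative does not vanish
    have h1 : Polynomial.aeval ((x : ℚ) / y) (Polynomial.hasseDeriv (Vq.rootMultiplicity β) V) =
        (Polynomial.hasseDeriv (Vq.rootMultiplicity β) Vq).eval β := by
      rw [← hβ, Polynomial.aeval_def, hVq]
      rw [← Polynomial.eval_map]
      congr 1
      ext n
      simp only [Polynomial.coeff_map, Polynomial.hasseDeriv_coeff, algebraMap_int_eq,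
        eq_intCast, Int.cast_mul, Int.cast_natCast]
    rw [h1, ← Polynomial.taylor_coeff, Polynomial.rootMultiplicity_eq_natTrailingDegree]
    have h2 : Polynomial.taylor β Vq = Vq.comp (Polynomial.X + Polynomial.C β) := rfl
    rw [← h2]
    have h3 : (Polynomial.taylor β Vq).trailingCoeff ≠ 0 := by
      rw [Polynomial.trailingCoeff_nonzero_iff_nonzero]
      intro h
      exact hVq0 ((Polynomial.taylor_injective β) (by rw [h, map_zero]))
    exact h3
  · obtain ⟨j, hj⟩ : ∃ j : ℕ, j = Vq.rootMultiplicity β := ⟨_, rfl⟩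
    rw [← hj]
    have hdq : (Polynomial.X - Polynomial.C β) ^ j ∣ Vq := by
      rw [hj]
      exact Polynomial.pow_rootMultiplicity_dvd _ _
    have hmap : ((Polynomial.C y * Polynomial.X - Polynomial.C x : Polynomial ℤ) ^ j).map
        (Int.castRingHom ℚ) = Polynomial.C ((y : ℚ) ^ j) * (Polynomial.X - Polynomial.C β) ^ j := by
      rw [Polynomial.map_pow, Polynomial.C_pow, ← mul_pow]
      congr 1
      rw [Polynomial.map_sub, Polynomial.map_mul, Polynomial.map_C, Polynomial.map_C,
        Polynomial.map_X, mul_sub, ← Polynomial.C_mul, hβ, mul_div_cancel₀ _ hyq]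
      rfl
    have hdq' : ((Polynomial.C y * Polynomial.X - Polynomial.C x : Polynomial ℤ) ^ j).map
        (Int.castRingHom ℚ) ∣ V.map (Int.castRingHom ℚ) := by
      rw [hmap]
      have hu : IsUnit (Polynomial.C ((y : ℚ) ^ j)) :=
        Polynomial.isUnit_C.mpr (IsUnit.mk0 _ (pow_ne_zero _ hyq))
      rw [hu.mul_left_dvd, ← hVq]
      exact hdq
    have hd : (Polynomial.C y * Polynomial.X - Polynomial.C x : Polynomial ℤ) ^ j ∣ V :=
      (Polynomial.IsPrimitive.Int.dvd_iff_map_cast_dvd_map_cast _ _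
        (onevar_primitive_pow hxy j)).mpr hdq'
    obtain ⟨R, hR⟩ := hd
    have hlc : V.leadingCoeff = y ^ j * R.leadingCoeff := by
      rw [hR, Polynomial.leadingCoeff_mul, Polynomial.leadingCoeff_pow]
      congr 2
      rw [sub_eq_add_neg, ← Polynomial.C_neg]
      exact Polynomial.leadingCoeff_linear hy
    have hyj : |(y : ℝ)| ^ j ≤ L1p V :=
      (onevar_abs_le hlc (Polynomial.leadingCoeff_ne_zero.mpr hV)).trans (onevar_coeff_le V _)
    unfold ht
    by_cases hx : x = 0
    · subst hx
      rw [Int.cast_zero, abs_zero, max_eq_right (abs_nonneg _)]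
      exact hyj
    have htc : V.trailingCoeff = (-x) ^ j * R.trailingCoeff := by
      rw [hR, Polynomial.trailingCoeff_mul, onevar_trailing_pow]
      congr 2
      have h0 : (Polynomial.C y * Polynomial.X - Polynomial.C x : Polynomial ℤ).coeff 0 = -x := by
        simp
      have h1 : (Polynomial.C y * Polynomial.X - Polynomial.C x : Polynomial ℤ).natTrailingDegree
          = 0 := by
        rw [Polynomial.natTrailingDegree_eq_zero]
        right
        rw [h0]
        exact neg_ne_zero.mpr hx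
      rw [Polynomial.trailingCoeff, h1, h0]
    have hxj : |(x : ℝ)| ^ j ≤ L1p V := by
      have h1 := (onevar_abs_le htc (Polynomial.trailingCoeff_nonzero_iff_nonzero.mpr hV)).trans
        (onevar_coeff_le V _)
      rwa [Int.cast_neg, abs_neg] at h1
    rcases max_cases |(x : ℝ)| |(y : ℝ)| with ⟨h, _⟩ | ⟨h, _⟩
    · rw [h]; exact hxj
    · rw [h]; exact hyj

end Pool.Agent.Helper42.RD
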