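import Mathlib
import Pool.Agent.Helper42.RD.Defs
import Pool.Agent.Helper42.RD.Norm
import Pool.Agent.Helper42.RD.Split

/-!
# RD-10 (Slices): integral factors of a product in disjoint variables

By `coeff_split`, `coeff (cons e a) W = u_a v_e` over `ℚ` (`u`, `v` the coefficients of `U`, `V`).
Choose `a0`, `e0` with `u_{a0} ≠ 0`, `v_{e0} ≠ 0`. Put `c = coeff (cons e0 a0) W ≠ 0`,
`U' = ∑_a (coeff (cons e0 a) W) x^a` (the coefficient of `X 0 ^ e0` in `W`:
`(finSuccEquiv ℤ n W).coeff e0`, see `finSuccEquiv_coeff_coeff`), `V' = ∑_e (coeff (cons e a0) W) X^e`.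
Then `c * coeff (cons e a) W = (u_{a0} v_{e0}) (u_a v_e) = coeff a U' * coeff e V'`. The coefficients
of `U'` and of `V'` are some of the coefficients of `W`, so the norms are at most `L1 W`; the degrees
are bounded by those of `W`.
-/

set_option autoImplicit false

namespace Pool.Agent.Helper42.RD

open MvPolynomial Finset

theorem slices {n : ℕ} (W : MvPolynomial (Fin (n + 1)) ℤ) (U : MvPolynomial (Fin n) ℚ)
    (V : Polynomial ℚ) (hU : U ≠ 0) (hV : V ≠ 0)
    (h : map (Int.castRingHom ℚ) W =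
      rename Fin.succ U * Polynomial.aeval (X 0 : MvPolynomial (Fin (n + 1)) ℚ) V) :
    ∃ (U' : MvPolynomial (Fin n) ℤ) (V' : Polynomial ℤ) (c : ℤ), c ≠ 0 ∧ U' ≠ 0 ∧ V' ≠ 0 ∧
      C c * W = rename Fin.succ U' * Polynomial.aeval (X 0 : MvPolynomial (Fin (n + 1)) ℤ) V' ∧
      L1 U' ≤ L1 W ∧ L1p V' ≤ L1 W ∧ (∀ l, degreeOf l U' ≤ degreeOf l.succ W) := by
  classical
  have hW : ∀ (e : ℕ) (a : Fin n →₀ ℕ),
      ((coeff (Finsupp.cons e a) W : ℤ) : ℚ) = coeff a U * V.coeff e := by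
    intro e a
    rw [← coeff_split, ← h, coeff_map]
    rfl
  obtain ⟨a0, ha0⟩ := MvPolynomial.ne_zero_iff.1 hU
  have he0 : V.coeff V.natDegree ≠ 0 := Polynomial.leadingCoeff_ne_zero.2 hV
  set e0 := V.natDegree with he0def
  set c : ℤ := coeff (Finsupp.cons e0 a0) W with hc
  have hc0 : c ≠ 0 := by
    have h1 : ((c : ℤ) : ℚ) ≠ 0 := by
      rw [hc, hW]
      exact mul_ne_zero ha0 he0
    exact_mod_cast h1
  set U' : MvPolynomial (Fin n) ℤ := (finSuccEquiv ℤ n W).coeff e0 with hU'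
  set V' : Polynomial ℤ := ∑ e ∈ range (degreeOf 0 W + 1),
    Polynomial.monomial e (coeff (Finsupp.cons e a0) W) with hV'
  have hU'c : ∀ a, coeff a U' = coeff (Finsupp.cons e0 a) W := by
    intro a
    rw [hU', finSuccEquiv_coeff_coeff]
  have hV'c : ∀ e, V'.coeff e = coeff (Finsupp.cons e a0) W := by
    intro e
    rw [hV', Polynomial.finsetSum_coeff]
    simp only [Polynomial.coeff_monomial]
    rw [Finset.sum_ite_eq']
    split_ifs with h1
    · rfl
    · symm
      by_contra h2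
      apply h1
      have h3 : (Finsupp.cons e a0) 0 ≤ degreeOf 0 W :=
        monomial_le_degreeOf 0 (mem_support_iff.2 h2)
      rw [Finsupp.cons_zero] at h3
      exact mem_range.2 (Nat.lt_succ_of_le h3)
  have hnn : ∀ j : Fin (n + 1) →₀ ℕ, 0 ≤ |((coeff j W : ℤ) : ℝ)| := fun j => abs_nonneg _
  refine ⟨U', V', c, hc0, ?_, ?_, ?_, ?_, ?_, ?_⟩
  · intro h0
    apply hc0
    rw [hc, ← hU'c, h0, coeff_zero]
  · intro h0
    apply hc0
    rw [hc, ← hV'c, h0, Polynomial.coeff_zero]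
  · ext m
    rw [← Finsupp.cons_tail m, coeff_C_mul, coeff_split, hU'c, hV'c]
    have h1 : ((c * coeff (Finsupp.cons (m 0) m.tail) W : ℤ) : ℚ) =
        ((coeff (Finsupp.cons e0 m.tail) W * coeff (Finsupp.cons (m 0) a0) W : ℤ) : ℚ) := by
      push_cast
      rw [hc, hW, hW, hW, hW]
      ring
    exact_mod_cast h1
  · unfold L1
    have h1 : ∑ j ∈ U'.support, |((coeff j U' : ℤ) : ℝ)| =
        ∑ m ∈ U'.support.image (Finsupp.cons e0), |((coeff m W : ℤ) : ℝ)| := by
      rw [Finset.sum_image fun a _ b _ hab => (Finsupp.cons_right_injective e0) hab]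
      refine Finset.sum_congr rfl fun a _ => ?_
      rw [hU'c]
    rw [h1]
    refine Finset.sum_le_sum_of_subset_of_nonneg ?_ fun j _ _ => hnn j
    intro m hm
    obtain ⟨a, ha, rfl⟩ := Finset.mem_image.1 hm
    rw [mem_support_iff, ← hU'c]
    exact mem_support_iff.1 ha
  · unfold L1p L1
    have h1 : ∑ e ∈ V'.support, |((V'.coeff e : ℤ) : ℝ)| =
        ∑ m ∈ V'.support.image (fun e => Finsupp.cons e a0), |((coeff m W : ℤ) : ℝ)| := by
      rw [Finset.sum_image fun a _ b _ hab => ?_]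
      · refine Finset.sum_congr rfl fun a _ => ?_
        rw [hV'c]
      · have h2 := DFunLike.congr_fun (show Finsupp.cons a a0 = Finsupp.cons b a0 from hab)
          (0 : Fin (n + 1))
        rwa [Finsupp.cons_zero, Finsupp.cons_zero] at h2
    rw [h1]
    refine Finset.sum_le_sum_of_subset_of_nonneg ?_ fun j _ _ => hnn j
    intro m hm
    obtain ⟨e, he, rfl⟩ := Finset.mem_image.1 hm
    rw [mem_support_iff, ← hV'c]
    exact Polynomial.mem_support_iff.1 he
  · intro l
    exact degreeOf_coeff_finSuccEquiv W l e0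

end Pool.Agent.Helper42.RD
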