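import Mathlib
import Pool.Agent.Helper42.RD.Defs
import Pool.Agent.Helper42.RD.Norm
import Pool.Agent.Helper42.RD.Hasse
import Pool.Agent.Helper42.RD.Index
import Pool.Agent.Helper42.RD.Factor
import Pool.Agent.Helper42.RD.Slices
import Pool.Agent.Helper42.RD.OneVar
import Pool.Agent.Helper42.RD.Comb

/-!
# RD-13 (Roth): Roth's lemma for integral polynomials at a rational point

Induction on `n`. `n = 0`: `P` is a nonzero constant, so `IndGE` fails for `t > 0` (take `i = 0`).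
Step `n → n + 1`. It suffices to treat `ζ ≤ 1`. Let `ω'` belong to `n` and `ζ' = ζ ^ 2 / 64`, and
`ω = min (ω' / (n + 4)) (ζ ^ 2 / (64 (n + 4)))` (so also `ω ≤ ζ / 4`). Let `P`, ... be given with
`t > ζ`; put `Θ = t - ω > 3 ζ / 4`. Take `k`, `i`, `U`, `V` from `wronskian_factor` with `d0 = d 0`,
`W` the determinant, and `U'`, `V'`, `c` from `slices`.
(a) Index: column `s` of the matrix has index at least `max 0 (Θ - s / d 0)`: by `IndGE.hD` the entry
`hD (cons s (i r)) P` has index at least `t - s / d 0 - ∑ l, i r l / d l.succ`, and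
`∑ l, i r l / d l.succ ≤ (∑ l, i r l) * max (1 / d l.succ) ≤ (k - 1) / d l' ≤ d 0 / d l' ≤ ω` (for `n = 0`
the sum is empty); and `IndGE.of_nonpos`. So by `IndGE.det` and `sum_max_ge` `W` has index at least
`k * min (Θ / 2) (Θ ^ 2 / 4) > k * (9 / 64) * ζ ^ 2`.
(b) Size: `L1 W ≤ k! * (2 ^ (∑ d) * L1 P) ^ k` (`L1_det_le`, `L1_hD_le`), `k! ≤ k ^ k`,
`log k ≤ k - 1 ≤ d 0`, so
`log (L1 W) ≤ k * (d 0 + (∑ l, d l) * log 2 + log (L1 P)) ≤ k * (n + 3) * ω * Λ`.
(c) Degrees: `degreeOf l.succ W ≤ k * d l.succ` (`degreeOf` of a determinant; add a lemma).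
(d) Induction hypothesis for `U'` with degrees `k * d l.succ`, `Λ' = k * Λ`, `ζ'`: its index at
`β l.succ` with respect to the weights `1 / (k d)` is at most `ζ'`; so there is `i'` with
`∑ l, i' l / (k * d l.succ) < 2 * ζ'` and `aeval _ (hD i' U') ≠ 0`.
(e) `one_var` for `V'`, `x 0`, `y 0`: there is `j` with nonzero Hasse derivative and
`j * log (ht (x 0) (y 0)) ≤ log (L1p V') ≤ log (L1 W) ≤ k * (n + 3) * ω * Λ`, hence
`j / d 0 ≤ k * (n + 3) * ω` since `Λ ≤ d 0 * log (ht ..)`.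
(f) By `aeval_split` and `C c * W = ...`, `aeval β (hD (cons j i') W) ≠ 0`. So
`k * (9/64) ζ ^ 2 < j / d 0 + ∑ l, i' l / d l.succ ≤ k * ((n + 3) * ω + 2 * ζ')`, contradiction.
-/

set_option autoImplicit false

namespace Pool.Agent.Helper42.RD

open MvPolynomial Finset

private theorem roth_log_factorial (k : ℕ) (hk : 1 ≤ k) :
    Real.log (k.factorial : ℝ) ≤ k * ((k : ℝ) - 1) := by
  have hk0 : (0 : ℝ) < k := by exact_mod_cast hk
  have h1 : Real.log (k.factorial : ℝ) ≤ Real.log ((k : ℝ) ^ k) := by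
    apply Real.log_le_log (by exact_mod_cast k.factorial_pos)
    exact_mod_cast Nat.factorial_le_pow k
  rw [Real.log_pow] at h1
  have h2 := Real.log_le_sub_one_of_pos hk0
  nlinarith

private theorem roth_step (n : ℕ) (ih : ∀ ζ : ℝ, 0 < ζ → ∃ ω : ℝ, 0 < ω ∧ ω ≤ 1 ∧
    ∀ (d : Fin n → ℕ) (x y : Fin n → ℤ) (Λ : ℝ) (P : MvPolynomial (Fin n) ℤ) (t : ℝ), 0 < Λ →
      (∀ l, 1 ≤ d l) → (∀ l l', l < l' → (d l : ℝ) ≤ ω * d l') →
      (∀ l, IsCoprime (x l) (y l)) → (∀ l, y l ≠ 0) →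
      (∀ l, Λ ≤ d l * Real.log (ht (x l) (y l))) → (∀ l, (d l : ℝ) ≤ ω * Λ) →
      (∀ l, degreeOf l P ≤ d l) → P ≠ 0 → Real.log (L1 P) ≤ ω * Λ →
      IndGE (fun l => 1 / (d l : ℝ)) (fun l => (x l : ℚ) / y l) t P → t ≤ ζ)
    (ζ : ℝ) (hζ : 0 < ζ) (hζ1 : ζ ≤ 1) : ∃ ω : ℝ, 0 < ω ∧ ω ≤ 1 ∧
    ∀ (d : Fin (n + 1) → ℕ) (x y : Fin (n + 1) → ℤ) (Λ : ℝ) (P : MvPolynomial (Fin (n + 1)) ℤ)
      (t : ℝ), 0 < Λ →
      (∀ l, 1 ≤ d l) → (∀ l l', l < l' → (d l : ℝ) ≤ ω * d l') →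
      (∀ l, IsCoprime (x l) (y l)) → (∀ l, y l ≠ 0) →
      (∀ l, Λ ≤ d l * Real.log (ht (x l) (y l))) → (∀ l, (d l : ℝ) ≤ ω * Λ) →
      (∀ l, degreeOf l P ≤ d l) → P ≠ 0 → Real.log (L1 P) ≤ ω * Λ →
      IndGE (fun l => 1 / (d l : ℝ)) (fun l => (x l : ℚ) / y l) t P → t ≤ ζ := by
  classical
  have hζ2 : 0 < ζ ^ 2 := by positivity
  obtain ⟨ζ', hζ'⟩ : ∃ ζ' : ℝ, ζ' = ζ ^ 2 / 64 := ⟨_, rfl⟩
  have hζ'0 : 0 < ζ' := by rw [hζ']; positivity
  obtain ⟨ω', hω'0, hω'1, IH⟩ := ih ζ' hζ'0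
  obtain ⟨ω, hω⟩ : ∃ ω : ℝ, ω = min (ω' / (n + 4)) (ζ ^ 2 / (64 * (n + 4))) := ⟨_, rfl⟩
  have hn4 : (0 : ℝ) < (n : ℝ) + 4 := by positivity
  have hn0 : (0 : ℝ) ≤ (n : ℝ) := Nat.cast_nonneg n
  have hω0 : 0 < ω := by rw [hω]; exact lt_min (by positivity) (by positivity)
  have hωa : ω * (n + 4) ≤ ω' := by
    have : ω ≤ ω' / (n + 4) := by rw [hω]; exact min_le_left _ _
    rwa [le_div_iff₀ hn4] at this
  have hωb : ω * (n + 4) ≤ ζ ^ 2 / 64 := by
    have : ω ≤ ζ ^ 2 / (64 * (n + 4)) := by rw [hω]; exact min_le_right _ _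
    rw [← div_div, le_div_iff₀ hn4] at this
    exact this
  have hωω' : ω ≤ ω' := by nlinarith
  have hω4 : 4 * ω ≤ ζ ^ 2 / 64 := by nlinarith
  have hωζ : ω ≤ ζ / 256 := by nlinarith
  refine ⟨ω, hω0, hωω'.trans hω'1, ?_⟩
  intro d x y Λ P t hΛ hd hdd hxy hy hht hdΛ hdeg hP hL hind
  by_contra hcon
  rw [not_le] at hcon
  obtain ⟨Θ, hΘ⟩ : ∃ Θ : ℝ, Θ = t - ω := ⟨_, rfl⟩
  have hΘζ : 3 * ζ / 4 < Θ := by rw [hΘ]; linarith
  obtain ⟨k, hk1, hkd, i, hi, U, V, hU, hV, hfac⟩ :=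
    wronskian_factor P hP (d 0) (hdeg 0)
  obtain ⟨M, hM⟩ : ∃ M : Matrix (Fin k) (Fin k) (MvPolynomial (Fin (n + 1)) ℤ),
    M = Matrix.of fun r s : Fin k => hD (Finsupp.cons (s : ℕ) (i r)) P := ⟨_, rfl⟩
  have hMrs : ∀ r s, M r s = hD (Finsupp.cons (s : ℕ) (i r)) P := fun r s => by rw [hM]; rfl
  rw [← hM] at hfac
  obtain ⟨U', V', c, hc, hU', hV', hcW, hLU, hLV, hdegU⟩ := slices M.det U V hU hV hfac
  have hk0 : (0 : ℝ) < k := by exact_mod_cast hk1
  have hk1' : (1 : ℝ) ≤ k := by exact_mod_cast hk1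
  have hkd' : (k : ℝ) - 1 ≤ d 0 := by
    have : (k : ℝ) ≤ (d 0 : ℝ) + 1 := by exact_mod_cast hkd
    linarith
  have hd0 : ∀ l, (0 : ℝ) < d l := fun l => by exact_mod_cast hd l
  -- (a) the index of the determinant
  have hentry : ∀ (r s : Fin k), IndGE (fun l => 1 / (d l : ℝ)) (fun l => (x l : ℚ) / y l)
      (max 0 (Θ - ((s : ℕ) : ℝ) / d 0)) (M r s) := by
    intro r s
    rcases max_cases (0 : ℝ) (Θ - ((s : ℕ) : ℝ) / d 0) with ⟨h, _⟩ | ⟨h, _⟩
    · rw [h]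
      exact IndGE.of_nonpos (fun l => by positivity) le_rfl
    · rw [h, hMrs]
      refine IndGE.mono (hind.hD _) ?_
      rw [Fin.sum_univ_succ]
      simp only [Finsupp.cons_zero, Finsupp.cons_succ]
      have h1 : ∑ l : Fin n, ((i r l : ℕ) : ℝ) * (1 / (d l.succ : ℝ)) ≤ ω := by
        calc ∑ l : Fin n, ((i r l : ℕ) : ℝ) * (1 / (d l.succ : ℝ))
            ≤ ∑ l : Fin n, ((i r l : ℕ) : ℝ) * (ω / d 0) := by
              apply Finset.sum_le_sum
              intro l _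
              apply mul_le_mul_of_nonneg_left _ (Nat.cast_nonneg _)
              rw [div_le_div_iff₀ (hd0 _) (hd0 _), one_mul]
              exact hdd 0 l.succ (Fin.succ_pos l)
          _ = ((∑ l : Fin n, i r l : ℕ) : ℝ) * (ω / d 0) := by
              rw [Nat.cast_sum, Finset.sum_mul]
          _ ≤ (d 0 : ℝ) * (ω / d 0) := by
              apply mul_le_mul_of_nonneg_right _ (div_nonneg hω0.le (hd0 0).le)
              have h2 : (((∑ l : Fin n, i r l : ℕ)) : ℝ) ≤ ((r : ℕ) : ℝ) := by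
                exact_mod_cast hi r
              have h3 : ((r : ℕ) : ℝ) + 1 ≤ k := by exact_mod_cast r.2
              linarith
          _ = ω := mul_div_cancel₀ _ (hd0 0).ne'
      have h2 : ((s : ℕ) : ℝ) * (1 / (d 0 : ℝ)) = ((s : ℕ) : ℝ) / d 0 := by ring
      rw [h2, hΘ]
      linarith
  have hdet := IndGE.det M _ hentry
  have hdet' : IndGE (fun l => 1 / (d l : ℝ)) (fun l => (x l : ℚ) / y l)
      (k * (9 / 64 * ζ ^ 2)) M.det := by
    refine hdet.mono (le_trans ?_ (sum_max_ge k (d 0) hk1 (hd 0) hkd Θ (by linarith)))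
    apply mul_le_mul_of_nonneg_left _ hk0.le
    apply le_min
    · nlinarith
    · nlinarith
  -- (b) the size of the determinant
  have hB : ∀ r s, L1 (M r s) ≤ 2 ^ (∑ l, d l) * L1 P := fun r s => by
    rw [hMrs]
    exact L1_hD_le _ P d hdeg
  have hW0 : M.det ≠ 0 := by
    intro h
    rw [h, mul_zero] at hcW
    have h1 : 1 ≤ L1 U' := one_le_L1 hU'
    have h2 := hLU
    rw [h] at h2
    have h3 : L1 (0 : MvPolynomial (Fin (n + 1)) ℤ) = 0 := by
      unfold L1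
      rw [MvPolynomial.support_zero, Finset.sum_empty]
    rw [h3] at h2
    linarith
  have hL1P : 1 ≤ L1 P := one_le_L1 hP
  have hLW : Real.log (L1 M.det) ≤ k * ((n + 3) * (ω * Λ)) := by
    have h1 := L1_det_le M _ hB
    have h2 : Real.log (L1 M.det) ≤
        Real.log ((k.factorial : ℝ) * (2 ^ (∑ l, d l) * L1 P) ^ k) :=
      Real.log_le_log (by linarith [one_le_L1 hW0]) h1
    rw [Real.log_mul (by positivity) (by positivity), Real.log_pow,
      Real.log_mul (by positivity) (by positivity), Real.log_pow] at h2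
    have h3 := roth_log_factorial k hk1
    have h4 : ((∑ l, d l : ℕ) : ℝ) ≤ (n + 1) * (ω * Λ) := by
      rw [Nat.cast_sum]
      calc ∑ l, (d l : ℝ) ≤ ∑ l : Fin (n + 1), ω * Λ := Finset.sum_le_sum fun l _ => hdΛ l
        _ = (n + 1) * (ω * Λ) := by
            rw [Finset.sum_const, Finset.card_univ, Fintype.card_fin, nsmul_eq_mul]
            push_cast
            ring
    have h5 : Real.log 2 ≤ 1 := by
      have := Real.log_two_lt_d9
      linarith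
    have h6 : (0 : ℝ) ≤ ((∑ l, d l : ℕ) : ℝ) := Nat.cast_nonneg _
    have h7 : ((∑ l, d l : ℕ) : ℝ) * Real.log 2 ≤ (n + 1) * (ω * Λ) := by
      calc ((∑ l, d l : ℕ) : ℝ) * Real.log 2 ≤ ((∑ l, d l : ℕ) : ℝ) * 1 :=
            mul_le_mul_of_nonneg_left h5 h6
        _ ≤ _ := by rw [mul_one]; exact h4
    have h8 : (k : ℝ) - 1 ≤ ω * Λ := hkd'.trans (hdΛ 0)
    calc Real.log (L1 M.det) ≤ Real.log (k.factorial : ℝ) +
          k * (((∑ l, d l : ℕ) : ℝ) * Real.log 2 + Real.log (L1 P)) := h2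
      _ ≤ k * (ω * Λ) + k * ((n + 1) * (ω * Λ) + ω * Λ) := by
          apply add_le_add
          · exact h3.trans (mul_le_mul_of_nonneg_left h8 hk0.le)
          · exact mul_le_mul_of_nonneg_left (add_le_add h7 hL) hk0.le
      _ = k * ((n + 3) * (ω * Λ)) := by ring
  -- (c) the degrees of the determinant
  have hdegW : ∀ l, degreeOf l M.det ≤ k * d l := fun l => by
    apply degreeOf_det_le
    intro r s
    rw [hMrs]
    exact (degreeOf_hD_le _ _ _).trans ((Nat.sub_le _ _).trans (hdeg l))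
  have hωΛ : 0 < ω * Λ := mul_pos hω0 hΛ
  -- (d) the induction hypothesis
  have hnot : ¬ IndGE (fun l : Fin n => 1 / ((k * d l.succ : ℕ) : ℝ))
      (fun l : Fin n => (x l.succ : ℚ) / y l.succ) (2 * ζ') U' := by
    intro h
    have h1 := IH (fun l => k * d l.succ) (fun l => x l.succ) (fun l => y l.succ) (k * Λ) U'
      (2 * ζ') (by positivity) (fun l => Nat.mul_pos hk1 (hd _)) (fun l l' hll => by
        push_cast
        have h1 := hdd l.succ l'.succ (Fin.succ_lt_succ_iff.mpr hll)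
        have h2 : (d l.succ : ℝ) ≤ ω' * d l'.succ :=
          h1.trans (mul_le_mul_of_nonneg_right hωω' (hd0 _).le)
        calc (k : ℝ) * d l.succ ≤ k * (ω' * d l'.succ) := mul_le_mul_of_nonneg_left h2 hk0.le
          _ = ω' * (k * d l'.succ) := by ring) (fun l => hxy _) (fun l => hy _)
      (fun l => by
        push_cast
        rw [mul_assoc]
        exact mul_le_mul_of_nonneg_left (hht _) hk0.le)
      (fun l => by
        push_cast
        have h2 : (d l.succ : ℝ) ≤ ω' * Λ :=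
          (hdΛ _).trans (mul_le_mul_of_nonneg_right hωω' hΛ.le)
        calc (k : ℝ) * d l.succ ≤ k * (ω' * Λ) := mul_le_mul_of_nonneg_left h2 hk0.le
          _ = ω' * (k * Λ) := by ring)
      (fun l => (hdegU l).trans (hdegW _)) hU'
      (by
        have h2 : Real.log (L1 U') ≤ Real.log (L1 M.det) :=
          Real.log_le_log (by linarith [one_le_L1 hU']) hLU
        refine h2.trans (hLW.trans ?_)
        have h3 : ((n : ℝ) + 3) * ω ≤ ω' := by nlinarith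
        calc (k : ℝ) * ((n + 3) * (ω * Λ)) = k * (((n + 3) * ω) * Λ) := by ring
          _ ≤ k * (ω' * Λ) := mul_le_mul_of_nonneg_left
              (mul_le_mul_of_nonneg_right h3 hΛ.le) hk0.le
          _ = ω' * (k * Λ) := by ring) h
    linarith
  unfold IndGE at hnot
  push Not at hnot
  obtain ⟨i', hi', hUi⟩ := hnot
  -- (e) the variable 0
  obtain ⟨j, hj, hjL⟩ := one_var V' hV' (x 0) (y 0) (hxy 0) (hy 0)
  have hht0 : 1 ≤ ht (x 0) (y 0) := by
    unfold ht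
    refine le_max_of_le_right ?_
    rw [← Int.cast_abs]
    exact_mod_cast Int.one_le_abs (hy 0)
  have hjd : (j : ℝ) / d 0 ≤ k * ((n + 3) * ω) := by
    have h1 : (j : ℝ) * Real.log (ht (x 0) (y 0)) ≤ k * ((n + 3) * (ω * Λ)) := by
      rw [← Real.log_pow]
      exact (Real.log_le_log (by positivity) (hjL.trans hLV)).trans hLW
    have h2 : Λ / d 0 ≤ Real.log (ht (x 0) (y 0)) := by
      rw [div_le_iff₀ (hd0 0), mul_comm]
      exact hht 0
    have h3 : (j : ℝ) * (Λ / d 0) ≤ k * ((n + 3) * (ω * Λ)) :=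
      (mul_le_mul_of_nonneg_left h2 (Nat.cast_nonneg j)).trans h1
    have h4 : (j : ℝ) / d 0 * Λ ≤ k * ((n + 3) * ω) * Λ := by
      calc (j : ℝ) / d 0 * Λ = (j : ℝ) * (Λ / d 0) := by ring
        _ ≤ _ := h3
        _ = k * ((n + 3) * ω) * Λ := by ring
    exact le_of_mul_le_mul_right h4 hΛ
  -- (f) the contradiction
  have hne : aeval (fun l => (x l : ℚ) / y l) (hD (Finsupp.cons j i') M.det) ≠ 0 := by
    intro h
    have h1 := aeval_split (fun l => (x l : ℚ) / y l) i' j U' V'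
    rw [← hcW, hD_C_mul, map_mul, h, mul_zero] at h1
    exact (mul_ne_zero hUi hj) h1.symm
  have hge : k * (9 / 64 * ζ ^ 2) ≤
      ∑ l, ((Finsupp.cons j i' : Fin (n + 1) →₀ ℕ) l : ℝ) * (1 / (d l : ℝ)) := by
    by_contra h
    rw [not_le] at h
    exact hne (hdet' _ h)
  rw [Fin.sum_univ_succ] at hge
  simp only [Finsupp.cons_zero, Finsupp.cons_succ] at hge
  have h1 : ∑ l : Fin n, ((i' l : ℕ) : ℝ) * (1 / (d l.succ : ℝ)) =
      k * ∑ l : Fin n, ((i' l : ℕ) : ℝ) * (1 / ((k * d l.succ : ℕ) : ℝ)) := by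
    rw [Finset.mul_sum]
    apply Finset.sum_congr rfl
    intro l _
    push_cast
    have := (hd0 l.succ).ne'
    field_simp
  rw [h1] at hge
  have h2 : (j : ℝ) * (1 / (d 0 : ℝ)) = (j : ℝ) / d 0 := by ring
  rw [h2] at hge
  have h3 : k * ∑ l : Fin n, ((i' l : ℕ) : ℝ) * (1 / ((k * d l.succ : ℕ) : ℝ)) <
      k * (2 * ζ') := mul_lt_mul_of_pos_left hi' hk0
  have h4 : (k : ℝ) * (9 / 64 * ζ ^ 2) < k * ((n + 3) * ω + 2 * ζ') := by
    calc (k : ℝ) * (9 / 64 * ζ ^ 2) ≤ _ := hge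
      _ < k * ((n + 3) * ω) + k * (2 * ζ') := add_lt_add_of_le_of_lt hjd h3
      _ = k * ((n + 3) * ω + 2 * ζ') := by ring
  have h5 := lt_of_mul_lt_mul_left h4 hk0.le
  rw [hζ'] at h5
  nlinarith

theorem roth (n : ℕ) (ζ : ℝ) (hζ : 0 < ζ) : ∃ ω : ℝ, 0 < ω ∧ ω ≤ 1 ∧
    ∀ (d : Fin n → ℕ) (x y : Fin n → ℤ) (Λ : ℝ) (P : MvPolynomial (Fin n) ℤ) (t : ℝ), 0 < Λ →
      (∀ l, 1 ≤ d l) → (∀ l l', l < l' → (d l : ℝ) ≤ ω * d l') →
      (∀ l, IsCoprime (x l) (y l)) → (∀ l, y l ≠ 0) →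
      (∀ l, Λ ≤ d l * Real.log (ht (x l) (y l))) → (∀ l, (d l : ℝ) ≤ ω * Λ) →
      (∀ l, degreeOf l P ≤ d l) → P ≠ 0 → Real.log (L1 P) ≤ ω * Λ →
      IndGE (fun l => 1 / (d l : ℝ)) (fun l => (x l : ℚ) / y l) t P → t ≤ ζ := by
  induction n generalizing ζ with
  | zero =>
    refine ⟨1, one_pos, le_rfl, ?_⟩
    intro d x y Λ P t _ _ _ _ _ _ _ _ hP _ hind
    by_contra hcon
    rw [not_le] at hcon
    have h1 := hind 0 (by
      rw [Finset.univ_eq_empty, Finset.sum_empty]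
      linarith)
    rw [hD_index_zero] at h1
    obtain ⟨c, rfl⟩ := MvPolynomial.C_surjective (Fin 0) P
    rw [MvPolynomial.aeval_C] at h1
    apply hP
    have h2 : c = 0 := by
      have : ((c : ℤ) : ℚ) = 0 := by simpa using h1
      exact_mod_cast this
    rw [h2, map_zero]
  | succ n ih =>
    obtain ⟨ω, h0, h1, h2⟩ := roth_step n ih (min ζ 1) (lt_min hζ one_pos) (min_le_right _ _)
    refine ⟨ω, h0, h1, ?_⟩
    intro d x y Λ P t a1 a2 a3 a4 a5 a6 a7 a8 a9 a10 a11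
    exact (h2 d x y Λ P t a1 a2 a3 a4 a5 a6 a7 a8 a9 a10 a11).trans (min_le_left _ _)

end Pool.Agent.Helper42.RD
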