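import Mathlib
import Pool.Agent.Helper42.RD.Defs

/-!
# RD-14 (Count): exponents far from the middle

`card_box`: `Fintype.card_piFinset`, `d + 1 ≤ 2 ^ d`. `box_low` (Chernoff): with `λ = 4 ε` each
`j` in the filtered set has `1 ≤ exp (λ ∑ l, (1/2 - j l / d l) - λ ε m)`, so the number is at
most `exp (- λ ε m) * ∏ l, ∑ j ∈ range (d l + 1), exp (λ (1/2 - j / d l))`
(`Finset.prod_univ_sum`). Pairing `j` with `d l - j` (`Finset.sum_range_reflect`) the inner sum is
`∑ j, cosh (λ (1/2 - j / d l)) ≤ (d l + 1) * exp (λ ^ 2 / 8)` (`Real.cosh_le_exp_half_sq`,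
`|1/2 - j / d l| ≤ 1/2`). Altogether `exp (- 4 ε ^ 2 m + 2 ε ^ 2 m)`. `box_high`: the same with the
other sign, or from `box_low` by the reflection `j l ↦ d l - j l`.
-/

set_option autoImplicit false

namespace Pool.Agent.Helper42.RD

open MvPolynomial Finset

theorem card_box {m : ℕ} (d : Fin m → ℕ) :
    (box d).card = ∏ l, (d l + 1) ∧ (box d).card ≤ 2 ^ (∑ l, d l) := by
  have h1 : (box d).card = ∏ l, (d l + 1) := by
    unfold box
    rw [Fintype.card_piFinset]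
    simp
  refine ⟨h1, ?_⟩
  rw [h1, ← Finset.prod_pow_eq_pow_sum]
  exact Finset.prod_le_prod' fun l _ => Nat.lt_two_pow_self

/-- one factor of the moment generating function -/
theorem sum_exp_le (d : ℕ) (hd : 1 ≤ d) (μ : ℝ) :
    ∑ i ∈ range (d + 1), Real.exp (μ * ((i : ℝ) / d - 1 / 2)) ≤
      ((d : ℝ) + 1) * Real.exp (μ ^ 2 / 8) := by
  have hd0 : (0 : ℝ) < d := by exact_mod_cast hd
  have hrefl : ∑ i ∈ range (d + 1), Real.exp (-(μ * ((i : ℝ) / d - 1 / 2))) =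
      ∑ i ∈ range (d + 1), Real.exp (μ * ((i : ℝ) / d - 1 / 2)) := by
    rw [← Finset.sum_range_reflect]
    refine Finset.sum_congr rfl fun i hi => ?_
    have hi' : i ≤ d := Nat.lt_succ_iff.1 (Finset.mem_range.1 hi)
    have h1 : d + 1 - 1 - i = d - i := by omega
    rw [h1, Nat.cast_sub hi']
    congr 1
    field_simp
    ring
  have hcosh : ∀ i ∈ range (d + 1), Real.exp (μ * ((i : ℝ) / d - 1 / 2)) +
      Real.exp (-(μ * ((i : ℝ) / d - 1 / 2))) ≤ 2 * Real.exp (μ ^ 2 / 8) := by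
    intro i hi
    have hi' : (i : ℝ) ≤ d := by exact_mod_cast Nat.lt_succ_iff.1 (Finset.mem_range.1 hi)
    have h1 := Real.cosh_le_exp_half_sq (μ * ((i : ℝ) / d - 1 / 2))
    rw [Real.cosh_eq] at h1
    have h2 : (i : ℝ) / d ≤ 1 := (div_le_one hd0).2 hi'
    have h3 : 0 ≤ (i : ℝ) / d := by positivity
    have h4 : ((i : ℝ) / d - 1 / 2) ^ 2 ≤ 1 / 4 := by nlinarith
    have h5 : (μ * ((i : ℝ) / d - 1 / 2)) ^ 2 / 2 ≤ μ ^ 2 / 8 := by
      rw [mul_pow]
      nlinarith [sq_nonneg μ]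
    have h6 := Real.exp_le_exp.2 h5
    linarith
  have hsum := Finset.sum_le_sum hcosh
  rw [Finset.sum_add_distrib, hrefl, Finset.sum_const, card_range, nsmul_eq_mul] at hsum
  push_cast at hsum
  linarith

/-- the Chernoff bound -/
theorem chernoff {m : ℕ} (d : Fin m → ℕ) (hd : ∀ l, 1 ≤ d l) (ε s : ℝ) (hε : 0 < ε)
    (hs : s ^ 2 = 1) :
    (((box d).filter fun j => ε * m < s * ∑ l, ((j l : ℝ) / d l - 1 / 2)).card : ℝ) ≤
      Real.exp (-2 * ε ^ 2 * m) * (box d).card := by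
  have h1 : (((box d).filter fun j => ε * m < s * ∑ l, ((j l : ℝ) / d l - 1 / 2)).card : ℝ) ≤
      ∑ j ∈ box d, Real.exp (-(4 * ε ^ 2 * m)) *
        ∏ l, Real.exp (4 * ε * s * ((j l : ℝ) / d l - 1 / 2)) := by
    rw [Finset.card_eq_sum_ones, Nat.cast_sum]
    calc ∑ j ∈ (box d).filter fun j => ε * m < s * ∑ l, ((j l : ℝ) / d l - 1 / 2),
          ((1 : ℕ) : ℝ)
        ≤ ∑ j ∈ (box d).filter fun j => ε * m < s * ∑ l, ((j l : ℝ) / d l - 1 / 2),
          Real.exp (-(4 * ε ^ 2 * m)) *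
            ∏ l, Real.exp (4 * ε * s * ((j l : ℝ) / d l - 1 / 2)) := by
          refine Finset.sum_le_sum fun j hj => ?_
          have hj' := (Finset.mem_filter.1 hj).2
          rw [← Real.exp_sum, ← Real.exp_add, ← Finset.mul_sum, Nat.cast_one]
          apply Real.one_le_exp
          have h2 : 4 * ε * (ε * m) ≤ 4 * ε * (s * ∑ l, ((j l : ℝ) / d l - 1 / 2)) :=
            mul_le_mul_of_nonneg_left hj'.le (by positivity)
          nlinarith
      _ ≤ _ := by
          refine Finset.sum_le_sum_of_subset_of_nonneg (Finset.filter_subset _ _) ?_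
          intro j _ _
          positivity
  refine h1.trans ?_
  rw [← Finset.mul_sum]
  have h2 : ∑ j ∈ box d, ∏ l, Real.exp (4 * ε * s * ((j l : ℝ) / d l - 1 / 2)) =
      ∏ l, ∑ i ∈ range (d l + 1), Real.exp (4 * ε * s * ((i : ℝ) / d l - 1 / 2)) := by
    unfold box
    rw [Finset.prod_univ_sum]
  rw [h2]
  have h3 : ∏ l, ∑ i ∈ range (d l + 1), Real.exp (4 * ε * s * ((i : ℝ) / d l - 1 / 2)) ≤
      ∏ l : Fin m, (((d l : ℝ) + 1) * Real.exp ((4 * ε * s) ^ 2 / 8)) := by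
    refine Finset.prod_le_prod (fun l _ => ?_) (fun l _ => sum_exp_le (d l) (hd l) _)
    positivity
  have h4 : ∏ l : Fin m, (((d l : ℝ) + 1) * Real.exp ((4 * ε * s) ^ 2 / 8)) =
      ((box d).card : ℝ) * Real.exp (2 * ε ^ 2 * m) := by
    rw [Finset.prod_mul_distrib, Finset.prod_const, card_univ, Fintype.card_fin, (card_box d).1,
      ← Real.exp_nat_mul]
    push_cast
    congr 2
    rw [show (4 * ε * s) ^ 2 = 16 * ε ^ 2 * s ^ 2 by ring, hs]
    ring
  calc Real.exp (-(4 * ε ^ 2 * m)) *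
        ∏ l, ∑ i ∈ range (d l + 1), Real.exp (4 * ε * s * ((i : ℝ) / d l - 1 / 2))
      ≤ Real.exp (-(4 * ε ^ 2 * m)) * (((box d).card : ℝ) * Real.exp (2 * ε ^ 2 * m)) := by
        rw [← h4]
        exact mul_le_mul_of_nonneg_left h3 (Real.exp_pos _).le
    _ = Real.exp (-2 * ε ^ 2 * m) * (box d).card := by
        rw [mul_comm ((box d).card : ℝ), ← mul_assoc, ← Real.exp_add]
        congr 2
        ring

theorem sum_half {m : ℕ} (d : Fin m → ℕ) (j : Fin m → ℕ) :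
    ∑ l, ((j l : ℝ) / d l - 1 / 2) = ∑ l, (j l : ℝ) / d l - m / 2 := by
  rw [Finset.sum_sub_distrib, Finset.sum_const, card_univ, Fintype.card_fin, nsmul_eq_mul]
  ring

theorem box_low {m : ℕ} (d : Fin m → ℕ) (hd : ∀ l, 1 ≤ d l) (ε : ℝ) (hε : 0 < ε) :
    (((box d).filter fun j => ∑ l, (j l : ℝ) / d l < (1 / 2 - ε) * m).card : ℝ) ≤
      Real.exp (-2 * ε ^ 2 * m) * (box d).card := by
  have h := chernoff d hd ε (-1) hε (by norm_num)
  have h1 : ((box d).filter fun j => ∑ l, (j l : ℝ) / d l < (1 / 2 - ε) * m) =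
      ((box d).filter fun j => ε * m < (-1) * ∑ l, ((j l : ℝ) / d l - 1 / 2)) := by
    apply Finset.filter_congr
    intro j _
    rw [sum_half]
    constructor <;> intro h2 <;> linarith
  rw [h1]
  exact h

theorem box_high {m : ℕ} (d : Fin m → ℕ) (hd : ∀ l, 1 ≤ d l) (ε : ℝ) (hε : 0 < ε) :
    (((box d).filter fun j => (1 / 2 + ε) * m < ∑ l, (j l : ℝ) / d l).card : ℝ) ≤
      Real.exp (-2 * ε ^ 2 * m) * (box d).card := by
  have h := chernoff d hd ε 1 hε (by norm_num)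
  have h1 : ((box d).filter fun j => (1 / 2 + ε) * m < ∑ l, (j l : ℝ) / d l) =
      ((box d).filter fun j => ε * m < 1 * ∑ l, ((j l : ℝ) / d l - 1 / 2)) := by
    apply Finset.filter_congr
    intro j _
    rw [sum_half]
    constructor <;> intro h2 <;> linarith
  rw [h1]
  exact h

end Pool.Agent.Helper42.RD
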