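import Mathlib
import Pool.Agent.Helper42.RD.Defs
import Pool.Agent.Helper42.RD.Norm
import Pool.Agent.Helper42.RD.Hasse
import Pool.Agent.Helper42.RD.Count

/-!
# RD-15 (Siegel): the auxiliary polynomial

Unknowns: the coefficients at the `j` in `Mid` = the `j ∈ box d` with
`(1/2 - ε) m ≤ ∑ j l / d l ≤ (1/2 + ε) m`; by `box_low`, `box_high` `#Mid ≥ (3/4) #box`. Equations:
for `i` in `Low` = the `i ∈ box d` with `∑ i l / d l < (1/2 - ε) m`, `#Low ≤ (1/8) #box`, the value at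
`(1, ..., 1)` of `hD i P`, that is `∑_{j ∈ Mid} (∏ l, (j l).choose (i l)) c_j = 0` (from the definition
of `hD`; for exponents `i` outside the box `hD i P = 0` by `hD_eq_zero`). `0 ∈ Low`. The entries are at
most `2 ^ ∑ d`. Siegel's lemma `Int.Matrix.exists_ne_zero_int_vec_norm_le` (exponent
`#Low / (#Mid - #Low) ≤ 1`) gives `‖c‖ ≤ #Mid * 2 ^ ∑ d ≤ 4 ^ ∑ d`, and
`L1 P ≤ #Mid * ‖c‖ ≤ 8 ^ ∑ d`. (The index types of the matrix are the subtypes of `Low`, `Mid`;
exponents as functions `Fin m → ℕ` correspond to `Fin m →₀ ℕ` by `Finsupp.equivFunOnFinite`.)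
-/

set_option autoImplicit false

namespace Pool.Agent.Helper42.RD

open MvPolynomial Finset

attribute [local instance] Matrix.seminormedAddCommGroup

/-- the exponents in the middle layer -/
private noncomputable def mid {m : ℕ} (d : Fin m → ℕ) (ε : ℝ) : Finset (Fin m → ℕ) :=
  (box d).filter fun j => (1 / 2 - ε) * m ≤ ∑ l, (j l : ℝ) / d l ∧
    ∑ l, (j l : ℝ) / d l ≤ (1 / 2 + ε) * m

/-- the exponents in the lower layer -/
private noncomputable def low {m : ℕ} (d : Fin m → ℕ) (ε : ℝ) : Finset (Fin m → ℕ) :=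
  (box d).filter fun j => ∑ l, (j l : ℝ) / d l < (1 / 2 - ε) * m

private theorem card_low_le {m : ℕ} (d : Fin m → ℕ) (hd : ∀ l, 1 ≤ d l) (ε : ℝ) (hε : 0 < ε)
    (hm' : Real.exp (-2 * ε ^ 2 * m) ≤ 1 / 8) :
    ((low d ε).card : ℝ) ≤ 1 / 8 * (box d).card :=
  (box_low d hd ε hε).trans (mul_le_mul_of_nonneg_right hm' (Nat.cast_nonneg _))

private theorem le_card_mid {m : ℕ} (d : Fin m → ℕ) (hd : ∀ l, 1 ≤ d l) (ε : ℝ) (hε : 0 < ε)
    (hm' : Real.exp (-2 * ε ^ 2 * m) ≤ 1 / 8) :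
    3 / 4 * ((box d).card : ℝ) ≤ (mid d ε).card := by
  classical
  have h1 := card_low_le d hd ε hε hm'
  have h2 := (box_high d hd ε hε).trans (mul_le_mul_of_nonneg_right hm' (Nat.cast_nonneg _))
  have h3 : box d ⊆ (low d ε ∪ (box d).filter fun j => (1 / 2 + ε) * m < ∑ l, (j l : ℝ) / d l) ∪
      mid d ε := by
    intro j hj
    rcases lt_or_ge (∑ l, (j l : ℝ) / d l) ((1 / 2 - ε) * m) with h | h
    · exact Finset.mem_union_left _ (Finset.mem_union_left _ (Finset.mem_filter.2 ⟨hj, h⟩))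
    · rcases lt_or_ge ((1 / 2 + ε) * m) (∑ l, (j l : ℝ) / d l) with h' | h'
      · exact Finset.mem_union_left _ (Finset.mem_union_right _ (Finset.mem_filter.2 ⟨hj, h'⟩))
      · exact Finset.mem_union_right _ (Finset.mem_filter.2 ⟨hj, h, h'⟩)
  have h4 := (Finset.card_le_card h3).trans (Finset.card_union_le _ _)
  have h5 := Finset.card_union_le (low d ε)
    ((box d).filter fun j => (1 / 2 + ε) * m < ∑ l, (j l : ℝ) / d l)
  have h6 : ((box d).card : ℝ) ≤ (low d ε).card +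
      ((box d).filter fun j => (1 / 2 + ε) * m < ∑ l, (j l : ℝ) / d l).card +
      (mid d ε).card := by
    exact_mod_cast h4.trans (Nat.add_le_add_right h5 _)
  linarith

private theorem zero_mem_low {m : ℕ} (hm : 1 ≤ m) (d : Fin m → ℕ) (ε : ℝ) (hε' : ε < 1 / 2) :
    (0 : Fin m → ℕ) ∈ low d ε := by
  unfold low box
  rw [Finset.mem_filter, Fintype.mem_piFinset]
  refine ⟨fun l => by simp, ?_⟩
  have h1 : (1 : ℝ) ≤ m := by exact_mod_cast hm
  simp only [Pi.zero_apply, Nat.cast_zero, zero_div, Finset.sum_const_zero]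
  exact mul_pos (by linarith) (by linarith)

/-- a solution of the linear system -/
private theorem exists_coeff {m : ℕ} (hm : 1 ≤ m) (d : Fin m → ℕ) (hd : ∀ l, 1 ≤ d l) (ε : ℝ)
    (hε : 0 < ε) (hε' : ε < 1 / 2) (hm' : Real.exp (-2 * ε ^ 2 * m) ≤ 1 / 8) :
    ∃ c : (Fin m → ℕ) → ℤ, (∃ j ∈ mid d ε, c j ≠ 0) ∧ (∀ j, j ∉ mid d ε → c j = 0) ∧
      (∀ i ∈ low d ε, ∑ j ∈ mid d ε, ((∏ l, (j l).choose (i l) : ℕ) : ℤ) * c j = 0) ∧
      (∀ j, |((c j : ℤ) : ℝ)| ≤ 2 ^ (∑ l, d l) * 2 ^ (∑ l, d l)) := by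
  classical
  have hlow := card_low_le d hd ε hε hm'
  have hmid := le_card_mid d hd ε hε hm'
  have hlow0 : 0 < (low d ε).card := Finset.card_pos.2 ⟨_, zero_mem_low hm d ε hε'⟩
  have hlow0' : (0 : ℝ) < (low d ε).card := by exact_mod_cast hlow0
  have hbox0 : (0 : ℝ) < (box d).card := by linarith
  have hlt : (low d ε).card < (mid d ε).card := by
    have : ((low d ε).card : ℝ) < (mid d ε).card := by linarith
    exact_mod_cast this
  let A : Matrix (low d ε) (mid d ε) ℤ := fun i j => ((∏ l, (j.1 l).choose (i.1 l) : ℕ) : ℤ)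
  have hα : Fintype.card (low d ε) = (low d ε).card := Fintype.card_coe _
  have hβ : Fintype.card (mid d ε) = (mid d ε).card := Fintype.card_coe _
  obtain ⟨t, ht0, htA, htn⟩ := Int.Matrix.exists_ne_zero_int_vec_norm_le A
    (by rw [hα, hβ]; exact hlt) (by rw [hα]; exact hlow0)
  have hA : ‖A‖ ≤ 2 ^ (∑ l, d l) := by
    rw [Matrix.norm_le_iff (by positivity)]
    intro i j
    have h1 : ‖A i j‖ = |((A i j : ℤ) : ℝ)| := Int.norm_eq_abs _
    rw [h1]
    change |((((∏ l, (j.1 l).choose (i.1 l) : ℕ) : ℤ)) : ℝ)| ≤ _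
    rw [Int.cast_natCast, abs_of_nonneg (Nat.cast_nonneg _)]
    have h2 : ∏ l, (j.1 l).choose (i.1 l) ≤ 2 ^ (∑ l, d l) := by
      rw [← Finset.prod_pow_eq_pow_sum]
      refine Finset.prod_le_prod' fun l _ => ?_
      have h3 : j.1 ∈ box d := (Finset.mem_filter.1 j.2).1
      have h4 : j.1 l ≤ d l := Nat.lt_succ_iff.1
        (Finset.mem_range.1 (Fintype.mem_piFinset.1 h3 l))
      exact (Nat.choose_le_two_pow _ _).trans (Nat.pow_le_pow_right (by norm_num) h4)
    exact_mod_cast h2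
  have hone : (1 : ℝ) ≤ 2 ^ (∑ l, d l) := one_le_pow₀ (by norm_num)
  have hmax : max 1 ‖A‖ ≤ 2 ^ (∑ l, d l) := max_le hone hA
  have hmidle : ((mid d ε).card : ℝ) ≤ 2 ^ (∑ l, d l) := by
    have h1 : (mid d ε).card ≤ 2 ^ (∑ l, d l) :=
      (Finset.card_le_card (Finset.filter_subset _ _)).trans (card_box d).2
    exact_mod_cast h1
  have hmid1 : (1 : ℝ) ≤ (mid d ε).card := by
    have : 1 ≤ (mid d ε).card := by omega
    exact_mod_cast this
  have hbase : (1 : ℝ) ≤ (mid d ε).card * max 1 ‖A‖ :=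
    one_le_mul_of_one_le_of_one_le hmid1 (le_max_left _ _)
  have hexp : ((low d ε).card : ℝ) / ((mid d ε).card - (low d ε).card) ≤ 1 := by
    rw [div_le_one (by linarith)]
    linarith
  have htn' : ‖t‖ ≤ 2 ^ (∑ l, d l) * 2 ^ (∑ l, d l) := by
    refine htn.trans ?_
    rw [hα, hβ]
    calc ((mid d ε).card * max 1 ‖A‖ : ℝ) ^
          (((low d ε).card : ℝ) / ((mid d ε).card - (low d ε).card))
        ≤ ((mid d ε).card * max 1 ‖A‖ : ℝ) ^ (1 : ℝ) :=
          Real.rpow_le_rpow_of_exponent_le hbase hexp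
      _ = (mid d ε).card * max 1 ‖A‖ := Real.rpow_one _
      _ ≤ _ := mul_le_mul hmidle hmax (by positivity) (by positivity)
  refine ⟨fun j => if h : j ∈ mid d ε then t ⟨j, h⟩ else 0, ?_, ?_, ?_, ?_⟩
  · by_contra hcon
    push Not at hcon
    apply ht0
    funext j
    have h1 := hcon j.1 j.2
    simpa using h1
  · intro j hj
    exact dif_neg hj
  · intro i hi
    have h1 := congrFun htA ⟨i, hi⟩
    rw [Matrix.mulVec, dotProduct, Pi.zero_apply] at h1
    refine Eq.trans ?_ h1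
    rw [← Finset.sum_coe_sort (mid d ε)]
    refine Finset.sum_congr rfl fun j _ => ?_
    have h2 : (if h : (j : Fin m → ℕ) ∈ mid d ε then t ⟨j, h⟩ else 0) = t j := by
      rw [dif_pos j.2]
    beta_reduce
    rw [h2]
  · intro j
    beta_reduce
    by_cases hj : j ∈ mid d ε
    · rw [dif_pos hj]
      have h1 := norm_le_pi_norm t ⟨j, hj⟩
      have h2 : ‖t ⟨j, hj⟩‖ = |((t ⟨j, hj⟩ : ℤ) : ℝ)| := Int.norm_eq_abs _
      rw [h2] at h1
      exact h1.trans htn'
    · rw [dif_neg hj]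
      simp only [Int.cast_zero, abs_zero]
      positivity

private theorem coeff_poly {m : ℕ} (S : Finset (Fin m → ℕ)) (c : (Fin m → ℕ) → ℤ)
    (hc : ∀ j, j ∉ S → c j = 0) (k : Fin m →₀ ℕ) :
    coeff k (∑ j ∈ S, monomial (Finsupp.equivFunOnFinite.symm j) (c j)) = c k := by
  classical
  rw [coeff_sum]
  simp only [coeff_monomial]
  rw [Finset.sum_eq_single (k : Fin m → ℕ)]
  · rw [if_pos]
    ext l
    simp
  · intro j _ hj
    rw [if_neg]
    intro h
    apply hj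
    rw [← h]
    ext l
    simp
  · intro h
    rw [hc _ h]
    simp

theorem aux_poly {m : ℕ} (hm : 1 ≤ m) (d : Fin m → ℕ) (hd : ∀ l, 1 ≤ d l) (ε : ℝ) (hε : 0 < ε)
    (hε' : ε < 1 / 2) (hm' : Real.exp (-2 * ε ^ 2 * m) ≤ 1 / 8) :
    ∃ P : MvPolynomial (Fin m) ℤ, P ≠ 0 ∧ (∀ l, degreeOf l P ≤ d l) ∧
      (∀ j ∈ P.support, (1 / 2 - ε) * m ≤ ∑ l, (j l : ℝ) / d l ∧
        ∑ l, (j l : ℝ) / d l ≤ (1 / 2 + ε) * m) ∧
      (∀ i : Fin m →₀ ℕ, ∑ l, (i l : ℝ) / d l < (1 / 2 - ε) * m →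
        eval (fun _ => (1 : ℤ)) (hD i P) = 0) ∧
      L1 P ≤ 8 ^ (∑ l, d l) := by
  classical
  obtain ⟨c, ⟨j₀, hj₀, hc₀⟩, hc, hlow, hbd⟩ := exists_coeff hm d hd ε hε hε' hm'
  obtain ⟨P, hP⟩ : ∃ P : MvPolynomial (Fin m) ℤ,
    P = ∑ j ∈ mid d ε, monomial (Finsupp.equivFunOnFinite.symm j) (c j) := ⟨_, rfl⟩
  have hco : ∀ k : Fin m →₀ ℕ, coeff k P = c k := fun k => by
    rw [hP]
    exact coeff_poly _ c hc k
  have hsupp : ∀ k ∈ P.support, (k : Fin m → ℕ) ∈ mid d ε := by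
    intro k hk
    by_contra h
    rw [mem_support_iff, hco, hc _ h] at hk
    exact hk rfl
  have hdeg : ∀ l, degreeOf l P ≤ d l := by
    intro l
    rw [degreeOf_le_iff]
    intro k hk
    have h1 := (Finset.mem_filter.1 (hsupp k hk)).1
    exact Nat.lt_succ_iff.1 (Finset.mem_range.1 (Fintype.mem_piFinset.1 h1 l))
  refine ⟨P, ?_, hdeg, ?_, ?_, ?_⟩
  · intro h0
    have h1 := hco (Finsupp.equivFunOnFinite.symm j₀)
    rw [h0, coeff_zero] at h1
    apply hc₀
    have h2 : ((Finsupp.equivFunOnFinite.symm j₀ : Fin m →₀ ℕ) : Fin m → ℕ) = j₀ := by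
      ext l
      simp
    rw [h2] at h1
    exact h1.symm
  · intro k hk
    exact (Finset.mem_filter.1 (hsupp k hk)).2
  · intro i hi
    by_cases hib : (i : Fin m → ℕ) ∈ box d
    · have h1 : (i : Fin m → ℕ) ∈ low d ε := Finset.mem_filter.2 ⟨hib, hi⟩
      rw [hP, hD_sum, map_sum, ← hlow _ h1]
      refine Finset.sum_congr rfl fun j _ => ?_
      rw [hD_monomial, eval_monomial]
      simp
    · have h1 : ∃ l, d l < i l := by
        by_contra hcon
        push Not at hcon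
        apply hib
        unfold box
        rw [Fintype.mem_piFinset]
        intro l
        exact Finset.mem_range.2 (Nat.lt_succ_of_le (hcon l))
      obtain ⟨l, hl⟩ := h1
      rw [hD_eq_zero l i P ((hdeg l).trans_lt hl), map_zero]
  · unfold L1
    have hsub : P.support ⊆ (mid d ε).image
        (fun j => (Finsupp.equivFunOnFinite.symm j : Fin m →₀ ℕ)) := by
      intro k hk
      refine Finset.mem_image.2 ⟨k, hsupp k hk, ?_⟩
      ext l
      simp
    calc ∑ j ∈ P.support, |((coeff j P : ℤ) : ℝ)|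
        ≤ ∑ j ∈ (mid d ε).image (fun j => (Finsupp.equivFunOnFinite.symm j : Fin m →₀ ℕ)),
          |((coeff j P : ℤ) : ℝ)| :=
          Finset.sum_le_sum_of_subset_of_nonneg hsub fun _ _ _ => abs_nonneg _
      _ ≤ ∑ _j ∈ (mid d ε).image (fun j => (Finsupp.equivFunOnFinite.symm j : Fin m →₀ ℕ)),
          ((2 : ℝ) ^ (∑ l, d l) * 2 ^ (∑ l, d l)) :=
          Finset.sum_le_sum fun k _ => by rw [hco]; exact hbd _
      _ = (((mid d ε).image (fun j => (Finsupp.equivFunOnFinite.symm j : Fin m →₀ ℕ))).card : ℝ) *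
          ((2 : ℝ) ^ (∑ l, d l) * 2 ^ (∑ l, d l)) := by
          rw [Finset.sum_const, nsmul_eq_mul]
      _ ≤ 2 ^ (∑ l, d l) * ((2 : ℝ) ^ (∑ l, d l) * 2 ^ (∑ l, d l)) := by
          refine mul_le_mul_of_nonneg_right ?_ (by positivity)
          have h1 : ((mid d ε).image
              (fun j => (Finsupp.equivFunOnFinite.symm j : Fin m →₀ ℕ))).card ≤
              2 ^ (∑ l, d l) :=
            (Finset.card_image_le).trans
              ((Finset.card_le_card (Finset.filter_subset _ _)).trans (card_box d).2)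
          exact_mod_cast h1
      _ = 8 ^ (∑ l, d l) := by
          rw [← mul_pow, ← mul_pow]
          norm_num

end Pool.Agent.Helper42.RD
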