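import Mathlib
import Pool.Agent.Helper42.RD.Defs
import Pool.Agent.Helper42.RD.Norm
import Pool.Agent.Helper42.RD.Hasse
import Pool.Agent.Helper42.RD.Index
import Pool.Agent.Helper42.RD.Count

/-!
# RD-16 (Upper): the integer `NN` and its upper bound

`NN_eq`: termwise from the definitions (if `j l < i l` for some `l` both sides have a zero binomial;
else `y ^ (d - i) (x / y) ^ (j - i) = x ^ (j - i) y ^ (d - j)`).
`NN_taylor`: with `G = hD i0 P` (degrees at most `e l = d l - i0 l`, `degreeOf_hD_le`),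
`G = ∑_i (eval 1 (hD i G)) ∏ (X l - 1) ^ (i l)` (`coeff_taylor` with `β = 1`; substitute
`X l ↦ X l - 1`), hence `∏ y ^ e * G (x / y) = ∑_i (eval 1 (hD i G)) ∏ (x l - y l) ^ (i l) * y l ^ (e l - i l)`
for `y ≠ 0` (use `NN_eq`).
`NN_upper`: in `NN_taylor` `eval 1 (hD i (hD i0 P))` is a multiple of `eval 1 (hD (i + i0) P)`
(`hD_hD`), so it vanishes unless `τ ≤ ∑ (i l + i0 l) / d l`; it is at most
`L1 (hD i (hD i0 P)) ≤ 4 ^ (∑ d) * L1 P`; there are at most `2 ^ ∑ d` terms (`card_box`); and with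
`q l = ht (x l) (y l)`
`∏ |x l - y l| ^ (i l) |y l| ^ (e l - i l) ≤ ∏ q l ^ (ω i l + d l - i0 l - i l)
 ≤ exp (∑ d l log (q l) - (1 - ω) ∑ i l log (q l))`, where `i l log (q l) ≥ D i l / d l`.
-/

set_option autoImplicit false

namespace Pool.Agent.Helper42.RD

open MvPolynomial Finset

private theorem term_eq {m : ℕ} (d : Fin m → ℕ) (i0 j : Fin m →₀ ℕ) (x y : Fin m → ℤ)
    (hj : ∀ l, j l ≤ d l) (hy : ∀ l, y l ≠ 0) :
    (∏ l, ((((j l).choose (i0 l) : ℕ) : ℚ) * (x l : ℚ) ^ (j l - i0 l) * (y l : ℚ) ^ (d l - j l))) =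
      (∏ l, (y l : ℚ) ^ (d l - i0 l)) *
        ((∏ l, (((j l).choose (i0 l) : ℕ) : ℚ)) * ∏ l, ((x l : ℚ) / y l) ^ (j l - i0 l)) := by
  by_cases h : ∀ l, i0 l ≤ j l
  · rw [← Finset.prod_mul_distrib, ← Finset.prod_mul_distrib]
    refine Finset.prod_congr rfl fun l _ => ?_
    have hyl : (y l : ℚ) ≠ 0 := by exact_mod_cast hy l
    have h1 : d l - i0 l = (j l - i0 l) + (d l - j l) := by
      have := h l
      have := hj l
      omega
    rw [h1, pow_add, div_pow]
    field_simp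
  · push Not at h
    obtain ⟨l, hl⟩ := h
    have h0 : (((j l).choose (i0 l) : ℕ) : ℚ) = 0 := by
      rw [Nat.choose_eq_zero_of_lt hl]
      simp
    rw [Finset.prod_eq_zero (Finset.mem_univ l) (by rw [h0]; ring),
      Finset.prod_eq_zero (f := fun l => (((j l).choose (i0 l) : ℕ) : ℚ)) (Finset.mem_univ l) h0]
    ring

theorem NN_eq {m : ℕ} (P : MvPolynomial (Fin m) ℤ) (d : Fin m → ℕ) (i0 : Fin m →₀ ℕ)
    (x y : Fin m → ℤ) (hP : ∀ l, degreeOf l P ≤ d l) (hi : ∀ l, i0 l ≤ d l)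
    (hy : ∀ l, y l ≠ 0) :
    ((NN P d i0 x y : ℤ) : ℚ) =
      (∏ l, (y l : ℚ) ^ (d l - i0 l)) * aeval (fun l => (x l : ℚ) / y l) (hD i0 P) := by
  unfold NN hD
  rw [map_sum, Finset.mul_sum]
  push_cast
  refine Finset.sum_congr rfl fun j hj => ?_
  have hjd : ∀ l, j l ≤ d l := fun l =>
    (MvPolynomial.degreeOf_le_iff.1 (hP l)) j hj
  have h1 := term_eq d i0 j x y hjd hy
  rw [aeval_monomial, Finsupp.prod_fintype _ _ (fun l => pow_zero _)]
  simp only [Finsupp.tsub_apply]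
  rw [h1]
  simp only [algebraMap_int_eq, eq_intCast]
  push_cast
  ring

private theorem taylor_at {m : ℕ} (G : MvPolynomial (Fin m) ℤ) (e : Fin m → ℕ)
    (hG : ∀ l, degreeOf l G ≤ e l) (z : Fin m → ℚ) :
    aeval z G = ∑ i ∈ box e,
      ((eval (fun _ => (1 : ℤ)) (hD (Finsupp.equivFunOnFinite.symm i) G) : ℤ) : ℚ) *
        ∏ l, (z l - 1) ^ (i l) := by
  classical
  set S : MvPolynomial (Fin m) ℤ :=
    aeval (fun l => (X l : MvPolynomial (Fin m) ℤ) + C (1 : ℤ)) G with hS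
  have h1 : aeval z G = aeval (fun l => z l - 1) S := by
    rw [hS]
    have h2 : (aeval (fun l => z l - 1) :
        MvPolynomial (Fin m) ℤ →ₐ[ℤ] ℚ).comp
          (aeval (fun l => (X l : MvPolynomial (Fin m) ℤ) + C (1 : ℤ))) =
        (aeval z : MvPolynomial (Fin m) ℤ →ₐ[ℤ] ℚ) := by
      apply MvPolynomial.algHom_ext
      intro l
      simp
    rw [← h2]
    rfl
  have hc : ∀ i : Fin m →₀ ℕ, coeff i S = eval (fun _ => (1 : ℤ)) (hD i G) := fun i =>
    coeff_taylor (fun _ => (1 : ℤ)) i G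
  rw [h1, aeval_def, eval₂_eq']
  have h3 : ∑ i ∈ box e,
      ((eval (fun _ => (1 : ℤ)) (hD (Finsupp.equivFunOnFinite.symm i) G) : ℤ) : ℚ) *
        ∏ l, (z l - 1) ^ (i l) =
      ∑ d ∈ (box e).map Finsupp.equivFunOnFinite.symm.toEmbedding,
        (algebraMap ℤ ℚ) (coeff d S) * ∏ i, (z i - 1) ^ d i := by
    rw [Finset.sum_map]
    refine Finset.sum_congr rfl fun i _ => ?_
    rw [Equiv.toEmbedding_apply, hc]
    simp
  rw [h3]
  refine Finset.sum_subset ?_ ?_
  · intro i hi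
    rw [Finset.mem_map]
    refine ⟨Finsupp.equivFunOnFinite i, ?_, ?_⟩
    · unfold box
      rw [Fintype.mem_piFinset]
      intro l
      rw [Finset.mem_range]
      by_contra hlt
      have hlt' : degreeOf l G < i l := by
        have := hG l
        have h4 : e l < i l := by
          have h5 : (Finsupp.equivFunOnFinite i) l = i l := rfl
          omega
        omega
      rw [mem_support_iff, hc, hD_eq_zero l i G hlt'] at hi
      exact hi (by simp)
    · simp
  · intro i _ hi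
    rw [notMem_support_iff] at hi
    rw [hi]
    simp

theorem NN_taylor {m : ℕ} (P : MvPolynomial (Fin m) ℤ) (d : Fin m → ℕ) (i0 : Fin m →₀ ℕ)
    (x y : Fin m → ℤ) (hP : ∀ l, degreeOf l P ≤ d l) (hi : ∀ l, i0 l ≤ d l)
    (hy : ∀ l, y l ≠ 0) :
    NN P d i0 x y = ∑ i ∈ box (fun l => d l - i0 l),
      eval (fun _ => (1 : ℤ)) (hD (Finsupp.equivFunOnFinite.symm i) (hD i0 P)) *
        ∏ l, ((x l - y l) ^ (i l) * y l ^ (d l - i0 l - i l)) := by
  have hG : ∀ l, degreeOf l (hD i0 P) ≤ d l - i0 l := fun l =>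
    (degreeOf_hD_le l i0 P).trans (Nat.sub_le_sub_right (hP l) _)
  have h1 := NN_eq P d i0 x y hP hi hy
  rw [taylor_at (hD i0 P) (fun l => d l - i0 l) hG, Finset.mul_sum] at h1
  have h2 : ((NN P d i0 x y : ℤ) : ℚ) = ((∑ i ∈ box (fun l => d l - i0 l),
      eval (fun _ => (1 : ℤ)) (hD (Finsupp.equivFunOnFinite.symm i) (hD i0 P)) *
        ∏ l, ((x l - y l) ^ (i l) * y l ^ (d l - i0 l - i l)) : ℤ) : ℚ) := by
    rw [h1]
    push_cast
    refine Finset.sum_congr rfl fun i hi' => ?_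
    have hle : ∀ l, i l ≤ d l - i0 l := by
      intro l
      unfold box at hi'
      rw [Fintype.mem_piFinset] at hi'
      have h9 : i l < (d l - i0 l) + 1 := Finset.mem_range.1 (hi' l)
      exact Nat.lt_succ_iff.1 h9
    rw [mul_left_comm, ← Finset.prod_mul_distrib]
    congr 1
    refine Finset.prod_congr rfl fun l _ => ?_
    have hyl : (y l : ℚ) ≠ 0 := by exact_mod_cast hy l
    have h4 : (y l : ℚ) ^ (d l - i0 l) = (y l : ℚ) ^ (i l) * (y l : ℚ) ^ (d l - i0 l - i l) := by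
      rw [← pow_add]
      congr 1
      have := hle l
      omega
    rw [h4, div_sub_one hyl, div_pow]
    field_simp
  exact_mod_cast h2

theorem NN_upper {m : ℕ} (P : MvPolynomial (Fin m) ℤ) (d : Fin m → ℕ) (i0 : Fin m →₀ ℕ)
    (x y : Fin m → ℤ) (hP : ∀ l, degreeOf l P ≤ d l) (hi : ∀ l, i0 l ≤ d l)
    (hd : ∀ l, 1 ≤ d l) (hy : ∀ l, y l ≠ 0) (τ ω D : ℝ) (hω : 0 ≤ ω) (hω' : ω ≤ 1)
    (hτ : ∀ i : Fin m →₀ ℕ, ∑ l, (i l : ℝ) / d l < τ → eval (fun _ => (1 : ℤ)) (hD i P) = 0)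
    (hh : ∀ l, |(x l : ℝ) - y l| ≤ Real.exp (ω * Real.log (ht (x l) (y l))))
    (hDl : ∀ l, D ≤ d l * Real.log (ht (x l) (y l))) (hD0 : 0 ≤ D) :
    |((NN P d i0 x y : ℤ) : ℝ)| ≤ 8 ^ (∑ l, d l) * L1 P *
      Real.exp (∑ l, (d l : ℝ) * Real.log (ht (x l) (y l)) -
        (1 - ω) * D * (τ - ∑ l, (i0 l : ℝ) / d l)) := by
  set q : Fin m → ℝ := fun l => Real.log (ht (x l) (y l)) with hq
  set E : ℝ := Real.exp (∑ l, (d l : ℝ) * q l - (1 - ω) * D * (τ - ∑ l, (i0 l : ℝ) / d l)) with hE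
  have hE0 : 0 < E := Real.exp_pos _
  have hL0 : 0 ≤ L1 P := L1_nonneg P
  -- heights
  have hy1 : ∀ l, (1 : ℝ) ≤ |(y l : ℝ)| := by
    intro l
    have h1 : (1 : ℤ) ≤ |y l| := Int.one_le_abs (hy l)
    have h2 : ((1 : ℤ) : ℝ) ≤ ((|y l| : ℤ) : ℝ) := by exact_mod_cast h1
    simpa using h2
  have hht : ∀ l, |(y l : ℝ)| ≤ ht (x l) (y l) := fun l => le_max_right _ _
  have hht1 : ∀ l, (1 : ℝ) ≤ ht (x l) (y l) := fun l => (hy1 l).trans (hht l)
  have hq0 : ∀ l, 0 ≤ q l := fun l => Real.log_nonneg (hht1 l)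
  have hyexp : ∀ l, |(y l : ℝ)| ≤ Real.exp (q l) := by
    intro l
    rw [hq]
    simp only
    rw [Real.exp_log (lt_of_lt_of_le one_pos (hht1 l))]
    exact hht l
  have hdpos : ∀ l, (0 : ℝ) < d l := fun l => by exact_mod_cast hd l
  have hqD : ∀ l, D / d l ≤ q l := by
    intro l
    rw [div_le_iff₀ (hdpos l)]
    have := hDl l
    rw [hq]
    simp only
    linarith
  -- the degrees of `hD i0 P`
  have hG : ∀ l, degreeOf l (hD i0 P) ≤ d l := fun l =>
    (degreeOf_hD_le l i0 P).trans ((Nat.sub_le _ _).trans (hP l))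
  -- each term
  have hterm : ∀ i ∈ box (fun l => d l - i0 l),
      |(((eval (fun _ => (1 : ℤ)) (hD (Finsupp.equivFunOnFinite.symm i) (hD i0 P)) *
        ∏ l, ((x l - y l) ^ (i l) * y l ^ (d l - i0 l - i l)) : ℤ)) : ℝ)| ≤
      4 ^ (∑ l, d l) * L1 P * E := by
    intro i hi'
    have hle : ∀ l, i l ≤ d l - i0 l := by
      intro l
      unfold box at hi'
      rw [Fintype.mem_piFinset] at hi'
      have h9 : i l < (d l - i0 l) + 1 := Finset.mem_range.1 (hi' l)
      exact Nat.lt_succ_iff.1 h9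
    set ι : Fin m →₀ ℕ := Finsupp.equivFunOnFinite.symm i with hι
    have hιl : ∀ l, ι l = i l := fun l => by rw [hι]; rfl
    by_cases hz : ∑ l, (((ι + i0) l : ℕ) : ℝ) / d l < τ
    · have h0 : eval (fun _ => (1 : ℤ)) (hD ι (hD i0 P)) = 0 := by
        rw [hD_hD, map_mul, hτ _ hz, mul_zero]
      rw [h0, zero_mul]
      simp only [Int.cast_zero, abs_zero]
      positivity
    · rw [not_lt] at hz
      push_cast
      rw [abs_mul, Finset.abs_prod]
      refine mul_le_mul ?_ ?_ (Finset.prod_nonneg fun l _ => abs_nonneg _) (by positivity)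
      · refine (L1_eval_one _).trans ?_
        have h1 := L1_hD_le ι (hD i0 P) d hG
        have h2 := L1_hD_le i0 P d hP
        calc L1 (hD ι (hD i0 P)) ≤ 2 ^ (∑ l, d l) * L1 (hD i0 P) := h1
          _ ≤ 2 ^ (∑ l, d l) * (2 ^ (∑ l, d l) * L1 P) := by gcongr
          _ = 4 ^ (∑ l, d l) * L1 P := by
            rw [← mul_assoc, ← mul_pow]
            norm_num
      · have h1 : ∀ l ∈ (Finset.univ : Finset (Fin m)),
            |((x l : ℝ) - y l) ^ (i l) * (y l : ℝ) ^ (d l - i0 l - i l)| ≤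
              Real.exp ((i l : ℝ) * (ω * q l) + ((d l : ℝ) - i0 l - i l) * q l) := by
          intro l _
          have hi0 := hi l
          have hil := hle l
          rw [abs_mul, abs_pow, abs_pow, Real.exp_add]
          refine mul_le_mul ?_ ?_ (by positivity) (Real.exp_pos _).le
          · rw [Real.exp_nat_mul]
            exact pow_le_pow_left₀ (abs_nonneg _) (hh l) _
          · have h3 : ((d l : ℝ) - i0 l - i l) = ((d l - i0 l - i l : ℕ) : ℝ) := by
              rw [Nat.cast_sub hil, Nat.cast_sub hi0]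
            rw [h3, Real.exp_nat_mul]
            exact pow_le_pow_left₀ (abs_nonneg _) (hyexp l) _
        refine (Finset.prod_le_prod (fun l _ => abs_nonneg _) h1).trans ?_
        rw [← Real.exp_sum, hE]
        apply Real.exp_le_exp.2
        have h4 : ∀ l, (i0 l : ℝ) * q l + (1 - ω) * ((i l : ℝ) * q l) ≥
            (1 - ω) * (D * ((i l : ℝ) / d l)) := by
          intro l
          have h5 : D * ((i l : ℝ) / d l) ≤ (i l : ℝ) * q l := by
            have h6 := mul_le_mul_of_nonneg_left (hqD l) (Nat.cast_nonneg (α := ℝ) (i l))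
            calc D * ((i l : ℝ) / d l) = (i l : ℝ) * (D / d l) := by ring
              _ ≤ (i l : ℝ) * q l := h6
          have h7 : 0 ≤ (i0 l : ℝ) * q l := mul_nonneg (Nat.cast_nonneg _) (hq0 l)
          have h8 := mul_le_mul_of_nonneg_left h5 (sub_nonneg.2 hω')
          linarith
        have h9 : ∑ l, ((1 - ω) * (D * ((i l : ℝ) / d l))) ≤
            ∑ l, ((i0 l : ℝ) * q l + (1 - ω) * ((i l : ℝ) * q l)) :=
          Finset.sum_le_sum fun l _ => h4 l
        rw [← Finset.mul_sum, ← Finset.mul_sum] at h9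
        have h10 : τ - ∑ l, (i0 l : ℝ) / d l ≤ ∑ l, (i l : ℝ) / d l := by
          have h11 : ∑ l, (((ι + i0) l : ℕ) : ℝ) / d l =
              ∑ l, (i l : ℝ) / d l + ∑ l, (i0 l : ℝ) / d l := by
            rw [← Finset.sum_add_distrib]
            refine Finset.sum_congr rfl fun l _ => ?_
            rw [Finsupp.add_apply, hιl]
            push_cast
            ring
          rw [h11] at hz
          linarith
        have h12 : (1 - ω) * D * (τ - ∑ l, (i0 l : ℝ) / d l) ≤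
            (1 - ω) * (D * ∑ l, (i l : ℝ) / d l) := by
          rw [← mul_assoc]
          exact mul_le_mul_of_nonneg_left h10 (mul_nonneg (sub_nonneg.2 hω') hD0)
        have h13 : ∑ l, ((i l : ℝ) * (ω * q l) + ((d l : ℝ) - i0 l - i l) * q l) =
            ∑ l, (d l : ℝ) * q l - ∑ l, ((i0 l : ℝ) * q l + (1 - ω) * ((i l : ℝ) * q l)) := by
          rw [← Finset.sum_sub_distrib]
          refine Finset.sum_congr rfl fun l _ => ?_
          ring
        rw [h13]
        linarith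
  -- the sum
  rw [NN_taylor P d i0 x y hP hi hy]
  rw [Int.cast_sum]
  refine (Finset.abs_sum_le_sum_abs _ _).trans ?_
  refine (Finset.sum_le_card_nsmul _ _ _ hterm).trans ?_
  rw [nsmul_eq_mul]
  have hcard : (((box (fun l => d l - i0 l)).card : ℕ) : ℝ) ≤ 2 ^ (∑ l, d l) := by
    have h1 := (card_box (fun l => d l - i0 l)).2
    have h2 : ((box (fun l => d l - i0 l)).card : ℝ) ≤ 2 ^ (∑ l, (d l - i0 l)) := by
      exact_mod_cast h1
    refine h2.trans (pow_le_pow_right₀ (by norm_num) ?_)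
    exact Finset.sum_le_sum fun l _ => Nat.sub_le _ _
  calc (((box (fun l => d l - i0 l)).card : ℕ) : ℝ) * (4 ^ (∑ l, d l) * L1 P * E)
      ≤ 2 ^ (∑ l, d l) * (4 ^ (∑ l, d l) * L1 P * E) := by gcongr
    _ = 8 ^ (∑ l, d l) * L1 P * E := by
      have h3 : (8 : ℝ) ^ (∑ l, d l) = 2 ^ (∑ l, d l) * 4 ^ (∑ l, d l) := by
        rw [← mul_pow]
        norm_num
      rw [h3]
      ring

end Pool.Agent.Helper42.RD
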