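import Mathlib
import Pool.Agent.Helper42.RD.Defs
import Pool.Agent.Helper42.RD.Norm
import Pool.Agent.Helper42.RD.Hasse
import Pool.Agent.Helper42.RD.Index
import Pool.Agent.Helper42.RD.Roth
import Pool.Agent.Helper42.RD.Siegel
import Pool.Agent.Helper42.RD.Upper
import Pool.Agent.Helper42.RD.Lower

/-!
# RD-18 (Core): no rapidly increasing system of exceptions

`ε = min (η / 20) (1 / 10)`, `m` with `exp (-2 ε ^ 2 m) ≤ 1 / 8`, `ω₀` from `roth m (ε m)`,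
`K = max (20 m / ω₀) (20 / ε)` or larger. Given a system, let `D` be a large real number (at least
`log q l / ε` and `log q l` for all `l`, where `q l = ht (x l) (y l)`), `d l = ⌈D / log (q l)⌉₊`. Then
`D ≤ d l * log (q l) ≤ D + log (q l) ≤ (1 + ε) D`, `d l ≤ 2 D / log (q l) ≤ 2 D / K`,
`d l ≤ ω₀ d l'` for `l < l'` (as `log (q l) ≥ K log (q l')`). Take `P` from `aux_poly`. By `roth` with
`Λ = D`, `t = 2 ε m > ε m`, `IndGE` fails: there is `i0` with `∑ i0 l / d l < 2 ε m` and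
`aeval (x / y) (hD i0 P) ≠ 0`; `i0 l ≤ d l` by `hD_eq_zero`, `NN ≠ 0` by `NN_eq`. Compare `NN_lower`
(`lo = (1/2 - ε) m`, `hi = (1/2 + ε) m`) with `NN_upper` (`τ = lo`) and divide by `m D`:
`α (1/2 - 3 ε) + β (1/2 - ε) ≤ ε + (1 + ε) - (1 - ω) (1/2 - 3 ε)`, so
`α + β ≤ 1 + ω + 18 ε`, a contradiction to `1 + ω + η ≤ α + β`.
(`∑ d l * log 8 + log (L1 P) ≤ 2 log 8 * ∑ d l ≤ 4.2 * m * 2 D / K ≤ ε m D`.)
-/

set_option autoImplicit false

namespace Pool.Agent.Helper42.RD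

open MvPolynomial Finset

theorem core (η : ℝ) (hη : 0 < η) : ∃ (m : ℕ) (K : ℝ), 1 ≤ m ∧ 1 ≤ K ∧
    ∀ (x y : Fin m → ℤ) (a b : Fin m → ℕ) (α β ω : ℝ), 0 ≤ α → α ≤ 1 → 0 ≤ β → β ≤ 1 →
      0 ≤ ω → ω ≤ 1 → 1 + ω + η ≤ α + β →
      (∀ l, IsCoprime (x l) (y l)) → (∀ l, x l ≠ 0) → (∀ l, y l ≠ 0) → (∀ l, x l ≠ y l) →
      (∀ l, (3 : ℤ) ^ a l ∣ x l) → (∀ l, (2 : ℤ) ^ b l ∣ y l) →
      (∀ l, α * Real.log (ht (x l) (y l)) ≤ a l * Real.log 3) →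
      (∀ l, β * Real.log (ht (x l) (y l)) ≤ b l * Real.log 2) →
      (∀ l, |(x l : ℝ) - y l| ≤ Real.exp (ω * Real.log (ht (x l) (y l)))) →
      (∀ l, K ≤ Real.log (ht (x l) (y l))) →
      (∀ l l', l < l' → K * Real.log (ht (x l') (y l')) ≤ Real.log (ht (x l) (y l))) → False := by
  obtain ⟨ε, hε0, hε1, hε2⟩ : ∃ ε : ℝ, 0 < ε ∧ ε ≤ η / 20 ∧ ε ≤ 1 / 10 :=
    ⟨min (η / 20) (1 / 10), lt_min (by positivity) (by norm_num), min_le_left _ _, min_le_right _ _⟩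
  obtain ⟨m, hm1, hm⟩ : ∃ m : ℕ, 1 ≤ m ∧ Real.exp (-2 * ε ^ 2 * m) ≤ 1 / 8 := by
    obtain ⟨m, hm⟩ := exists_nat_ge (Real.log 8 / (2 * ε ^ 2))
    refine ⟨m + 1, Nat.le_add_left 1 m, ?_⟩
    have h8 : (1 / 8 : ℝ) = Real.exp (-Real.log 8) := by
      rw [Real.exp_neg, Real.exp_log (by norm_num), one_div]
    rw [h8]
    apply Real.exp_le_exp.2
    rw [div_le_iff₀ (by positivity)] at hm
    push_cast
    nlinarith [sq_nonneg ε]
  have hmR : (1 : ℝ) ≤ m := by exact_mod_cast hm1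
  have hm0 : (0 : ℝ) < m := lt_of_lt_of_le one_pos hmR
  obtain ⟨ω₀, hω0, hω1, hroth⟩ := roth m (ε * m) (by positivity)
  obtain ⟨K, hK1, hKω, hKε⟩ : ∃ K : ℝ, 1 ≤ K ∧ 20 * m / ω₀ ≤ K ∧ 20 / ε ≤ K :=
    ⟨max 1 (max (20 * m / ω₀) (20 / ε)), le_max_left _ _, (le_max_left _ _).trans (le_max_right _ _),
      (le_max_right _ _).trans (le_max_right _ _)⟩
  have hK0 : 0 < K := lt_of_lt_of_le one_pos hK1
  have hKω' : 20 * m ≤ K * ω₀ := by rwa [div_le_iff₀ hω0] at hKω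
  have hKε' : 20 ≤ K * ε := by rwa [div_le_iff₀ hε0] at hKε
  refine ⟨m, K, hm1, hK1, ?_⟩
  intro x y a b α β ω hα0 hα1 hβ0 hβ1 hw0 hw1 hsum hcop hx hy hxy ha hb haα hbβ hh hK hK2
  obtain ⟨L, hL⟩ : ∃ L : Fin m → ℝ, ∀ l, Real.log (ht (x l) (y l)) = L l := ⟨_, fun _ => rfl⟩
  have hKL : ∀ l, K ≤ L l := fun l => (hL l) ▸ hK l
  have hKL2 : ∀ l l', l < l' → K * L l' ≤ L l := by
    intro l l' hll
    have := hK2 l l' hll
    rwa [hL, hL] at this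
  have hL0 : ∀ l, 0 < L l := fun l => lt_of_lt_of_le hK0 (hKL l)
  -- the parameter `D`
  obtain ⟨D, hD0, hDL⟩ : ∃ D : ℝ, 0 < D ∧ ∀ l, L l ≤ ε * D := by
    refine ⟨1 + ∑ l, L l / ε, ?_, ?_⟩
    · have : 0 ≤ ∑ l, L l / ε := Finset.sum_nonneg fun l _ => div_nonneg (hL0 l).le hε0.le
      linarith
    · intro l
      have h1 : L l / ε ≤ ∑ l, L l / ε :=
        Finset.single_le_sum (fun l _ => div_nonneg (hL0 l).le hε0.le) (Finset.mem_univ l)
      rw [div_le_iff₀ hε0] at h1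
      nlinarith
  -- the degrees
  obtain ⟨d, hd1, hd2, hd3⟩ : ∃ d : Fin m → ℕ, (∀ l, 1 ≤ d l) ∧ (∀ l, D ≤ d l * L l) ∧
      (∀ l, (d l : ℝ) * L l ≤ D + L l) := by
    refine ⟨fun l => ⌈D / L l⌉₊, ?_, ?_, ?_⟩
    · intro l
      exact Nat.one_le_iff_ne_zero.2 (Nat.ceil_pos.2 (div_pos hD0 (hL0 l))).ne'
    · intro l
      have := Nat.le_ceil (D / L l)
      rwa [div_le_iff₀ (hL0 l)] at this
    · intro l
      have := (Nat.ceil_lt_add_one (div_pos hD0 (hL0 l)).le).le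
      calc (⌈D / L l⌉₊ : ℝ) * L l ≤ (D / L l + 1) * L l :=
            mul_le_mul_of_nonneg_right this (hL0 l).le
        _ = D + L l := by
            rw [add_mul, div_mul_cancel₀ _ (hL0 l).ne', one_mul]
  have hd4 : ∀ l, (d l : ℝ) * L l ≤ 2 * D := by
    intro l
    have h1 := hd3 l
    have h2 := hDL l
    have h3 : ε * D ≤ 1 / 10 * D := mul_le_mul_of_nonneg_right hε2 hD0.le
    linarith
  have hd5 : ∀ l, (d l : ℝ) * K ≤ 2 * D := fun l =>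
    (mul_le_mul_of_nonneg_left (hKL l) (Nat.cast_nonneg _)).trans (hd4 l)
  have hd6 : ∀ l, (d l : ℝ) ≤ ω₀ * D := by
    intro l
    have h1 := hd5 l
    have h2 : (d l : ℝ) * K ≤ ω₀ * D * K := by nlinarith
    exact le_of_mul_le_mul_right h2 hK0
  have hd7 : ∀ l l', l < l' → (d l : ℝ) ≤ ω₀ * d l' := by
    intro l l' hll
    have h1 : (d l : ℝ) * (K * L l') ≤ 2 * (d l' * L l') := by
      calc (d l : ℝ) * (K * L l') ≤ d l * L l :=
            mul_le_mul_of_nonneg_left (hKL2 l l' hll) (Nat.cast_nonneg _)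
        _ ≤ 2 * D := hd4 l
        _ ≤ 2 * (d l' * L l') := by linarith [hd2 l']
    have h2 : (d l : ℝ) * K ≤ 2 * d l' := by
      have : (d l : ℝ) * K * L l' ≤ 2 * d l' * L l' := by nlinarith
      exact le_of_mul_le_mul_right this (hL0 l')
    have h3 : (d l : ℝ) * K ≤ ω₀ * d l' * K := by
      have h4 : (0 : ℝ) ≤ d l' := Nat.cast_nonneg _
      nlinarith
    exact le_of_mul_le_mul_right h3 hK0
  -- the sum of the degrees
  have hS : ((∑ l, d l : ℕ) : ℝ) * K ≤ m * (2 * D) := by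
    rw [Nat.cast_sum, Finset.sum_mul]
    calc ∑ l, (d l : ℝ) * K ≤ ∑ _l : Fin m, 2 * D := Finset.sum_le_sum fun l _ => hd5 l
      _ = m * (2 * D) := by
          rw [Finset.sum_const, Finset.card_univ, Fintype.card_fin, nsmul_eq_mul]
  have hlog8 : Real.log 8 ≤ 2.1 := by
    have h1 : Real.log 8 = 3 * Real.log 2 := by
      rw [show (8 : ℝ) = 2 ^ 3 by norm_num, Real.log_pow]
      norm_num
    have h2 := Real.log_two_lt_d9
    rw [h1]
    linarith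
  have hlog80 : 0 ≤ Real.log 8 := Real.log_nonneg (by norm_num)
  have hS0 : (0 : ℝ) ≤ ((∑ l, d l : ℕ) : ℝ) := Nat.cast_nonneg _
  -- the auxiliary polynomial
  obtain ⟨P, hP0, hPd, hPs, hPi, hPL⟩ := aux_poly hm1 d hd1 ε hε0 (by linarith) hm
  have hLP1 : 1 ≤ L1 P := one_le_L1 hP0
  have hlogL : Real.log (L1 P) ≤ ((∑ l, d l : ℕ) : ℝ) * Real.log 8 := by
    have := Real.log_le_log (lt_of_lt_of_le one_pos hLP1) hPL
    rwa [Real.log_pow] at this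
  have hLω : Real.log (L1 P) ≤ ω₀ * D := by
    refine hlogL.trans ?_
    have h1 : ((∑ l, d l : ℕ) : ℝ) * Real.log 8 ≤ ((∑ l, d l : ℕ) : ℝ) * 2.1 :=
      mul_le_mul_of_nonneg_left hlog8 hS0
    refine h1.trans ?_
    have h2 : ((∑ l, d l : ℕ) : ℝ) * 2.1 * K ≤ ω₀ * D * K := by nlinarith
    exact le_of_mul_le_mul_right h2 hK0
  have hnot : ¬ IndGE (fun l => 1 / (d l : ℝ)) (fun l => (x l : ℚ) / y l) (2 * (ε * m)) P := by
    intro hI
    have := hroth d x y D P (2 * (ε * m)) hD0 hd1 hd7 hcop hy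
      (fun l => by rw [hL]; exact hd2 l) hd6 hPd hP0 hLω hI
    have h0 : 0 < ε * m := by positivity
    linarith
  unfold IndGE at hnot
  push Not at hnot
  obtain ⟨i0, hi0, hne⟩ := hnot
  have hi0d : ∀ l, i0 l ≤ d l := by
    intro l
    by_contra hcon
    push Not at hcon
    apply hne
    rw [hD_eq_zero l i0 P (lt_of_le_of_lt (hPd l) hcon), map_zero]
  have hNN0 : NN P d i0 x y ≠ 0 := by
    intro h0
    have h1 := NN_eq P d i0 x y hPd hi0d hy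
    rw [h0, Int.cast_zero] at h1
    rcases mul_eq_zero.1 h1.symm with h2 | h2
    · rw [Finset.prod_eq_zero_iff] at h2
      obtain ⟨l, _, h3⟩ := h2
      exact absurd h3 (pow_ne_zero _ (Int.cast_ne_zero.2 (hy l)))
    · exact hne h2
  obtain ⟨σ, hσ⟩ : ∃ σ : ℝ, ∑ l, (i0 l : ℝ) / d l = σ := ⟨_, rfl⟩
  have hσ2 : σ < 2 * (ε * m) := by
    rw [← hσ]
    calc ∑ l, (i0 l : ℝ) / d l = ∑ l, (i0 l : ℝ) * (1 / (d l : ℝ)) :=
          Finset.sum_congr rfl fun l _ => by rw [mul_one_div]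
      _ < 2 * (ε * m) := hi0
  have hDl : ∀ l, D ≤ d l * Real.log (ht (x l) (y l)) := fun l => by rw [hL]; exact hd2 l
  have hlow := NN_lower P d i0 x y hPd hd1 a b α β D ((1 / 2 - ε) * m) ((1 / 2 + ε) * m) hα0 hβ0
    hD0.le hPs ha hb haα hbβ hDl hNN0
  have hup := NN_upper P d i0 x y hPd hi0d hd1 hy ((1 / 2 - ε) * m) ω D hw0 hw1 hPi hh hDl hD0.le
  rw [hσ] at hlow hup
  simp only [hL] at hup
  have hLL : ∑ l, (d l : ℝ) * L l ≤ (1 + ε) * D * m := by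
    calc ∑ l, (d l : ℝ) * L l ≤ ∑ _l : Fin m, (1 + ε) * D :=
          Finset.sum_le_sum fun l _ => by linarith [hd3 l, hDL l]
      _ = (1 + ε) * D * m := by
          rw [Finset.sum_const, Finset.card_univ, Fintype.card_fin, nsmul_eq_mul, mul_comm]
  -- take logarithms
  have hlogs : α * D * ((1 / 2 - ε) * m - σ) + β * D * (m - (1 / 2 + ε) * m) ≤
      2 * (((∑ l, d l : ℕ) : ℝ) * Real.log 8) +
        (∑ l, (d l : ℝ) * L l - (1 - ω) * D * ((1 / 2 - ε) * m - σ)) := by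
    have h1 := hlow.trans hup
    have h8 : (0 : ℝ) < 8 ^ (∑ l, d l) := by positivity
    have hL1 : 0 < L1 P := lt_of_lt_of_le one_pos hLP1
    have h2 := Real.log_le_log (Real.exp_pos _) h1
    rw [Real.log_exp, Real.log_mul (mul_pos h8 hL1).ne' (Real.exp_pos _).ne',
      Real.log_mul h8.ne' hL1.ne', Real.log_exp, Real.log_pow] at h2
    linarith
  have hsmall : 2 * (((∑ l, d l : ℕ) : ℝ) * Real.log 8) ≤ ε * m * D := by
    have h1 : ((∑ l, d l : ℕ) : ℝ) * Real.log 8 ≤ ((∑ l, d l : ℕ) : ℝ) * 2.1 :=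
      mul_le_mul_of_nonneg_left hlog8 hS0
    have h2 : 2 * (((∑ l, d l : ℕ) : ℝ) * 2.1) * K ≤ ε * m * D * K := by
      have h3 : (0 : ℝ) < m * D := mul_pos hm0 hD0
      nlinarith
    have h4 := le_of_mul_le_mul_right h2 hK0
    linarith
  have hmD : (0 : ℝ) < m * D := mul_pos hm0 hD0
  have hkey : (α + (1 - ω)) * ((1 / 2 - ε) * m - σ) * D + β * D * ((1 / 2 - ε) * m) ≤
      (1 + 2 * ε) * (m * D) := by
    nlinarith [hlogs, hsmall, hLL]
  have hlo : (1 / 2 - 3 * ε) * m ≤ (1 / 2 - ε) * m - σ := by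
    linarith
  have hA : 0 ≤ α + (1 - ω) := by linarith
  have hkey2 : ((α + (1 - ω)) * (1 / 2 - 3 * ε) + β * (1 / 2 - ε)) * (m * D) ≤
      (1 + 2 * ε) * (m * D) := by
    have h1 : (α + (1 - ω)) * ((1 / 2 - 3 * ε) * m) ≤ (α + (1 - ω)) * ((1 / 2 - ε) * m - σ) :=
      mul_le_mul_of_nonneg_left hlo hA
    have h2 := mul_le_mul_of_nonneg_right h1 hD0.le
    nlinarith [h2, hkey]
  have hkey3 := le_of_mul_le_mul_right hkey2 hmD
  have h5 : ε * α ≤ ε * 1 := mul_le_mul_of_nonneg_left hα1 hε0.le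
  have h6 : ε * β ≤ ε * 1 := mul_le_mul_of_nonneg_left hβ1 hε0.le
  have h7 : 0 ≤ ε * ω := mul_nonneg hε0.le hw0
  have h8 : (α + (1 - ω)) * (1 / 2 - 3 * ε) + β * (1 / 2 - ε) =
      (α + β + 1 - ω) / 2 - 3 * (ε * α) - 3 * ε + 3 * (ε * ω) - ε * β := by ring
  rw [h8] at hkey3
  linarith

end Pool.Agent.Helper42.RD
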