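import Mathlib
import Pool.Agent.Helper42.RD.Defs
import Pool.Agent.Helper42.RD.Core

/-!
# RD-19 (Final): Ridout's theorem for the number 1 and the primes 2, 3

`coprime_case`: suppose there are coprime exceptions of arbitrarily large height `q`. An exception has
`3 ^ a * 2 ^ b > |x - y| q ^ (1 + η)`, `3 ^ a ≤ |x| ≤ q`, `2 ^ b ≤ |y| ≤ q`, hence
`1 ≤ |x - y| < q ^ (1 - η)`. Let `N ≥ 6 / η`, `N ≥ 1`, and attach to the exception the cell
`(⌊N a log 3 / log q⌋, ⌊N b log 2 / log q⌋, ⌈N log |x - y| / log q⌉)` in `{0, ..., N}^3`. Finitely many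
cells, so one cell `(A, B, C)` contains exceptions of arbitrarily large height. With `α = A / N`,
`β = B / N`, `ω = C / N` the inequality gives `α + β + 2 / N > ω - 1 / N + 1 + η`, so
`1 + ω + η / 2 ≤ α + β`, and the other hypotheses of `core (η / 2)` hold for every exception in the
cell. Choose exceptions in this cell with `log q ≥ K` and then successively
`log q' ≥ K * (all previous)` (`core` wants the heights decreasing in the index `l`, so choose
`l = m - 1` first). Contradiction.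

`ridout`: let `g = gcd (x, y)`, `x = g x'`, `y = g y'`. If `ht x' y' ≥ Q0` apply `coprime_case` to
`x'`, `y'`, `a' = a - v_3 (g)`, `b' = b - v_2 (g)` (truncated), and use `3 ^ v_3 (g) * 2 ^ v_2 (g) ≤ g`,
`ht x' y' ≤ ht x y`. If `ht x' y' < Q0` then `3 ^ a * 2 ^ b ≤ g * |x'| * |y'| ≤ g * Q0 ^ 2 ≤
|x - y| * ht x y` as soon as `ht x y ≥ Q0 ^ 2`.
-/

set_option autoImplicit false

namespace Pool.Agent.Helper42.RD

open MvPolynomial Finset

private theorem one_le_ht {x y : ℤ} (hx : x ≠ 0) : 1 ≤ ht x y := by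
  have h : (1 : ℝ) ≤ |(x : ℝ)| := by exact_mod_cast Int.one_le_abs hx
  exact le_trans h (le_max_left _ _)

private theorem pow_le_of_dvd {c a : ℕ} {x : ℤ} (hx : x ≠ 0) (h : (c : ℤ) ^ a ∣ x) :
    (c : ℝ) ^ a ≤ |(x : ℝ)| := by
  have h1 : ((c : ℤ) ^ a).natAbs ∣ x.natAbs := Int.natAbs_dvd_natAbs.2 h
  have h2 := Nat.le_of_dvd (Int.natAbs_pos.2 hx) h1
  have h3 : (((c : ℤ) ^ a).natAbs : ℝ) ≤ (x.natAbs : ℝ) := by exact_mod_cast h2
  rw [Nat.cast_natAbs, Nat.cast_natAbs] at h3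
  push_cast at h3
  rwa [abs_of_nonneg (by positivity)] at h3

/-- the cell of an exception -/
private theorem cell (η : ℝ) (hη : 0 < η) (N : ℕ) (hN1 : (1 : ℝ) ≤ N) (hN6 : 6 / η ≤ N)
    (x y : ℤ) (a b : ℕ) (hx : x ≠ 0) (hy : y ≠ 0) (hxy : x ≠ y) (ha : (3 : ℤ) ^ a ∣ x)
    (hb : (2 : ℤ) ^ b ∣ y) (hL : 1 ≤ Real.log (ht x y))
    (hexc : |(x : ℝ) - y| * ht x y ^ (1 + η) < (3 : ℝ) ^ a * 2 ^ b) :
    ∃ c : Fin (N + 1) × Fin (N + 1) × Fin (N + 1),
      1 + ((c.2.2 : ℕ) : ℝ) / N + η / 2 ≤ ((c.1 : ℕ) : ℝ) / N + ((c.2.1 : ℕ) : ℝ) / N ∧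
      ((c.1 : ℕ) : ℝ) / N * Real.log (ht x y) ≤ a * Real.log 3 ∧
      ((c.2.1 : ℕ) : ℝ) / N * Real.log (ht x y) ≤ b * Real.log 2 ∧
      |(x : ℝ) - y| ≤ Real.exp (((c.2.2 : ℕ) : ℝ) / N * Real.log (ht x y)) := by
  set L := Real.log (ht x y) with hLdef
  have hL0 : 0 < L := by linarith
  have hN0 : (0 : ℝ) < N := by linarith
  have hht1 : 1 ≤ ht x y := one_le_ht hx
  have hht0 : 0 < ht x y := by linarith
  have hlog3 : 0 < Real.log 3 := Real.log_pos (by norm_num)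
  have hlog2 : 0 < Real.log 2 := Real.log_pos (by norm_num)
  have h3 : (3 : ℝ) ^ a ≤ ht x y := by
    have := pow_le_of_dvd (c := 3) hx (by exact_mod_cast ha)
    push_cast at this
    exact this.trans (le_max_left _ _)
  have h2 : (2 : ℝ) ^ b ≤ ht x y := by
    have := pow_le_of_dvd (c := 2) hy (by exact_mod_cast hb)
    push_cast at this
    exact this.trans (le_max_right _ _)
  have ha1 : a * Real.log 3 ≤ L := by
    rw [← Real.log_pow]
    exact Real.log_le_log (by positivity) h3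
  have hb1 : b * Real.log 2 ≤ L := by
    rw [← Real.log_pow]
    exact Real.log_le_log (by positivity) h2
  have hd1 : (1 : ℝ) ≤ |(x : ℝ) - y| := by
    have : (1 : ℤ) ≤ |x - y| := Int.one_le_abs (sub_ne_zero.2 hxy)
    exact_mod_cast this
  set D := Real.log |(x : ℝ) - y| with hD
  have hD0 : 0 ≤ D := Real.log_nonneg hd1
  have hsum : D + (1 + η) * L < a * Real.log 3 + b * Real.log 2 := by
    have h := Real.log_lt_log (by positivity) hexc
    rw [Real.log_mul (by positivity) (by positivity), Real.log_mul (by positivity) (by positivity),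
      Real.log_rpow hht0, Real.log_pow, Real.log_pow] at h
    exact h
  have hDL : D ≤ L := by
    have : D + (1 + η) * L < L + L := lt_of_lt_of_le hsum (by linarith)
    have : 0 < η * L := by positivity
    nlinarith
  set u := a * Real.log 3 / L with hu
  set v := b * Real.log 2 / L with hv
  set w := D / L with hw
  have hu0 : 0 ≤ u := by positivity
  have hv0 : 0 ≤ v := by positivity
  have hw0 : 0 ≤ w := by positivity
  have hu1 : u ≤ 1 := by rw [hu, div_le_one hL0]; exact ha1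
  have hv1 : v ≤ 1 := by rw [hv, div_le_one hL0]; exact hb1
  have hw1 : w ≤ 1 := by rw [hw, div_le_one hL0]; exact hDL
  have huL : u * L = a * Real.log 3 := by rw [hu]; field_simp
  have hvL : v * L = b * Real.log 2 := by rw [hv]; field_simp
  have hwL : w * L = D := by rw [hw]; field_simp
  have huvw : w + (1 + η) < u + v := by
    have : (w + (1 + η)) * L < (u + v) * L := by
      have e1 : (w + (1 + η)) * L = w * L + (1 + η) * L := by ring
      rw [e1, add_mul u v, huL, hvL, hwL]; exact hsum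
    exact lt_of_mul_lt_mul_right this hL0.le
  have hA : ⌊N * u⌋₊ < N + 1 := by
    rw [Nat.floor_lt (by positivity)]
    push_cast
    nlinarith
  have hB : ⌊N * v⌋₊ < N + 1 := by
    rw [Nat.floor_lt (by positivity)]
    push_cast
    nlinarith
  have hC : ⌈N * w⌉₊ < N + 1 := by
    rw [Nat.lt_succ_iff, Nat.ceil_le]
    nlinarith
  have hA1 : (⌊N * u⌋₊ : ℝ) ≤ N * u := Nat.floor_le (by positivity)
  have hA2 : N * u < ⌊N * u⌋₊ + 1 := Nat.lt_floor_add_one _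
  have hB1 : (⌊N * v⌋₊ : ℝ) ≤ N * v := Nat.floor_le (by positivity)
  have hB2 : N * v < ⌊N * v⌋₊ + 1 := Nat.lt_floor_add_one _
  have hC1 : N * w ≤ (⌈N * w⌉₊ : ℝ) := Nat.le_ceil _
  have hC2 : (⌈N * w⌉₊ : ℝ) < N * w + 1 := Nat.ceil_lt_add_one (by positivity)
  have h6 : 6 ≤ η * N := by
    rw [div_le_iff₀ hη] at hN6
    linarith
  refine ⟨(⟨_, hA⟩, ⟨_, hB⟩, ⟨_, hC⟩), ?_, ?_, ?_, ?_⟩
  · simp only
    have e : 1 + (⌈N * w⌉₊ : ℝ) / N + η / 2 = (N + (⌈N * w⌉₊ : ℝ) + η * N / 2) / N := by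
      field_simp
    rw [e, ← add_div]
    apply div_le_div_of_nonneg_right _ hN0.le
    have : N * (w + (1 + η)) < N * (u + v) := by
      exact mul_lt_mul_of_pos_left huvw hN0
    nlinarith
  · simp only
    rw [← huL]
    apply mul_le_mul_of_nonneg_right _ hL0.le
    rw [div_le_iff₀ hN0]
    linarith
  · simp only
    rw [← hvL]
    apply mul_le_mul_of_nonneg_right _ hL0.le
    rw [div_le_iff₀ hN0]
    linarith
  · simp only
    have e : |(x : ℝ) - y| = Real.exp D := by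
      rw [hD, Real.exp_log (by linarith)]
    rw [e]
    apply Real.exp_le_exp.2
    rw [← hwL]
    apply mul_le_mul_of_nonneg_right _ hL0.le
    rw [le_div_iff₀ hN0]
    linarith

theorem coprime_case (η : ℝ) (hη : 0 < η) : ∃ Q0 : ℝ, ∀ (x y : ℤ) (a b : ℕ), IsCoprime x y →
    x ≠ 0 → y ≠ 0 → x ≠ y → (3 : ℤ) ^ a ∣ x → (2 : ℤ) ^ b ∣ y → Q0 ≤ ht x y →
    (3 : ℝ) ^ a * 2 ^ b ≤ |(x : ℝ) - y| * ht x y ^ (1 + η) := by
  by_contra hcon
  push Not at hcon
  obtain ⟨m, K, hm, hK, hcore⟩ := core (η / 2) (by positivity)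
  obtain ⟨N, hN⟩ := exists_nat_ge (max (6 / η) 1)
  have hN1 : (1 : ℝ) ≤ N := le_trans (le_max_right _ _) hN
  have hN6 : 6 / η ≤ N := le_trans (le_max_left _ _) hN
  have hN0 : (0 : ℝ) < N := by linarith
  have h1 : ∀ n : ℕ, ∃ (x y : ℤ) (a b : ℕ), IsCoprime x y ∧ x ≠ 0 ∧ y ≠ 0 ∧ x ≠ y ∧
      (3 : ℤ) ^ a ∣ x ∧ (2 : ℤ) ^ b ∣ y ∧ (n : ℝ) + 1 ≤ Real.log (ht x y) ∧
      |(x : ℝ) - y| * ht x y ^ (1 + η) < (3 : ℝ) ^ a * 2 ^ b := by
    intro n
    obtain ⟨x, y, a, b, c1, c2, c3, c4, c5, c6, c7, c8⟩ := hcon (Real.exp (n + 1))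
    refine ⟨x, y, a, b, c1, c2, c3, c4, c5, c6, ?_, c8⟩
    rw [Real.le_log_iff_exp_le (by linarith [one_le_ht (y := y) c2])]
    exact c7
  choose fx fy fa fb g1 g2 g3 g4 g5 g6 g7 g8 using h1
  have h2 := fun n => cell η hη N hN1 hN6 (fx n) (fy n) (fa n) (fb n) (g2 n) (g3 n) (g4 n) (g5 n)
    (g6 n) (by have := g7 n; have h0 : (0 : ℝ) ≤ n := Nat.cast_nonneg n; linarith) (g8 n)
  choose c k1 k2 k3 k4 using h2
  obtain ⟨c0, hc0⟩ := Finite.exists_infinite_fiber c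
  have hinf : (c ⁻¹' {c0}).Infinite := Set.infinite_coe_iff.1 hc0
  have h3 : ∀ t : ℝ, ∃ n : ℕ, c n = c0 ∧ t ≤ Real.log (ht (fx n) (fy n)) := by
    intro t
    obtain ⟨n, hn, hn2⟩ := hinf.exists_gt ⌈t⌉₊
    refine ⟨n, hn, ?_⟩
    have h4 : t ≤ ⌈t⌉₊ := Nat.le_ceil t
    have h5 : (⌈t⌉₊ : ℝ) < n := by exact_mod_cast hn2
    have := g7 n
    linarith
  choose s s1 s2 using h3
  -- the thresholds
  let T : ℕ → ℝ := fun n => Nat.rec K (fun _ t => K * Real.log (ht (fx (s t)) (fy (s t)))) n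
  let q : ℕ → ℝ := fun n => Real.log (ht (fx (s (T n))) (fy (s (T n))))
  have hT0 : T 0 = K := rfl
  have hT1 : ∀ n, T (n + 1) = K * q n := fun n => rfl
  have hTq : ∀ n, T n ≤ q n := fun n => s2 (T n)
  have hqK : ∀ n, K ≤ q n := by
    intro n
    induction n with
    | zero => exact hTq 0
    | succ n ih =>
      have h := hTq (n + 1)
      rw [hT1] at h
      nlinarith
  have hstep : ∀ n, K * q n ≤ q (n + 1) := fun n => by
    have h := hTq (n + 1)
    rwa [hT1] at h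
  have hmono : Monotone q := monotone_nat_of_le_succ fun n => by
    have h := hstep n
    have h' := hqK n
    nlinarith
  have hlt : ∀ i j, i < j → K * q i ≤ q j := by
    intro i j hij
    exact (hstep i).trans (hmono (Nat.succ_le_of_lt hij))
  refine hcore (fun l => fx (s (T (m - 1 - l)))) (fun l => fy (s (T (m - 1 - l))))
    (fun l => fa (s (T (m - 1 - l)))) (fun l => fb (s (T (m - 1 - l))))
    (((c0.1 : ℕ) : ℝ) / N) (((c0.2.1 : ℕ) : ℝ) / N) (((c0.2.2 : ℕ) : ℝ) / N)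
    (by positivity) ?_ (by positivity) ?_ (by positivity) ?_ ?_ (fun l => g1 _) (fun l => g2 _)
    (fun l => g3 _) (fun l => g4 _) (fun l => g5 _) (fun l => g6 _) ?_ ?_ ?_ ?_ ?_
  · rw [div_le_one hN0]
    exact_mod_cast Nat.lt_succ_iff.1 c0.1.2
  · rw [div_le_one hN0]
    exact_mod_cast Nat.lt_succ_iff.1 c0.2.1.2
  · rw [div_le_one hN0]
    exact_mod_cast Nat.lt_succ_iff.1 c0.2.2.2
  · have h := k1 (s 0)
    rwa [s1 0] at h
  · intro l
    have h := k2 (s (T (m - 1 - l)))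
    rwa [s1] at h
  · intro l
    have h := k3 (s (T (m - 1 - l)))
    rwa [s1] at h
  · intro l
    have h := k4 (s (T (m - 1 - l)))
    rwa [s1] at h
  · intro l
    exact hqK (m - 1 - l)
  · intro l l' hll
    have h1 : (l : ℕ) < (l' : ℕ) := hll
    have h2 := l'.2
    exact hlt (m - 1 - l') (m - 1 - l) (by omega)

/-- removal of the common divisor -/
private theorem red (x y : ℤ) (a b : ℕ) (hx : x ≠ 0) (hy : y ≠ 0) (ha : (3 : ℤ) ^ a ∣ x)
    (hb : (2 : ℤ) ^ b ∣ y) : ∃ (g : ℕ) (x' y' : ℤ) (a' b' : ℕ), 0 < g ∧ x = g * x' ∧ y = g * y' ∧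
      IsCoprime x' y' ∧ (3 : ℤ) ^ a' ∣ x' ∧ (2 : ℤ) ^ b' ∣ y' ∧
      (3 : ℝ) ^ a * 2 ^ b ≤ g * (3 ^ a' * 2 ^ b') := by
  have hg0 : Int.gcd x y ≠ 0 := fun h => hx (Int.gcd_eq_zero_iff.1 h).1
  obtain ⟨x', hx'⟩ := Int.gcd_dvd_left x y
  obtain ⟨y', hy'⟩ := Int.gcd_dvd_right x y
  have hgz : ((Int.gcd x y : ℕ) : ℤ) ≠ 0 := by exact_mod_cast hg0
  have hcop : IsCoprime x' y' := by
    refine ⟨Int.gcdA x y, Int.gcdB x y, ?_⟩
    apply mul_left_cancel₀ hgz
    calc ((Int.gcd x y : ℕ) : ℤ) * (Int.gcdA x y * x' + Int.gcdB x y * y')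
        = (((Int.gcd x y : ℕ) : ℤ) * x') * Int.gcdA x y
          + (((Int.gcd x y : ℕ) : ℤ) * y') * Int.gcdB x y := by ring
      _ = x * Int.gcdA x y + y * Int.gcdB x y := by rw [← hx', ← hy']
      _ = ((Int.gcd x y : ℕ) : ℤ) * 1 := by rw [mul_one]; exact (Int.gcd_eq_gcd_ab x y).symm
  obtain ⟨r, g1, h31, hr⟩ := Nat.exists_eq_pow_mul_and_not_dvd hg0 3 (by norm_num)
  have hg10 : g1 ≠ 0 := by rintro rfl; simp at h31
  obtain ⟨t, g2, h22, ht⟩ := Nat.exists_eq_pow_mul_and_not_dvd hg10 2 (by norm_num)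
  have hg20 : g2 ≠ 0 := by rintro rfl; simp at h22
  refine ⟨Int.gcd x y, x', y', a - r, b - t, Nat.pos_of_ne_zero hg0, hx', hy', hcop, ?_, ?_, ?_⟩
  · rcases le_or_gt a r with h | h
    · rw [Nat.sub_eq_zero_of_le h, pow_zero]; exact one_dvd _
    have h3c : IsCoprime ((3 : ℤ) ^ (a - r)) ((g1 : ℕ) : ℤ) := by
      apply IsCoprime.pow_left
      rw [show (3 : ℤ) = ((3 : ℕ) : ℤ) by norm_num, Nat.isCoprime_iff_coprime]
      exact (Nat.Prime.coprime_iff_not_dvd Nat.prime_three).2 h31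
    apply h3c.dvd_of_dvd_mul_left
    have h1 : (3 : ℤ) ^ r * 3 ^ (a - r) ∣ 3 ^ r * ((g1 : ℤ) * x') := by
      rw [← pow_add, Nat.add_sub_cancel' h.le]
      have : (3 : ℤ) ^ r * ((g1 : ℤ) * x') = x := by
        conv_rhs => rw [hx', hr]
        push_cast; ring
      rw [this]; exact ha
    exact (mul_dvd_mul_iff_left (by positivity)).1 h1
  · rcases le_or_gt b t with h | h
    · rw [Nat.sub_eq_zero_of_le h, pow_zero]; exact one_dvd _
    have h2c : IsCoprime ((2 : ℤ) ^ (b - t)) (((3 ^ r * g2 : ℕ)) : ℤ) := by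
      apply IsCoprime.pow_left
      rw [show (2 : ℤ) = ((2 : ℕ) : ℤ) by norm_num, Nat.isCoprime_iff_coprime]
      apply (Nat.Prime.coprime_iff_not_dvd Nat.prime_two).2
      intro hd
      rcases (Nat.Prime.dvd_mul Nat.prime_two).1 hd with h' | h'
      · have := Nat.Prime.dvd_of_dvd_pow Nat.prime_two h'
        omega
      · exact h22 h'
    apply h2c.dvd_of_dvd_mul_left
    have h1 : (2 : ℤ) ^ t * 2 ^ (b - t) ∣ 2 ^ t * (((3 ^ r * g2 : ℕ) : ℤ) * y') := by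
      rw [← pow_add, Nat.add_sub_cancel' h.le]
      have : (2 : ℤ) ^ t * (((3 ^ r * g2 : ℕ) : ℤ) * y') = y := by
        conv_rhs => rw [hy', hr, ht]
        push_cast; ring
      rw [this]; exact hb
    exact (mul_dvd_mul_iff_left (by positivity)).1 h1
  · have hgr : ((Int.gcd x y : ℕ) : ℝ) = 3 ^ r * (2 ^ t * g2) := by
      rw [hr, ht]; push_cast; ring
    have hg2 : (1 : ℝ) ≤ g2 := by exact_mod_cast Nat.one_le_iff_ne_zero.2 hg20
    have e1 : (3 : ℝ) ^ a ≤ 3 ^ r * 3 ^ (a - r) := by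
      rw [← pow_add]
      exact pow_le_pow_right₀ (by norm_num) (by omega)
    have e2 : (2 : ℝ) ^ b ≤ 2 ^ t * 2 ^ (b - t) := by
      rw [← pow_add]
      exact pow_le_pow_right₀ (by norm_num) (by omega)
    calc (3 : ℝ) ^ a * 2 ^ b ≤ (3 ^ r * 3 ^ (a - r)) * (2 ^ t * 2 ^ (b - t)) :=
          mul_le_mul e1 e2 (by positivity) (by positivity)
      _ = (3 ^ r * (2 ^ t * 1)) * (3 ^ (a - r) * 2 ^ (b - t)) := by ring
      _ ≤ (3 ^ r * (2 ^ t * g2)) * (3 ^ (a - r) * 2 ^ (b - t)) := by gcongr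
      _ = _ := by rw [hgr]

theorem ridout (η : ℝ) (hη : 0 < η) : ∃ Q0 : ℝ, ∀ (x y : ℤ) (a b : ℕ),
    x ≠ 0 → y ≠ 0 → x ≠ y → (3 : ℤ) ^ a ∣ x → (2 : ℤ) ^ b ∣ y → Q0 ≤ ht x y →
    (3 : ℝ) ^ a * 2 ^ b ≤ |(x : ℝ) - y| * ht x y ^ (1 + η) := by
  obtain ⟨Q0, hQ0⟩ := coprime_case η hη
  refine ⟨Q0 ^ 2, ?_⟩
  intro x y a b hx hy hxy ha hb hQ
  obtain ⟨g, x', y', a', b', hg, ex, ey, hcop, ha', hb', hle⟩ := red x y a b hx hy ha hb
  have hx'0 : x' ≠ 0 := by rintro rfl; exact hx (by rw [ex]; ring)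
  have hy'0 : y' ≠ 0 := by rintro rfl; exact hy (by rw [ey]; ring)
  have hxy' : x' ≠ y' := by rintro rfl; exact hxy (by rw [ex, ey])
  have hgR : (1 : ℝ) ≤ g := by exact_mod_cast hg
  have hg0 : (0 : ℝ) < g := by linarith
  have eht : ht x y = g * ht x' y' := by
    rw [ex, ey]
    unfold ht
    push_cast
    rw [abs_mul, abs_mul, abs_of_pos hg0, mul_max_of_nonneg _ _ hg0.le]
  have hht' : 1 ≤ ht x' y' := one_le_ht hx'0
  have hht : 1 ≤ ht x y := one_le_ht hx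
  have eab : |(x : ℝ) - y| = g * |(x' : ℝ) - y'| := by
    rw [ex, ey]
    push_cast
    rw [← mul_sub, abs_mul, abs_of_pos hg0]
  have hle2 : ht x' y' ≤ ht x y := by rw [eht]; nlinarith
  rcases le_or_gt Q0 (ht x' y') with h | h
  · have h1 := hQ0 x' y' a' b' hcop hx'0 hy'0 hxy' ha' hb' h
    calc (3 : ℝ) ^ a * 2 ^ b ≤ g * (3 ^ a' * 2 ^ b') := hle
      _ ≤ g * (|(x' : ℝ) - y'| * ht x' y' ^ (1 + η)) := by gcongr
      _ = |(x : ℝ) - y| * ht x' y' ^ (1 + η) := by rw [eab]; ring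
      _ ≤ |(x : ℝ) - y| * ht x y ^ (1 + η) := by
        apply mul_le_mul_of_nonneg_left _ (abs_nonneg _)
        exact Real.rpow_le_rpow (by linarith) hle2 (by linarith)
  · have h3 : (3 : ℝ) ^ a' ≤ ht x' y' := by
      have := pow_le_of_dvd (c := 3) hx'0 (by exact_mod_cast ha')
      push_cast at this
      exact this.trans (le_max_left _ _)
    have h2 : (2 : ℝ) ^ b' ≤ ht x' y' := by
      have := pow_le_of_dvd (c := 2) hy'0 (by exact_mod_cast hb')
      push_cast at this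
      exact this.trans (le_max_right _ _)
    have hd1 : (1 : ℝ) ≤ |(x' : ℝ) - y'| := by
      have : (1 : ℤ) ≤ |x' - y'| := Int.one_le_abs (sub_ne_zero.2 hxy')
      exact_mod_cast this
    have hQQ : ht x' y' * ht x' y' ≤ Q0 ^ 2 := by nlinarith
    calc (3 : ℝ) ^ a * 2 ^ b ≤ g * (3 ^ a' * 2 ^ b') := hle
      _ ≤ g * (ht x' y' * ht x' y') := by gcongr
      _ ≤ g * Q0 ^ 2 := by gcongr
      _ ≤ g * ht x y := by gcongr
      _ = g * 1 * ht x y ^ (1 : ℝ) := by rw [Real.rpow_one, mul_one]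
      _ ≤ g * |(x' : ℝ) - y'| * ht x y ^ (1 + η) := by
        exact mul_le_mul (mul_le_mul_of_nonneg_left hd1 hg0.le)
          (Real.rpow_le_rpow_of_exponent_le hht (by linarith)) (by positivity) (by positivity)
      _ = |(x : ℝ) - y| * ht x y ^ (1 + η) := by rw [eab]

end Pool.Agent.Helper42.RD
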